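import Pool.Agent.Q82.LQ.Stm

/-!
# Project LQ, second part: in a UMD space the `D_I` are bounded on `L^p`

Petermichl type representation on the circle: dyadic systems that start with `m` arcs, Haar shift
`h_I ↦ g_I`, average over translations (gives a multiplier), average over `m ∈ [N, 2N)` with weights
`1/m`, dilation `f(L·)`; in the limit the multiplier is `-i C sgn n`, `C > 0`.
-/

set_option autoImplicit false

namespace Pool.Agent.Q82.LQ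

open MeasureTheory Set Filter Topology ProbabilityTheory
open scoped ENNReal NNReal

open Classical in
/-- Haar function of `[0,1)`: `-1` on the left half, `1` on the right half -/
noncomputable def hH (x : ℝ) : ℝ := if 0 ≤ x ∧ x < 1 / 2 then -1 else if 1 / 2 ≤ x ∧ x < 1 then 1 else 0

open Classical in
/-- signs `+,-,-,+` on the quarters of `[0,1)` -/
noncomputable def gH (x : ℝ) : ℝ :=
  if 0 ≤ x ∧ x < 1 / 4 then 1 else if 1 / 4 ≤ x ∧ x < 3 / 4 then -1 else if 3 / 4 ≤ x ∧ x < 1 then 1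
  else 0

/-- the shift: `Σ_{k<K} Σ_{j<m2^k} |I|⁻¹ (∫ f h_I) g_I`, `I = [j/(m2^k), (j+1)/(m2^k))` -/
noncomputable def Sh {X : Type} [NormedAddCommGroup X] [NormedSpace ℂ X] (m K : ℕ) (f : ℝ → X)
    (x : ℝ) : X :=
  ∑ k ∈ Finset.range K, ∑ j ∈ Finset.range (m * 2 ^ k),
    ((m * 2 ^ k : ℝ) * gH (m * 2 ^ k * x - j)) • ∫ y in Ico (0 : ℝ) 1, hH (m * 2 ^ k * y - j) • f y

/-- the multiplier of one level: `-4 i sin³(πξ/2) (1 - cos(πξ/2)) / (πξ)²`, `0` at `0` -/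
noncomputable def muH (ξ : ℝ) : ℂ :=
  -Complex.I * ((4 * Real.sin (Real.pi * ξ / 2) ^ 3 * (1 - Real.cos (Real.pi * ξ / 2))
    / (Real.pi * ξ) ^ 2 : ℝ) : ℂ)

/-- `Σ λ_n e_n c_n` -/
noncomputable def evm {X : Type} [NormedAddCommGroup X] [NormedSpace ℂ X] (l : ℤ → ℂ) (c : ℤ →₀ X)
    (t : ℝ) : X := c.sum fun n x => (l n * ex n t) • x

/-- The Haar shifts are bounded in a UMD space.

Proof.  `ℱ_k` = σ-algebra on `[0,1)` generated by the intervals of level `k`, `N_k = m2^k` of them.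
`x_{k,j} = N_k ∫ f h_{k,j}`, `d_k = Σ_j x_{k,j} h_{k,j} = E_{k+1} f - E_k f`, so
`‖Σ_{k<K} d_k‖_p = ‖E_K f - E_0 f‖_p ≤ 2 ‖f‖_p`.  `d'_k = Σ_j x_{k,j} g_{k,j}` is `ℱ_{k+2}` measurable
with mean zero on the intervals of level `k+1`: partial sums of `ε_k d_k` and of `ε_k d'_k` are
martingales.  UMD for `d'` (for every choice of signs `ε`), then the average over all `ε ∈ {±1}^K`:
`‖Σ d'_k‖_p^p ≤ β^p E_ε ‖Σ ε_k d'_k‖_p^p`.  For fixed `x`, `d'_k(x) = ± d_k(x)` (signs depending on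
`k, x`; `|g_I| = |h_I|`), so `E_ε ‖Σ ε_k d'_k(x)‖^p = E_ε ‖Σ ε_k d_k(x)‖^p`, and UMD for `d` gives
`≤ β^p ‖Σ d_k‖_p^p`.  (Take `Ω = ℝ` with `volume.restrict (Ico 0 1)`.) -/
def S_SHIFT : Prop := ∀ (X : Type) [NormedAddCommGroup X] [NormedSpace ℂ X] [CompleteSpace X],
  UMD X → ∀ p : ℝ, 1 < p → ∃ B : ℝ≥0, ∀ m K : ℕ, 0 < m → ∀ f : ℝ → X, BM f →
    Nn p (Sh m K f) ≤ (B : ℝ≥0∞) ^ p * Nn p f

/-- Average over translations.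

Proof.  For `f = ev c` and `ω ∈ [0,1)` let `f_ω(y) = f(y + ω)`.  With `Sh` extended periodically
(`x - ω` replaced by `Int.fract (x - ω)`), `∫_0^1 Sh(f_ω)(fract(x-ω)) dω = Σ_n λ_n e_n(x) c_n`, where
`λ_n = ∫ Sh(e_n) e_{-n} = Σ_k conj(ĥ(n/N_k)) ĝ(n/N_k) = Σ_k muH (n/N_k)`, `N_k = m 2^k`,
`ĥ(ξ) = -i e(-ξ/2) (1-cos πξ)/(πξ)`, `ĝ(ξ) = e(-ξ/2) (sin πξ - 2 sin(πξ/2))/(πξ)`; then Jensen in
`ω` and the translation invariance of `Nn p` for 1-periodic functions. -/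
def S_AVG : Prop := ∀ (X : Type) [NormedAddCommGroup X] [NormedSpace ℂ X] [CompleteSpace X]
  (p : ℝ) (B : ℝ≥0) (m K : ℕ), 1 < p → 0 < m →
  (∀ f : ℝ → X, BM f → Nn p (Sh m K f) ≤ (B : ℝ≥0∞) ^ p * Nn p f) →
  ∀ c : ℤ →₀ X, Nn p (evm (fun n => ∑ k ∈ Finset.range K, muH (n / (m * 2 ^ k))) c)
    ≤ (B : ℝ≥0∞) ^ p * Nn p (ev c)

/-- The limit of the multipliers.

Proof.  `φ(u) = 4 sin³(πu/2)(1-cos(πu/2))/(πu)²` is odd, `O(u³)` at `0`, `O(u^{-2})` at infinity,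
`φ' = O(u²)`, `O(u^{-2})`.  `C = ∫_0^∞ φ(u) du/u = ∫_0^∞ sin³a (1-cos a)/a³ da > 0`: on
`[2πl, 2πl+2π]` pair `a = 2πl + b` with `a = 2π(l+1) - b`, `0<b<π`: the sum is
`sin³b (1-cos b) [(2πl+b)^{-3} - (2π(l+1)-b)^{-3}] > 0`.  For `ξ > 0`, `F(t) = φ(ξ/t)/t`:
`Σ_{m=N}^{2N-1} (1/m) Σ_k φ(ξ/(m2^k)) = Σ_k Σ_m 2^k F(m 2^k)` is a Riemann sum of `∫_N^∞ F` with
error `≤ Σ_k 2^k ∫_{N2^k}^{2N2^k} |F'| ≤ (1/N) ∫ t |F'(t)| dt ≤ C₁/N`,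
`C₁ = ∫ |φ'| + ∫ |φ(u)| du/u`, and `∫_N^∞ F = ∫_0^{ξ/N} φ(u) du/u → C` as `ξ → ∞`.  So choose `N`,
then `L` (`ξ = L|n| ≥ L`), then `K` (convergent series).  Negative `n`: `φ` is odd. -/
def S_MU : Prop := ∃ C : ℝ, 0 < C ∧ ∀ δ : ℝ, 0 < δ → ∀ M : ℕ, ∃ N K L : ℕ, 0 < N ∧ 0 < L ∧
  ∀ n : ℤ, n ≠ 0 → |n| ≤ (M : ℤ) →
    ‖∑ m ∈ Finset.Ico N (2 * N), ((1 / (m : ℝ) : ℝ) : ℂ) *
        ∑ k ∈ Finset.range K, muH (((L : ℤ) * n : ℤ) / (m * 2 ^ k))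
      + Complex.I * (C * (n.sign : ℝ) : ℝ)‖ < δ

/-- The Hilbert transform.

Proof.  Given `c`, `M` with support in `[-M, M]` and `δ > 0` take `N, K, L` from `S_MU`.  Apply
`S_AVG` (and `S_SHIFT`) to `c'` = `c` with `n` replaced by `L n` (`ev c' t = ev c (L t)`,
`Nn p (ev c') = Nn p (ev c)`), for `m = N, ..., 2N-1`; the weighted sum has weights `≤ 1` in total,
so the multiplier `Λ(Ln)`, `Λ(n) = Σ_m (1/m) Σ_k muH(n/(m2^k))` (`Λ(0) = 0`) has norm `≤ B`; let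
`δ → 0`: the multiplier `-iC sgn n` has norm `≤ B`. -/
def S_HT : Prop := S_SHIFT → S_AVG → S_MU → ∀ (X : Type) [NormedAddCommGroup X] [NormedSpace ℂ X]
  [CompleteSpace X], UMD X → ∀ p : ℝ, 1 < p → ∃ B : ℝ≥0, ∀ c : ℤ →₀ X,
    Nn p (evm (fun n => ((n.sign : ℝ) : ℂ)) c) ≤ (B : ℝ≥0∞) ^ p * Nn p (ev c)

/-- All `D_I` are bounded: the mean `c 0` is bounded by `‖f‖_p`, so
`D_{[0,∞)} f = (f + Σ sgn(n) e_n c_n + c_0)/2` is bounded, `D_{[a,∞)}` by modulation, `D_{(-∞,b]}` by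
difference, and the other intervals are intersections. -/
def S_BDT : Prop := ∀ (X : Type) [NormedAddCommGroup X] [NormedSpace ℂ X] [CompleteSpace X]
  (p : ℝ) (B : ℝ≥0), 1 < p →
  (∀ c : ℤ →₀ X, Nn p (evm (fun n => ((n.sign : ℝ) : ℂ)) c) ≤ (B : ℝ≥0∞) ^ p * Nn p (ev c)) →
  ∃ B' : ℝ, ∀ I : Set ℤ, I.OrdConnected → ∀ c : ℤ →₀ X, nrm p (DI I c) ≤ B' * nrm p c

end Pool.Agent.Q82.LQ
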