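import Pool.Agent.Q82.LQ.Ht

/-! Project LQ: average of the Haar shifts over translations. -/

set_option autoImplicit false

namespace Pool.Agent.Q82.LQ

open MeasureTheory Set Filter Topology Pool.Agent.Q298.LQ
open scoped ENNReal NNReal

/-! ### Fourier transforms of the two Haar type functions -/

/-- `e^{2πiξs}` -/
noncomputable def EE (ξ s : ℝ) : ℂ := Complex.exp (2 * Real.pi * Complex.I * ξ * s)

theorem EE_add (ξ s t : ℝ) : EE ξ (s + t) = EE ξ s * EE ξ t := by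
  unfold EE
  rw [← Complex.exp_add]
  congr 1
  push_cast
  ring

theorem EE_neg_mul (ξ s : ℝ) : EE ξ s * EE (-ξ) s = 1 := by
  unfold EE
  rw [← Complex.exp_add, ← Complex.exp_zero]
  congr 1
  push_cast
  ring

theorem EE_cont (ξ : ℝ) : Continuous (EE ξ) := by
  unfold EE
  fun_prop

theorem EE_norm (ξ s : ℝ) : ‖EE ξ s‖ = 1 := by
  unfold EE
  have : (2 * Real.pi * Complex.I * ξ * s : ℂ) = ((2 * Real.pi * ξ * s : ℝ) : ℂ) * Complex.I := by
    push_cast
    ring
  rw [this, Complex.norm_exp_ofReal_mul_I]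

theorem EE_zero (s : ℝ) : EE 0 s = 1 := by
  unfold EE
  simp

theorem int_EE (ξ : ℝ) (hξ : ξ ≠ 0) (a b : ℝ) (hab : a ≤ b) :
    ∫ s in Ico a b, EE ξ s = (EE ξ b - EE ξ a) / (2 * Real.pi * Complex.I * ξ) := by
  rw [integral_Ico_eq_integral_Ioo, ← integral_Ioc_eq_integral_Ioo,
    ← intervalIntegral.integral_of_le hab]
  have hc : (2 * Real.pi * Complex.I * ξ : ℂ) ≠ 0 := by
    have h1 : (ξ : ℂ) ≠ 0 := by exact_mod_cast hξ
    exact mul_ne_zero Complex.two_pi_I_ne_zero h1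
  exact integral_exp_mul_complex hc

theorem hH_eq (s : ℝ) : ((hH s : ℝ) : ℂ) = -(Ico (0 : ℝ) (1 / 2)).indicator (fun _ => (1 : ℂ)) s +
    (Ico (1 / 2 : ℝ) 1).indicator (fun _ => (1 : ℂ)) s := by
  unfold hH
  by_cases h1 : 0 ≤ s ∧ s < 1 / 2
  · rw [if_pos h1, indicator_of_mem (by exact h1), indicator_of_notMem]
    · simp
    · intro h
      linarith [h1.2, h.1]
  · by_cases h2 : 1 / 2 ≤ s ∧ s < 1
    · rw [if_neg h1, if_pos h2, indicator_of_notMem (by exact h1), indicator_of_mem (by exact h2)]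
      simp
    · rw [if_neg h1, if_neg h2, indicator_of_notMem (by exact h1), indicator_of_notMem (by exact h2)]
      simp

theorem gH_eq (s : ℝ) : ((gH s : ℝ) : ℂ) = (Ico (0 : ℝ) (1 / 4)).indicator (fun _ => (1 : ℂ)) s -
    (Ico (1 / 4 : ℝ) (3 / 4)).indicator (fun _ => (1 : ℂ)) s +
    (Ico (3 / 4 : ℝ) 1).indicator (fun _ => (1 : ℂ)) s := by
  unfold gH
  by_cases h1 : 0 ≤ s ∧ s < 1 / 4
  · rw [if_pos h1, indicator_of_mem (by exact h1), indicator_of_notMem, indicator_of_notMem]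
    · simp
    · intro h
      linarith [h1.2, h.1]
    · intro h
      linarith [h1.2, h.1]
  · by_cases h2 : 1 / 4 ≤ s ∧ s < 3 / 4
    · rw [if_neg h1, if_pos h2, indicator_of_notMem (by exact h1), indicator_of_mem (by exact h2),
        indicator_of_notMem]
      · simp
      · intro h
        linarith [h2.2, h.1]
    · by_cases h3 : 3 / 4 ≤ s ∧ s < 1
      · rw [if_neg h1, if_neg h2, if_pos h3, indicator_of_notMem (by exact h1),
          indicator_of_notMem (by exact h2), indicator_of_mem (by exact h3)]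
        simp
      · rw [if_neg h1, if_neg h2, if_neg h3, indicator_of_notMem (by exact h1),
          indicator_of_notMem (by exact h2), indicator_of_notMem (by exact h3)]
        simp

theorem EE_indInt (ξ a b : ℝ) : Integrable (fun s => (Ico a b).indicator (fun _ => (1 : ℂ)) s * EE ξ s) := by
  have h1 : (fun s => (Ico a b).indicator (fun _ => (1 : ℂ)) s * EE ξ s) =
      (Ico a b).indicator (EE ξ) := by
    funext s
    by_cases h : s ∈ Ico a b
    · rw [indicator_of_mem h, indicator_of_mem h, one_mul]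
    · rw [indicator_of_notMem h, indicator_of_notMem h, zero_mul]
  rw [h1, integrable_indicator_iff measurableSet_Ico]
  exact ((EE_cont ξ).integrableOn_Icc (a := a) (b := b)).mono_set Ico_subset_Icc_self

theorem EE_ind (ξ a b : ℝ) : ∫ s, (Ico a b).indicator (fun _ => (1 : ℂ)) s * EE ξ s =
    ∫ s in Ico a b, EE ξ s := by
  rw [← integral_indicator measurableSet_Ico]
  refine integral_congr_ae (ae_of_all _ fun s => ?_)
  beta_reduce
  by_cases h : s ∈ Ico a b
  · rw [indicator_of_mem h, indicator_of_mem h, one_mul]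
  · rw [indicator_of_notMem h, indicator_of_notMem h, zero_mul]

theorem hH_hat (ξ : ℝ) : ∫ s, ((hH s : ℝ) : ℂ) * EE ξ s =
    -(∫ s in Ico (0 : ℝ) (1 / 2), EE ξ s) + ∫ s in Ico (1 / 2 : ℝ) 1, EE ξ s := by
  have h1 : ∀ s, ((hH s : ℝ) : ℂ) * EE ξ s =
      -((Ico (0 : ℝ) (1 / 2)).indicator (fun _ => (1 : ℂ)) s * EE ξ s) +
      (Ico (1 / 2 : ℝ) 1).indicator (fun _ => (1 : ℂ)) s * EE ξ s := by
    intro s
    rw [hH_eq]
    ring
  have h2 : Integrable (fun s => -((Ico (0 : ℝ) (1 / 2)).indicator (fun _ => (1 : ℂ)) s * EE ξ s)) :=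
    (EE_indInt _ _ _).neg
  simp only [h1]
  rw [integral_add h2 (EE_indInt _ _ _), integral_neg, EE_ind, EE_ind]

theorem gH_hat (ξ : ℝ) : ∫ s, ((gH s : ℝ) : ℂ) * EE ξ s =
    (∫ s in Ico (0 : ℝ) (1 / 4), EE ξ s) - (∫ s in Ico (1 / 4 : ℝ) (3 / 4), EE ξ s) +
    ∫ s in Ico (3 / 4 : ℝ) 1, EE ξ s := by
  have h1 : ∀ s, ((gH s : ℝ) : ℂ) * EE ξ s =
      ((Ico (0 : ℝ) (1 / 4)).indicator (fun _ => (1 : ℂ)) s * EE ξ s -
      (Ico (1 / 4 : ℝ) (3 / 4)).indicator (fun _ => (1 : ℂ)) s * EE ξ s) +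
      (Ico (3 / 4 : ℝ) 1).indicator (fun _ => (1 : ℂ)) s * EE ξ s := by
    intro s
    rw [gH_eq]
    ring
  have h2 : Integrable (fun s => (Ico (0 : ℝ) (1 / 4)).indicator (fun _ => (1 : ℂ)) s * EE ξ s -
      (Ico (1 / 4 : ℝ) (3 / 4)).indicator (fun _ => (1 : ℂ)) s * EE ξ s) :=
    (EE_indInt _ _ _).sub (EE_indInt _ _ _)
  simp only [h1]
  rw [integral_add h2 (EE_indInt _ _ _),
    integral_sub (EE_indInt _ _ _) (EE_indInt _ _ _), EE_ind, EE_ind, EE_ind]

theorem prod_hat (ξ : ℝ) :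
    (∫ s, ((hH s : ℝ) : ℂ) * EE ξ s) * (∫ s, ((gH s : ℝ) : ℂ) * EE (-ξ) s) = muH ξ := by
  rw [hH_hat, gH_hat]
  by_cases hξ : ξ = 0
  · subst hξ
    have : ∀ a b : ℝ, a ≤ b → ∫ s in Ico a b, EE 0 s = ((b - a : ℝ) : ℂ) := by
      intro a b hab
      simp only [EE_zero]
      rw [setIntegral_const, measureReal_def, Real.volume_Ico, ENNReal.toReal_ofReal (by linarith)]
      simp
    rw [this 0 (1 / 2) (by norm_num), this (1 / 2) 1 (by norm_num)]
    unfold muH
    simp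
    norm_num
  · have hξ' : (-ξ) ≠ 0 := neg_ne_zero.2 hξ
    rw [int_EE ξ hξ _ _ (by norm_num), int_EE ξ hξ _ _ (by norm_num),
      int_EE (-ξ) hξ' _ _ (by norm_num), int_EE (-ξ) hξ' _ _ (by norm_num),
      int_EE (-ξ) hξ' _ _ (by norm_num)]
    set w : ℂ := EE (-ξ) (1 / 4) with hw
    set v : ℂ := EE ξ (1 / 4) with hv
    have hvw : v * w = 1 := EE_neg_mul ξ (1 / 4)
    have e0 : ∀ ζ : ℝ, EE ζ 0 = 1 := by
      intro ζ
      unfold EE
      simp
    have e2 : ∀ ζ : ℝ, EE ζ (1 / 2) = EE ζ (1 / 4) ^ 2 := by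
      intro ζ
      rw [sq, ← EE_add]
      norm_num
    have e3 : ∀ ζ : ℝ, EE ζ (3 / 4) = EE ζ (1 / 4) ^ 3 := by
      intro ζ
      rw [pow_succ, ← e2, ← EE_add]
      norm_num
    have e4 : ∀ ζ : ℝ, EE ζ 1 = EE ζ (1 / 4) ^ 4 := by
      intro ζ
      rw [pow_succ, ← e3, ← EE_add]
      norm_num
    rw [e0, e0, e2, e4, e3, e4, ← hw, ← hv]
    have hpi : (Real.pi : ℂ) ≠ 0 := by exact_mod_cast Real.pi_ne_zero
    have hξc : (ξ : ℂ) ≠ 0 := by exact_mod_cast hξ
    -- sine and cosine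
    have hcos : ((Real.cos (Real.pi * ξ / 2) : ℝ) : ℂ) = (v + w) / 2 := by
      rw [Complex.ofReal_cos, Complex.cos, hv, hw]
      unfold EE
      congr 3
      · push_cast
        ring
      · push_cast
        ring
    have hsin : ((Real.sin (Real.pi * ξ / 2) : ℝ) : ℂ) = (w - v) * Complex.I / 2 := by
      rw [Complex.ofReal_sin, Complex.sin, hv, hw]
      unfold EE
      congr 4
      · push_cast
        ring
      · push_cast
        ring
    have key : (v ^ 2 - 1) ^ 2 * (w ^ 4 - 2 * w ^ 3 + 2 * w - 1) = -(w - v) ^ 3 * (2 - v - w) := by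
      have h1 : v ^ 2 - 1 = v * (v - w) := by linear_combination hvw
      have h2 : w ^ 2 - 1 = w * (w - v) := by linear_combination hvw
      have h3 : (w - 1) ^ 2 = w * (w - 2 + v) := by linear_combination -hvw
      have h4 : w ^ 4 - 2 * w ^ 3 + 2 * w - 1 = (w ^ 2 - 1) * (w - 1) ^ 2 := by ring
      rw [h4, h1, h2, h3]
      have h5 : (v * (v - w)) ^ 2 * (w * (w - v) * (w * (w - 2 + v))) =
          (v * w) ^ 2 * ((w - v) ^ 3 * (w - 2 + v)) := by ring
      rw [h5, hvw]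
      ring
    have hI : Complex.I ^ 2 = -1 := Complex.I_sq
    have hL : (-((v ^ 2 - 1) / (2 * Real.pi * Complex.I * ξ)) +
        (v ^ 4 - v ^ 2) / (2 * Real.pi * Complex.I * ξ)) *
        ((w - 1) / (2 * Real.pi * Complex.I * (-ξ : ℝ)) - (w ^ 3 - w) / (2 * Real.pi * Complex.I * (-ξ : ℝ))
          + (w ^ 4 - w ^ 3) / (2 * Real.pi * Complex.I * (-ξ : ℝ))) =
        ((v ^ 2 - 1) ^ 2 * (w ^ 4 - 2 * w ^ 3 + 2 * w - 1)) / (4 * (Real.pi * ξ) ^ 2) := by
      push_cast
      field_simp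
      rw [hI]
      ring
    rw [hL, key]
    unfold muH
    rw [Complex.ofReal_div, Complex.ofReal_mul, Complex.ofReal_mul, Complex.ofReal_pow,
      Complex.ofReal_sub, hcos, hsin]
    push_cast
    field_simp
    rw [Complex.I_pow_four]
    ring

/-! ### the coefficients -/

theorem ex_eq_EE (n : ℤ) (N : ℝ) (hN : N ≠ 0) (y : ℝ) : ex n y = EE (n / N) (N * y) := by
  unfold ex EE
  congr 1
  push_cast
  have : (N : ℂ) ≠ 0 := by exact_mod_cast hN
  field_simp

theorem hH_supp (s : ℝ) (h : s ∉ Ico (0 : ℝ) 1) : hH s = 0 := by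
  unfold hH
  rw [if_neg, if_neg]
  · intro h2
    exact h ⟨by linarith [h2.1], h2.2⟩
  · intro h2
    exact h ⟨h2.1, by linarith [h2.2]⟩

theorem gH_supp (s : ℝ) (h : s ∉ Ico (0 : ℝ) 1) : gH s = 0 := by
  unfold gH
  rw [if_neg, if_neg, if_neg]
  · intro h2
    exact h ⟨by linarith [h2.1], h2.2⟩
  · intro h2
    exact h ⟨by linarith [h2.1], by linarith [h2.2]⟩
  · intro h2
    exact h ⟨h2.1, by linarith [h2.2]⟩

theorem coef (F : ℝ → ℝ) (hF : ∀ s, s ∉ Ico (0 : ℝ) 1 → F s = 0) (N : ℝ) (hN : 0 < N) (j : ℕ)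
    (hj : (j : ℝ) + 1 ≤ N) (n : ℤ) :
    ∫ y in Ico (0 : ℝ) 1, ((F (N * y - j) : ℝ) : ℂ) * ex n y =
      (N : ℂ)⁻¹ * (EE (n / N) j * ∫ s, ((F s : ℝ) : ℂ) * EE (n / N) s) := by
  have h1 : ∫ y in Ico (0 : ℝ) 1, ((F (N * y - j) : ℝ) : ℂ) * ex n y =
      ∫ y, ((F (N * y - j) : ℝ) : ℂ) * ex n y := by
    refine setIntegral_eq_integral_of_forall_compl_eq_zero fun y hy => ?_
    rw [hF, Complex.ofReal_zero, zero_mul]
    intro h
    apply hy
    have hj0 : (0 : ℝ) ≤ j := Nat.cast_nonneg j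
    constructor
    · have : 0 ≤ N * y := by linarith [h.1]
      exact nonneg_of_mul_nonneg_right this hN
    · by_contra hc
      push Not at hc
      nlinarith [h.2]
  have h2 : ∀ y, ((F (N * y - j) : ℝ) : ℂ) * ex n y =
      (fun u => ((F (u - j) : ℝ) : ℂ) * EE (n / N) u) (N * y) := by
    intro y
    beta_reduce
    rw [ex_eq_EE n N hN.ne']
  rw [h1]
  simp only [h2]
  rw [Measure.integral_comp_mul_left (fun u => ((F (u - j) : ℝ) : ℂ) * EE (n / N) u) N,
    abs_of_pos (inv_pos.2 hN), ← integral_add_right_eq_self _ (j : ℝ)]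
  simp only [add_sub_cancel_right]
  have h3 : ∀ s : ℝ, ((F s : ℝ) : ℂ) * EE (n / N) (s + j) =
      EE (n / N) j * (((F s : ℝ) : ℂ) * EE (n / N) s) := by
    intro s
    rw [EE_add]
    ring
  simp only [h3]
  rw [integral_const_mul, Complex.real_smul]
  push_cast
  rfl

/-- scalar kernels -/
noncomputable def sn (m K : ℕ) (n : ℤ) (v : ℝ) : ℂ :=
  ∑ k ∈ Finset.range K, ∑ j ∈ Finset.range (m * 2 ^ k),
    ((m * 2 ^ k * gH (m * 2 ^ k * v - j) : ℝ) : ℂ) *
      ∫ y in Ico (0 : ℝ) 1, ((hH (m * 2 ^ k * y - j) : ℝ) : ℂ) * ex n y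

theorem hH_meas : Measurable hH := by
  unfold hH
  refine Measurable.ite (measurableSet_Ico) measurable_const ?_
  exact Measurable.ite (measurableSet_Ico) measurable_const measurable_const

theorem gH_meas : Measurable gH := by
  unfold gH
  refine Measurable.ite (measurableSet_Ico) measurable_const ?_
  refine Measurable.ite (measurableSet_Ico) measurable_const ?_
  exact Measurable.ite (measurableSet_Ico) measurable_const measurable_const

theorem hH_bdd (s : ℝ) : |hH s| ≤ 1 := by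
  unfold hH
  split_ifs <;> simp

theorem gH_bdd (s : ℝ) : |gH s| ≤ 1 := by
  unfold gH
  split_ifs <;> simp

theorem sn_meas (m K : ℕ) (n : ℤ) : Measurable (sn m K n) := by
  unfold sn
  refine Finset.measurable_sum _ fun k _ => Finset.measurable_sum _ fun j _ => ?_
  refine Measurable.mul_const ?_ _
  refine Complex.measurable_ofReal.comp ?_
  refine Measurable.const_mul ?_ _
  exact gH_meas.comp (by fun_prop)

theorem sn_bdd (m K : ℕ) (n : ℤ) : ∃ M : ℝ, ∀ v, ‖sn m K n v‖ ≤ M := by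
  refine ⟨∑ k ∈ Finset.range K, ∑ j ∈ Finset.range (m * 2 ^ k),
    (m * 2 ^ k : ℝ) * ‖∫ y in Ico (0 : ℝ) 1, ((hH (m * 2 ^ k * y - j) : ℝ) : ℂ) * ex n y‖,
    fun v => ?_⟩
  unfold sn
  refine (norm_sum_le _ _).trans (Finset.sum_le_sum fun k _ => ?_)
  refine (norm_sum_le _ _).trans (Finset.sum_le_sum fun j _ => ?_)
  rw [norm_mul, Complex.norm_real, Real.norm_eq_abs, abs_mul, abs_of_nonneg (by positivity)]
  refine mul_le_mul_of_nonneg_right ?_ (norm_nonneg _)
  calc (m * 2 ^ k : ℝ) * |gH (m * 2 ^ k * v - j)| ≤ (m * 2 ^ k : ℝ) * 1 :=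
        mul_le_mul_of_nonneg_left (gH_bdd _) (by positivity)
    _ = _ := mul_one _

theorem mul_bdd_int {f : ℝ → ℝ} (hf : Measurable f) (hb : ∀ s, |f s| ≤ 1) (n : ℤ) :
    IntegrableOn (fun y => ((f y : ℝ) : ℂ) * ex n y) (Ico (0 : ℝ) 1) := by
  refine Integrable.mono' (g := fun _ => (1 : ℝ)) ?_ ?_ ?_
  · exact integrable_const _
  · exact ((Complex.measurable_ofReal.comp hf).mul (continuous_ex n).measurable).aestronglyMeasurable
  · refine ae_of_all _ fun y => ?_
    rw [norm_mul, norm_ex, mul_one, Complex.norm_real]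
    exact hb y

theorem lam_eq (m K : ℕ) (hm : 0 < m) (n : ℤ) :
    ∫ v in Ico (0 : ℝ) 1, ex (-n) v * sn m K n v =
      ∑ k ∈ Finset.range K, muH (n / (m * 2 ^ k)) := by
  unfold sn
  simp only [Finset.mul_sum]
  have hint : ∀ k j : ℕ, IntegrableOn (fun v => ex (-n) v *
      (((m * 2 ^ k * gH (m * 2 ^ k * v - j) : ℝ) : ℂ) *
      ∫ y in Ico (0 : ℝ) 1, ((hH (m * 2 ^ k * y - j) : ℝ) : ℂ) * ex n y)) (Ico (0 : ℝ) 1) := by
    intro k j
    have h1 := mul_bdd_int (f := fun v => gH (m * 2 ^ k * v - j)) (gH_meas.comp (by fun_prop))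
      (fun s => gH_bdd _) (-n)
    have h2 := (h1.const_mul ((m * 2 ^ k : ℝ) : ℂ)).mul_const
      (∫ y in Ico (0 : ℝ) 1, ((hH (m * 2 ^ k * y - j) : ℝ) : ℂ) * ex n y)
    refine h2.congr (ae_of_all _ fun v => ?_)
    beta_reduce
    push_cast
    ring
  rw [integral_finsetSum _ fun k _ => integrable_finsetSum _ fun j _ => hint k j]
  refine Finset.sum_congr rfl fun k _ => ?_
  rw [integral_finsetSum _ fun j _ => hint k j]
  have hN : (0 : ℝ) < m * 2 ^ k := by
    have : (0 : ℝ) < m := by exact_mod_cast hm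
    positivity
  have hNc : ((m * 2 ^ k : ℝ) : ℂ) ≠ 0 := by exact_mod_cast hN.ne'
  have h1 : ∀ j ∈ Finset.range (m * 2 ^ k), ∫ v in Ico (0 : ℝ) 1, ex (-n) v *
      (((m * 2 ^ k * gH (m * 2 ^ k * v - j) : ℝ) : ℂ) *
      ∫ y in Ico (0 : ℝ) 1, ((hH (m * 2 ^ k * y - j) : ℝ) : ℂ) * ex n y) =
      ((m * 2 ^ k : ℝ) : ℂ)⁻¹ * muH (n / (m * 2 ^ k)) := by
    intro j hj
    have hj' : (j : ℝ) + 1 ≤ m * 2 ^ k := by
      have := Finset.mem_range.1 hj
      exact_mod_cast this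
    have e1 : ∀ v, ex (-n) v * (((m * 2 ^ k * gH (m * 2 ^ k * v - j) : ℝ) : ℂ) *
        ∫ y in Ico (0 : ℝ) 1, ((hH (m * 2 ^ k * y - j) : ℝ) : ℂ) * ex n y) =
        (((m * 2 ^ k : ℝ) : ℂ) * ∫ y in Ico (0 : ℝ) 1, ((hH (m * 2 ^ k * y - j) : ℝ) : ℂ) * ex n y) *
        (((gH (m * 2 ^ k * v - j) : ℝ) : ℂ) * ex (-n) v) := by
      intro v
      push_cast
      ring
    simp only [e1]
    rw [integral_const_mul, coef hH hH_supp _ hN j hj' n, coef gH gH_supp _ hN j hj' (-n),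
      ← prod_hat]
    have e2 : (((-n : ℤ) : ℝ) / (m * 2 ^ k : ℝ)) = -((n : ℝ) / (m * 2 ^ k)) := by
      push_cast
      ring
    rw [e2]
    have e3 := EE_neg_mul ((n : ℝ) / (m * 2 ^ k)) j
    calc ((m * 2 ^ k : ℝ) : ℂ) * (((m * 2 ^ k : ℝ) : ℂ)⁻¹ * (EE ((n : ℝ) / (m * 2 ^ k)) j *
          ∫ s, ((hH s : ℝ) : ℂ) * EE ((n : ℝ) / (m * 2 ^ k)) s)) *
        (((m * 2 ^ k : ℝ) : ℂ)⁻¹ * (EE (-((n : ℝ) / (m * 2 ^ k))) j *
          ∫ s, ((gH s : ℝ) : ℂ) * EE (-((n : ℝ) / (m * 2 ^ k))) s))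
        = (((m * 2 ^ k : ℝ) : ℂ) * ((m * 2 ^ k : ℝ) : ℂ)⁻¹) * ((m * 2 ^ k : ℝ) : ℂ)⁻¹ *
          (EE ((n : ℝ) / (m * 2 ^ k)) j * EE (-((n : ℝ) / (m * 2 ^ k))) j) *
          ((∫ s, ((hH s : ℝ) : ℂ) * EE ((n : ℝ) / (m * 2 ^ k)) s) *
          ∫ s, ((gH s : ℝ) : ℂ) * EE (-((n : ℝ) / (m * 2 ^ k))) s) := by ring
      _ = _ := by
          rw [e3, mul_inv_cancel₀ hNc, one_mul, mul_one]
  rw [Finset.sum_congr rfl h1, Finset.sum_const, Finset.card_range, nsmul_eq_mul, ← mul_assoc]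
  have : (((m * 2 ^ k : ℕ) : ℂ)) = ((m * 2 ^ k : ℝ) : ℂ) := by
    push_cast
    rfl
  rw [this, mul_inv_cancel₀ hNc, one_mul]

section

variable {X : Type} [NormedAddCommGroup X] [NormedSpace ℂ X]

theorem Sh_ev [CompleteSpace X] (m K : ℕ) (d : ℤ →₀ X) (v : ℝ) :
    Sh m K (ev d) v = ∑ n ∈ d.support, sn m K n v • d n := by
  have h1 : ∀ k j : ℕ, ∫ y in Ico (0 : ℝ) 1, hH (m * 2 ^ k * y - j) • ev d y =
      ∑ n ∈ d.support, (∫ y in Ico (0 : ℝ) 1, ((hH (m * 2 ^ k * y - j) : ℝ) : ℂ) * ex n y) • d n := by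
    intro k j
    have h2 : ∀ y, hH (m * 2 ^ k * y - j) • ev d y =
        ∑ n ∈ d.support, (((hH (m * 2 ^ k * y - j) : ℝ) : ℂ) * ex n y) • d n := by
      intro y
      rw [← Complex.coe_smul, ev_sum d _ (Finset.Subset.refl _), Finset.smul_sum]
      refine Finset.sum_congr rfl fun n _ => ?_
      rw [smul_smul]
    simp only [h2]
    have h3 : ∀ n : ℤ, IntegrableOn (fun y => ((hH (m * 2 ^ k * y - j) : ℝ) : ℂ) * ex n y)
        (Ico (0 : ℝ) 1) := fun n =>
      mul_bdd_int (f := fun y => hH (m * 2 ^ k * y - j)) (hH_meas.comp (by fun_prop))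
        (fun s => hH_bdd _) n
    rw [integral_finsetSum]
    · refine Finset.sum_congr rfl fun n _ => ?_
      rw [integral_smul_const]
    · intro n _
      exact (h3 n).smul_const _
  unfold Sh sn
  simp only [h1]
  simp only [Finset.sum_smul]
  rw [Finset.sum_comm]
  refine Finset.sum_congr rfl fun k _ => ?_
  rw [Finset.sum_comm]
  refine Finset.sum_congr rfl fun j _ => ?_
  rw [← Complex.coe_smul, Finset.smul_sum]
  refine Finset.sum_congr rfl fun n _ => ?_
  rw [smul_smul]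

/-- translation of the frequencies' phases -/
noncomputable def tr (ω : ℝ) (c : ℤ →₀ X) : ℤ →₀ X := mulc (fun n => ex n ω) c

theorem ev_tr (ω : ℝ) (c : ℤ →₀ X) (y : ℝ) : ev (tr ω c) y = ev c (y + ω) := by
  unfold tr
  rw [ev_mulc, evm_sum _ c _ (Finset.Subset.refl _), ev_sum c _ (Finset.Subset.refl _)]
  refine Finset.sum_congr rfl fun n _ => ?_
  congr 1
  have h := ex_sub_arg n y (-ω)
  rw [sub_neg_eq_add] at h
  rw [h, ex_neg_arg, neg_neg, mul_comm]

theorem ev_per (c : ℤ →₀ X) (x : ℝ) : ev c (x + 1) = ev c x := by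
  rw [ev_eq_evm, ev_eq_evm, evm_per]

theorem Nn_tr {p : ℝ} (hp : 0 < p) (ω : ℝ) (c : ℤ →₀ X) : Nn p (ev (tr ω c)) = Nn p (ev c) := by
  rw [Nn_cont hp (ev_cont _), Nn_cont hp (ev_cont _)]
  congr 1
  simp only [ev_tr]
  have h1 := intervalIntegral.integral_comp_add_right (a := 0) (b := 1) (fun t => ‖ev c t‖ ^ p) ω
  rw [h1, zero_add]
  have hP : Function.Periodic (fun t => ‖ev c t‖ ^ p) 1 := fun t => by
    beta_reduce
    rw [ev_per]
  have h2 := hP.intervalIntegral_add_eq ω 0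
  rw [zero_add] at h2
  rw [add_comm 1 ω, h2]

/-- lower integrals of periodic functions -/
theorem lint_per (F : ℝ → ℝ≥0∞) (hF : Measurable F) (hper : ∀ x, F (x + 1) = F x) (ω : ℝ) :
    ∫⁻ x in Ico (0 : ℝ) 1, F (x - ω) = ∫⁻ x in Ico (0 : ℝ) 1, F x := by
  have h1 : ∫⁻ x in Ico (0 : ℝ) 1, F (x - ω) = ∫⁻ x in Ico (-ω) (-ω + 1), F x := by
    have h0 := lintegral_sub_right_eq_self (μ := volume)
      (fun x => (Ico (-ω) (-ω + 1)).indicator F x) ω
    rw [← lintegral_indicator measurableSet_Ico, ← lintegral_indicator measurableSet_Ico, ← h0]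
    refine lintegral_congr fun x => ?_
    by_cases h : x ∈ Ico (0 : ℝ) 1
    · rw [indicator_of_mem h, indicator_of_mem]
      exact ⟨by linarith [h.1], by linarith [h.2]⟩
    · rw [indicator_of_notMem h, indicator_of_notMem]
      intro h2
      exact h ⟨by linarith [h2.1], by linarith [h2.2]⟩
  rw [h1]
  have hinv : VAddInvariantMeasure (AddSubgroup.zmultiples (1 : ℝ)) ℝ volume :=
    ⟨fun c s _ => measure_preimage_add _ _ _⟩
  have h2 : ∫⁻ x in Ioc (-ω) (-ω + 1), F x = ∫⁻ x in Ioc (0 : ℝ) (0 + 1), F x := by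
    refine IsAddFundamentalDomain.setLIntegral_eq (G := AddSubgroup.zmultiples (1 : ℝ))
      (isAddFundamentalDomain_Ioc one_pos (-ω)) (isAddFundamentalDomain_Ioc one_pos 0) F ?_
    have hP : Function.Periodic F 1 := hper
    exact hP.map_vadd_zmultiples
  have h3 : ∀ a b : ℝ, ∫⁻ x in Ico a b, F x = ∫⁻ x in Ioc a b, F x := by
    intro a b
    refine setLIntegral_congr ?_
    exact Ico_ae_eq_Ioc
  rw [h3, h2, h3, zero_add]

theorem rep_coeff (m K : ℕ) (hm : 0 < m) (n : ℤ) (x : ℝ) :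
    ∫ ω in Ico (0 : ℝ) 1, ex n ω * sn m K n (Int.fract (x - ω)) =
      (∑ k ∈ Finset.range K, muH (n / (m * 2 ^ k))) * ex n x := by
  set P : ℝ → ℂ := fun u => ex (-n) u * sn m K n (Int.fract u) with hP
  have hper : Function.Periodic P 1 := by
    intro u
    simp only [hP]
    rw [ex_add_one, Int.fract_add_one]
  have h1 : ∀ ω, ex n ω * sn m K n (Int.fract (x - ω)) = ex n x * P (x - ω) := by
    intro ω
    simp only [hP]
    have h2 := ex_sub_arg (-n) x ω
    rw [neg_neg] at h2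
    rw [h2]
    have h3 : ex n x * ex (-n) x = 1 := by
      rw [← ex_add, add_neg_cancel, ex_zero]
    calc ex n ω * sn m K n (Int.fract (x - ω))
        = (ex n x * ex (-n) x) * (ex n ω * sn m K n (Int.fract (x - ω))) := by rw [h3, one_mul]
      _ = _ := by ring
  simp only [h1]
  rw [integral_const_mul, mul_comm]
  congr 1
  rw [← lam_eq m K hm n, integral_Ico_eq_integral_Ioo, ← integral_Ioc_eq_integral_Ioo,
    ← intervalIntegral.integral_of_le zero_le_one,
    intervalIntegral.integral_comp_sub_left (fun u => P u) x, sub_zero]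
  have h2 := hper.intervalIntegral_add_eq (x - 1) 0
  rw [sub_add_cancel, zero_add] at h2
  rw [h2, intervalIntegral.integral_of_le zero_le_one, integral_Ioc_eq_integral_Ioo,
    ← integral_Ico_eq_integral_Ioo]
  refine setIntegral_congr_fun measurableSet_Ico fun v hv => ?_
  simp only [hP]
  rw [Int.fract_eq_self.2 ⟨hv.1, hv.2⟩]

end

theorem avg : S_AVG := by
  intro X _ _ _ p B m K hp hm hB c
  have hp0 : 0 < p := by linarith
  -- the operator applied to the translates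
  set Q : ℝ → ℝ → X := fun ω v => Sh m K (ev (tr ω c)) v with hQ
  have hQ1 : ∀ ω v, Q ω v = ∑ n ∈ c.support, (ex n ω * sn m K n v) • c n := by
    intro ω v
    simp only [hQ]
    rw [Sh_ev]
    have h1 : (tr ω c).support ⊆ c.support := by
      intro n hn
      rw [Finsupp.mem_support_iff] at hn ⊢
      intro h
      apply hn
      unfold tr
      rw [mulc_apply, h, smul_zero]
    rw [Finset.sum_subset h1]
    · refine Finset.sum_congr rfl fun n _ => ?_
      unfold tr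
      rw [mulc_apply, smul_smul, mul_comm]
    · intro n _ hn
      rw [Finsupp.notMem_support_iff.1 hn, smul_zero]
  have hQm : Measurable fun z : ℝ × ℝ => ‖Q z.1 z.2‖ₑ := by
    simp only [hQ1]
    have : StronglyMeasurable fun z : ℝ × ℝ => ∑ n ∈ c.support, (ex n z.1 * sn m K n z.2) • c n := by
      refine Finset.stronglyMeasurable_fun_sum _ fun n _ => ?_
      refine StronglyMeasurable.smul_const ?_ _
      exact (((continuous_ex n).measurable.comp measurable_fst).mul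
        ((sn_meas m K n).comp measurable_snd)).stronglyMeasurable
    exact this.enorm
  have hQN : ∀ ω, Nn p (Q ω) ≤ (B : ℝ≥0∞) ^ p * Nn p (ev c) := by
    intro ω
    rw [← Nn_tr hp0 ω c]
    exact hB (ev (tr ω c)) (ev_BM _)
  clear_value Q
  have hQm2 : ∀ φ ψ : ℝ → ℝ, Measurable φ → Measurable ψ → Measurable fun ω => ‖Q (φ ω) (ψ ω)‖ₑ := by
    intro φ ψ hφ hψ
    exact hQm.comp (hφ.prodMk hψ)
  have hfr : Measurable fun z : ℝ × ℝ => Int.fract (z.1 - z.2) :=
    measurable_fract.comp (measurable_fst.sub measurable_snd)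
  have hQm3 : Measurable fun z : ℝ × ℝ => ‖Q z.2 (Int.fract (z.1 - z.2))‖ₑ := by
    exact hQm.comp (measurable_snd.prodMk hfr)
  -- representation
  set lam : ℤ → ℂ := fun n => ∑ k ∈ Finset.range K, muH (n / (m * 2 ^ k)) with hlam
  have hint : ∀ (x : ℝ) (n : ℤ),
      IntegrableOn (fun ω => ex n ω * sn m K n (Int.fract (x - ω))) (Ico (0 : ℝ) 1) := by
    intro x n
    obtain ⟨M, hM⟩ := sn_bdd m K n
    refine Integrable.mono' (g := fun _ => M) (integrable_const _) ?_ ?_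
    · refine Measurable.aestronglyMeasurable ?_
      refine (continuous_ex n).measurable.mul ((sn_meas m K n).comp ?_)
      exact measurable_fract.comp (measurable_const.sub measurable_id)
    · refine ae_of_all _ fun ω => ?_
      rw [norm_mul, norm_ex, one_mul]
      exact hM _
  have hrep : ∀ x, evm lam c x = ∫ ω in Ico (0 : ℝ) 1, Q ω (Int.fract (x - ω)) := by
    intro x
    simp only [hQ1]
    rw [integral_finsetSum _ fun n _ => (hint x n).smul_const _, evm_sum lam c _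
      (Finset.Subset.refl _)]
    refine Finset.sum_congr rfl fun n _ => ?_
    rw [integral_smul_const, rep_coeff m K hm]
  -- Jensen
  have h1 : ∀ x, ‖evm lam c x‖ₑ ^ p ≤
      ∫⁻ ω in Ico (0 : ℝ) 1, ‖Q ω (Int.fract (x - ω))‖ₑ ^ p := by
    intro x
    have h2 : ‖evm lam c x‖ₑ ≤ ∫⁻ ω in Ico (0 : ℝ) 1, 1 * ‖Q ω (Int.fract (x - ω))‖ₑ := by
      rw [hrep]
      refine (enorm_integral_le_lintegral_enorm _).trans (le_of_eq ?_)
      refine lintegral_congr fun ω => ?_
      rw [one_mul]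
    refine (ENNReal.rpow_le_rpow h2 hp0.le).trans ?_
    have hm2 : Measurable fun ω : ℝ => ‖Q ω (Int.fract (x - ω))‖ₑ :=
      hQm2 (fun ω => ω) (fun ω => Int.fract (x - ω)) measurable_id
        (measurable_fract.comp (measurable_const.sub measurable_id))
    have h3 := jensen_w (μ := volume.restrict (Ico (0 : ℝ) 1)) hp (k := fun _ => 1)
      (f := fun ω : ℝ => ‖Q ω (Int.fract (x - ω))‖ₑ) measurable_const hm2 (by
        rw [setLIntegral_const, Real.volume_Ico]
        norm_num)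
    refine h3.trans (le_of_eq (lintegral_congr fun ω => ?_))
    beta_reduce
    rw [one_mul]
  calc Nn p (evm lam c)
      ≤ ∫⁻ x in Ico (0 : ℝ) 1, ∫⁻ ω in Ico (0 : ℝ) 1, ‖Q ω (Int.fract (x - ω))‖ₑ ^ p :=
        lintegral_mono h1
    _ = ∫⁻ ω in Ico (0 : ℝ) 1, ∫⁻ x in Ico (0 : ℝ) 1, ‖Q ω (Int.fract (x - ω))‖ₑ ^ p := by
        rw [lintegral_lintegral_swap]
        exact (hQm3.pow_const p).aemeasurable
    _ = ∫⁻ ω in Ico (0 : ℝ) 1, Nn p (Q ω) := by
        refine lintegral_congr fun ω => ?_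
        have hm3 : Measurable fun v : ℝ => ‖Q ω v‖ₑ ^ p :=
          (hQm2 (fun _ => ω) (fun v => v) measurable_const measurable_id).pow_const _
        have h2 := lint_per (fun v => ‖Q ω (Int.fract v)‖ₑ ^ p) (hm3.comp measurable_fract)
          (fun v => by rw [Int.fract_add_one]) ω
        rw [h2]
        unfold Nn
        refine setLIntegral_congr_fun measurableSet_Ico fun v hv => ?_
        beta_reduce
        rw [Int.fract_eq_self.2 ⟨hv.1, hv.2⟩]
    _ ≤ ∫⁻ ω in Ico (0 : ℝ) 1, (B : ℝ≥0∞) ^ p * Nn p (ev c) := by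
        exact lintegral_mono fun ω => hQN ω
    _ = (B : ℝ≥0∞) ^ p * Nn p (ev c) := by
        rw [setLIntegral_const, Real.volume_Ico]
        norm_num

end Pool.Agent.Q82.LQ
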