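import Pool.Agent.Q298.LQ.I1

/-! Project LQ: layer cake for the two cut-offs. -/

set_option autoImplicit false

namespace Pool.Agent.Q82.LQ

open MeasureTheory Set Filter Topology Pool.Agent.Q298.LQ
open scoped ENNReal NNReal

/-- geometric series for the other side -/
theorem geoL (s : ℝ) (hs : 0 < s) : ∃ C : ℝ≥0, ∀ t : ℝ≥0, 0 < t →
    ∑' j : ℤ, (if t ≤ (2 : ℝ≥0) ^ j then w2 j (-s) else 0) ≤ C * (t : ℝ≥0∞) ^ (-s) := by
  obtain ⟨C, hC⟩ := geo s hs
  have h2 : (2 : ℝ≥0∞) ^ s ≠ ⊤ := ENNReal.rpow_ne_top_of_ne_zero two_ne_zero ENNReal.ofNat_ne_top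
  refine ⟨C * ((2 : ℝ≥0∞) ^ s).toNNReal, fun t ht => ?_⟩
  rw [ENNReal.coe_mul, ENNReal.coe_toNNReal h2]
  have h1 := hC (2 * t⁻¹)
  have h3 : ((2 * t⁻¹ : ℝ≥0) : ℝ≥0∞) ^ s = (2 : ℝ≥0∞) ^ s * (t : ℝ≥0∞) ^ (-s) := by
    rw [ENNReal.coe_mul, ENNReal.mul_rpow_of_nonneg _ _ hs.le, ENNReal.coe_inv ht.ne',
      ENNReal.inv_rpow, ← ENNReal.rpow_neg]
    rfl
  rw [h3, ← mul_assoc] at h1
  refine le_trans ?_ h1
  rw [← (Equiv.neg ℤ).tsum_eq]
  refine ENNReal.tsum_le_tsum fun j => ?_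
  rw [Equiv.neg_apply]
  split_ifs with h4 h5
  · refine le_of_eq ?_
    unfold w2
    congr 1
    push_cast
    ring
  · exfalso
    apply h5
    have h6 : (2 : ℝ≥0) ^ j ≤ t⁻¹ := by
      rw [zpow_neg] at h4
      rwa [← le_inv_comm₀ ht (zpow_pos two_pos _)]
    have h7 : t⁻¹ < 2 * t⁻¹ := by
      have : 0 < t⁻¹ := inv_pos.2 ht
      rw [two_mul]
      exact lt_add_of_pos_left _ this
    exact lt_of_le_of_lt h6 h7
  · exact bot_le
  · exact bot_le

theorem cut : S_CUT := by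
  intro X _ _ _ p r hp hr
  have key : ∀ (c : ℤ → (ℝ → X) → ℝ → X), (∀ j g, BM g → BM (c j g)) →
      (∃ C : ℝ≥0, ∀ g : ℝ → X, BM g → ∀ x, ∑' j : ℤ, w2 j (r - p) * ‖c j g x‖ₑ ^ p
        ≤ C * ‖g x‖ₑ ^ r) →
      ∃ C : ℝ≥0, ∀ g : ℝ → X, BM g → ∑' j : ℤ, w2 j (r - p) * Nn p (c j g) ≤ C * Nn r g := by
    rintro c hc ⟨C, hC⟩
    refine ⟨C, fun g hg => ?_⟩
    have hm : ∀ j : ℤ, Measurable fun x => w2 j (r - p) * ‖c j g x‖ₑ ^ p := fun j =>
      ((hc j g hg).1.enorm.pow_const _).const_mul _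
    calc ∑' j : ℤ, w2 j (r - p) * Nn p (c j g)
        = ∫⁻ x in Ico (0 : ℝ) 1, ∑' j : ℤ, w2 j (r - p) * ‖c j g x‖ₑ ^ p := by
          rw [lintegral_tsum fun j => (hm j).aemeasurable]
          refine tsum_congr fun j => ?_
          unfold Nn
          rw [lintegral_const_mul' _ _ (w2_ne_top _ _)]
      _ ≤ ∫⁻ x in Ico (0 : ℝ) 1, C * ‖g x‖ₑ ^ r := lintegral_mono fun x => hC g hg x
      _ = C * Nn r g := by
          unfold Nn
          rw [lintegral_const_mul' _ _ ENNReal.coe_ne_top]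
  have hlt : ∀ (g : ℝ → X) (x : ℝ) (j : ℤ), (2 : ℝ≥0) ^ j < ‖g x‖₊ ↔ ¬ ‖g x‖ ≤ (2 : ℝ) ^ j := by
    intro g x j
    rw [not_le, ← NNReal.coe_lt_coe, NNReal.coe_zpow, coe_nnnorm]
    rfl
  have h1 : ∃ C : ℝ≥0, ∀ g : ℝ → X, BM g → (r < p →
      ∑' j : ℤ, w2 j (r - p) * Nn p (cutL j g) ≤ C * Nn r g) := by
    by_cases hrp : r < p
    · obtain ⟨C, hC⟩ := key (fun j g => cutL j g) (fun j g hg => cutL_BM hg j) (by
        obtain ⟨C, hC⟩ := geoL (p - r) (by linarith)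
        refine ⟨C, fun g hg x => ?_⟩
        rcases eq_or_ne (g x) 0 with h0 | h0
        · have : ∀ j : ℤ, w2 j (r - p) * ‖cutL j g x‖ₑ ^ p = 0 := by
            intro j
            have : cutL j g x = 0 := by
              unfold cutL
              split_ifs
              · exact h0
              · rfl
            rw [this, enorm_zero, ENNReal.zero_rpow_of_pos (by linarith), mul_zero]
          simp only [this, tsum_zero]
          exact bot_le
        · have hx : 0 < ‖g x‖₊ := by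
            rw [pos_iff_ne_zero]
            exact nnnorm_ne_zero_iff.2 h0
          have h1 : ∀ j : ℤ, w2 j (r - p) * ‖cutL j g x‖ₑ ^ p =
              ‖g x‖ₑ ^ p * (if ‖g x‖₊ ≤ (2 : ℝ≥0) ^ j then w2 j (-(p - r)) else 0) := by
            intro j
            unfold cutL
            by_cases h : ‖g x‖ ≤ (2 : ℝ) ^ j
            · have h2 : ‖g x‖₊ ≤ (2 : ℝ≥0) ^ j := by
                by_contra hc
                exact (hlt g x j).1 (not_le.1 hc) h
              rw [if_pos h, if_pos h2, mul_comm, neg_sub]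
            · have h2 : ¬ ‖g x‖₊ ≤ (2 : ℝ≥0) ^ j := not_le.2 ((hlt g x j).2 h)
              rw [if_neg h, if_neg h2, enorm_zero, ENNReal.zero_rpow_of_pos (by linarith),
                mul_zero, mul_zero]
          simp only [h1]
          rw [ENNReal.tsum_mul_left]
          refine (mul_le_mul_right (hC _ hx) _).trans (le_of_eq ?_)
          have h3 : ‖g x‖ₑ ≠ 0 := enorm_ne_zero.2 h0
          have h4 : (‖g x‖₊ : ℝ≥0∞) = ‖g x‖ₑ := rfl
          rw [h4, mul_comm, mul_assoc, ← ENNReal.rpow_add _ _ h3 enorm_ne_top]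
          congr 2
          ring)
      exact ⟨C, fun g hg _ => hC g hg⟩
    · exact ⟨0, fun g hg h => absurd h hrp⟩
  have h2 : ∃ C : ℝ≥0, ∀ g : ℝ → X, BM g → (p < r →
      ∑' j : ℤ, w2 j (r - p) * Nn p (cutU j g) ≤ C * Nn r g) := by
    by_cases hrp : p < r
    · obtain ⟨C, hC⟩ := key (fun j g => cutU j g) (fun j g hg => cutU_BM hg j) (by
        obtain ⟨C, hC⟩ := geo (r - p) (by linarith)
        refine ⟨C, fun g hg x => ?_⟩
        have h1 : ∀ j : ℤ, w2 j (r - p) * ‖cutU j g x‖ₑ ^ p =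
            ‖g x‖ₑ ^ p * (if (2 : ℝ≥0) ^ j < ‖g x‖₊ then w2 j (r - p) else 0) := by
          intro j
          unfold cutU
          by_cases h : ‖g x‖ ≤ (2 : ℝ) ^ j
          · rw [if_pos h, if_neg (fun h3 => (hlt g x j).1 h3 h), enorm_zero,
              ENNReal.zero_rpow_of_pos (by linarith), mul_zero, mul_zero]
          · rw [if_neg h, if_pos ((hlt g x j).2 h), mul_comm]
        simp only [h1]
        rw [ENNReal.tsum_mul_left]
        refine (mul_le_mul_right (hC ‖g x‖₊) _).trans (le_of_eq ?_)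
        have h4 : (‖g x‖₊ : ℝ≥0∞) = ‖g x‖ₑ := rfl
        rw [h4, mul_comm, mul_assoc, ← ENNReal.rpow_add_of_nonneg _ _ (by linarith) (by linarith)]
        congr 2
        ring)
      exact ⟨C, fun g hg _ => hC g hg⟩
    · exact ⟨0, fun g hg h => absurd h hrp⟩
  obtain ⟨C₁, hC₁⟩ := h1
  obtain ⟨C₂, hC₂⟩ := h2
  refine ⟨max C₁ C₂, fun g hg => ⟨fun h => (hC₁ g hg h).trans ?_, fun h => (hC₂ g hg h).trans ?_⟩⟩
  · exact mul_le_mul_left (ENNReal.coe_le_coe.2 (le_max_left _ _)) _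
  · exact mul_le_mul_left (ENNReal.coe_le_coe.2 (le_max_right _ _)) _

end Pool.Agent.Q82.LQ
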