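import Pool.Agent.Q82.LQ.Red

/-! Project LQ: Fejer means. -/

set_option autoImplicit false

namespace Pool.Agent.Q82.LQ

open MeasureTheory Set Filter Topology Pool.Agent.Q298.LQ
open scoped ENNReal NNReal

/-- Jensen with a weight -/
theorem jensen_w {α : Type} [MeasurableSpace α] {μ : Measure α} {p : ℝ} (hp : 1 < p)
    {k f : α → ℝ≥0∞} (hk : Measurable k) (hf : Measurable f) (h1 : ∫⁻ x, k x ∂μ = 1) :
    (∫⁻ x, k x * f x ∂μ) ^ p ≤ ∫⁻ x, k x * f x ^ p ∂μ := by
  have hpq : p.HolderConjugate (cj p) := by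
    have := Real.HolderConjugate.conjExponent hp
    exact this
  have hp0 : 0 < p := by linarith
  have hq0 : 0 < cj p := hpq.symm.pos
  have h2 := ENNReal.lintegral_mul_le_Lp_mul_Lq μ hpq (f := fun x => k x ^ (1 / p) * f x)
    (g := fun x => k x ^ (1 / cj p)) (by fun_prop) (by fun_prop)
  have h3 : ∀ x, ((fun x => k x ^ (1 / p) * f x) * fun x => k x ^ (1 / cj p)) x = k x * f x := by
    intro x
    simp only [Pi.mul_apply]
    have : k x ^ (1 / p) * k x ^ (1 / cj p) = k x := by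
      rw [← ENNReal.rpow_add_of_nonneg _ _ (by positivity) (by positivity)]
      have : 1 / p + 1 / cj p = 1 := by
        have := hpq.inv_add_inv_eq_one
        simpa [one_div] using this
      rw [this, ENNReal.rpow_one]
    calc k x ^ (1 / p) * f x * k x ^ (1 / cj p) = k x ^ (1 / p) * k x ^ (1 / cj p) * f x := by ring
      _ = _ := by rw [this]
  rw [lintegral_congr h3] at h2
  have h4 : ∀ x, (k x ^ (1 / cj p)) ^ cj p = k x := by
    intro x
    rw [← ENNReal.rpow_mul, one_div_mul_cancel hq0.ne', ENNReal.rpow_one]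
  have h5 : ∀ x, (k x ^ (1 / p) * f x) ^ p = k x * f x ^ p := by
    intro x
    rw [ENNReal.mul_rpow_of_nonneg _ _ hp0.le, ← ENNReal.rpow_mul, one_div_mul_cancel hp0.ne',
      ENNReal.rpow_one]
  simp only [h4, h5, h1, ENNReal.one_rpow, mul_one] at h2
  have h6 := ENNReal.rpow_le_rpow h2 hp0.le
  rwa [← ENNReal.rpow_mul, one_div_mul_cancel hp0.ne', ENNReal.rpow_one] at h6

/-- the Fejer kernel -/
noncomputable def FK (m : ℕ) (x : ℝ) : ℂ :=
  ∑ jk ∈ Finset.range m ×ˢ Finset.range m, ((m : ℂ)⁻¹) * ex ((jk.1 : ℤ) - jk.2) x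

/-- its real form -/
noncomputable def kF (m : ℕ) (x : ℝ) : ℝ := ‖∑ j ∈ Finset.range m, ex (j : ℤ) x‖ ^ 2 / m

theorem ex_conj (n : ℤ) (x : ℝ) : (starRingEnd ℂ) (ex n x) = ex (-n) x := by
  unfold ex
  rw [← Complex.exp_conj]
  congr 1
  simp only [map_mul, Complex.conj_ofReal, Complex.conj_I]
  have h1 : (starRingEnd ℂ) (2 : ℂ) = 2 := Complex.conj_ofNat 2
  have h2 : (starRingEnd ℂ) (n : ℂ) = n := by
    exact_mod_cast Complex.conj_ofReal (n : ℝ)
  rw [h1, h2]
  push_cast
  ring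

theorem FK_eq (m : ℕ) (x : ℝ) : FK m x = (kF m x : ℂ) := by
  unfold FK kF
  rw [← Finset.mul_sum]
  push_cast
  rw [← Complex.mul_conj', map_sum, Finset.sum_mul_sum, Finset.sum_product, div_eq_inv_mul]
  congr 1
  refine Finset.sum_congr rfl fun j _ => Finset.sum_congr rfl fun k _ => ?_
  rw [ex_conj, ← ex_add, sub_eq_add_neg]

theorem kF_nonneg (m : ℕ) (x : ℝ) : 0 ≤ kF m x := by
  unfold kF
  positivity

theorem kF_cont (m : ℕ) : Continuous (kF m) := by
  unfold kF
  exact ((continuous_finsetSum _ fun j _ => continuous_ex _).norm.pow 2).div_const _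

theorem sum_diag (m : ℕ) (F : ℤ → ℂ) :
    ∑ jk ∈ Finset.range m ×ˢ Finset.range m, (if (jk.1 : ℤ) - jk.2 = 0 then F ((jk.1 : ℤ) - jk.2) else 0)
      = m * F 0 := by
  rw [Finset.sum_product]
  have : ∀ j ∈ Finset.range m, ∑ k ∈ Finset.range m, (if (j : ℤ) - k = 0 then F ((j : ℤ) - k) else 0)
      = F 0 := by
    intro j hj
    rw [Finset.sum_eq_single j]
    · simp
    · intro k _ hk
      rw [if_neg]
      intro h
      apply hk
      omega
    · intro h
      exact absurd hj h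
  rw [Finset.sum_congr rfl this, Finset.sum_const, Finset.card_range, nsmul_eq_mul]

theorem integral_FK_gen (m : ℕ) (hm : 0 < m) (w : ℤ → ℂ) (hw : w 0 = 1) (e : ℤ → ℤ)
    (he : ∀ n, e n = 0 ↔ n = 0) :
    ∫ y in Ico (0 : ℝ) 1, ∑ jk ∈ Finset.range m ×ˢ Finset.range m,
      ((m : ℂ)⁻¹) * (w ((jk.1 : ℤ) - jk.2) * ex (e ((jk.1 : ℤ) - jk.2)) y) = 1 := by
  rw [integral_finsetSum]
  · have h1 : ∀ n : ℤ, ∫ y in Ico (0 : ℝ) 1, ((m : ℂ)⁻¹) * (w n * ex (e n) y) =
        if n = 0 then (m : ℂ)⁻¹ else 0 := by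
      intro n
      rw [integral_const_mul, integral_const_mul, integral_ex]
      by_cases h : n = 0
      · rw [if_pos ((he n).2 h), if_pos h, h, hw, one_mul, mul_one]
      · rw [if_neg (fun h2 => h ((he n).1 h2)), if_neg h, mul_zero, mul_zero]
    simp only [h1]
    have h2 := sum_diag m (fun _ => (m : ℂ)⁻¹)
    rw [h2, mul_inv_cancel₀]
    exact_mod_cast hm.ne'
  · intro jk _
    have hc : Continuous fun y => ((m : ℂ)⁻¹) * (w ((jk.1 : ℤ) - jk.2) * ex (e ((jk.1 : ℤ) - jk.2)) y) :=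
      continuous_const.mul (continuous_const.mul (continuous_ex _))
    exact (hc.integrableOn_Icc (a := 0) (b := 1)).mono_set Ico_subset_Icc_self

theorem integral_kF_y (m : ℕ) (hm : 0 < m) (x : ℝ) : ∫ y in Ico (0 : ℝ) 1, kF m (x - y) = 1 := by
  have h1 : ((∫ y in Ico (0 : ℝ) 1, kF m (x - y) : ℝ) : ℂ) = 1 := by
    rw [← integral_complex_ofReal]
    have h2 : ∀ y, ((kF m (x - y) : ℝ) : ℂ) = ∑ jk ∈ Finset.range m ×ˢ Finset.range m,
        ((m : ℂ)⁻¹) * (ex ((jk.1 : ℤ) - jk.2) x * ex (-((jk.1 : ℤ) - jk.2)) y) := by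
      intro y
      rw [← FK_eq]
      unfold FK
      refine Finset.sum_congr rfl fun jk _ => ?_
      rw [ex_sub_arg]
    simp only [h2]
    exact integral_FK_gen m hm (fun n => ex n x) (ex_zero x) (fun n => -n) (fun n => by
      constructor <;> intro h <;> omega)
  exact_mod_cast h1

theorem integral_kF_x (m : ℕ) (hm : 0 < m) (y : ℝ) : ∫ x in Ico (0 : ℝ) 1, kF m (x - y) = 1 := by
  have h1 : ((∫ x in Ico (0 : ℝ) 1, kF m (x - y) : ℝ) : ℂ) = 1 := by
    rw [← integral_complex_ofReal]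
    have h2 : ∀ x, ((kF m (x - y) : ℝ) : ℂ) = ∑ jk ∈ Finset.range m ×ˢ Finset.range m,
        ((m : ℂ)⁻¹) * (ex (-((jk.1 : ℤ) - jk.2)) y * ex ((jk.1 : ℤ) - jk.2) x) := by
      intro x
      rw [← FK_eq]
      unfold FK
      refine Finset.sum_congr rfl fun jk _ => ?_
      rw [ex_sub_arg, mul_comm (ex _ x)]
    simp only [h2]
    exact integral_FK_gen m hm (fun n => ex (-n) y) (by rw [neg_zero]; exact ex_zero y) (fun n => n)
      (fun n => Iff.rfl)
  exact_mod_cast h1

theorem lintegral_kF (m : ℕ) (φ : ℝ → ℝ) (hφ : Continuous φ)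
    (h : ∫ y in Ico (0 : ℝ) 1, kF m (φ y) = 1) :
    ∫⁻ y in Ico (0 : ℝ) 1, ENNReal.ofReal (kF m (φ y)) = 1 := by
  rw [← ofReal_integral_eq_lintegral_ofReal, h, ENNReal.ofReal_one]
  · exact (((kF_cont m).comp hφ).integrableOn_Icc (a := 0) (b := 1)).mono_set Ico_subset_Icc_self
  · exact ae_of_all _ fun y => kF_nonneg _ _

section

variable {X : Type} [NormedAddCommGroup X] [NormedSpace ℂ X]

theorem Nn_fejer {p : ℝ} (hp : 1 < p) (m : ℕ) (hm : 0 < m) {g : ℝ → X} (hg : BM g) :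
    Nn p (cv (FK m) g) ≤ Nn p g := by
  have hkm : Measurable fun z : ℝ × ℝ => ENNReal.ofReal (kF m (z.1 - z.2)) :=
    ((kF_cont m).comp (continuous_fst.sub continuous_snd)).measurable.ennreal_ofReal
  have hgm : Measurable fun y => ‖g y‖ₑ := hg.1.enorm
  have h1 : ∀ x, ‖cv (FK m) g x‖ₑ ^ p ≤
      ∫⁻ y in Ico (0 : ℝ) 1, ENNReal.ofReal (kF m (x - y)) * ‖g y‖ₑ ^ p := by
    intro x
    have h2 : ‖cv (FK m) g x‖ₑ ≤ ∫⁻ y in Ico (0 : ℝ) 1, ENNReal.ofReal (kF m (x - y)) * ‖g y‖ₑ := by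
      unfold cv
      refine (enorm_integral_le_lintegral_enorm _).trans (le_of_eq ?_)
      refine lintegral_congr fun y => ?_
      rw [enorm_smul, FK_eq, ← ofReal_norm_eq_enorm, Complex.norm_real, Real.norm_of_nonneg
        (kF_nonneg _ _)]
    refine (ENNReal.rpow_le_rpow h2 (by linarith)).trans ?_
    refine jensen_w hp ?_ hgm ?_
    · exact ((kF_cont m).comp (continuous_const.sub continuous_id)).measurable.ennreal_ofReal
    · exact lintegral_kF m _ (continuous_const.sub continuous_id) (integral_kF_y m hm x)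
  unfold Nn
  refine (lintegral_mono h1).trans ?_
  rw [lintegral_lintegral_swap]
  · refine le_of_eq (lintegral_congr fun y => ?_)
    rw [lintegral_mul_const, lintegral_kF m (fun x => x - y) (continuous_id.sub continuous_const)
      (integral_kF_x m hm y), one_mul]
    exact ((kF_cont m).comp (continuous_id.sub continuous_const)).measurable.ennreal_ofReal
  · exact (hkm.mul ((hgm.pow_const _).comp measurable_snd)).aemeasurable

/-- coefficients of the Fejer means -/
noncomputable def cF (m : ℕ) (g : ℝ → X) : ℤ →₀ X :=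
  ∑ jk ∈ Finset.range m ×ˢ Finset.range m,
    Finsupp.single ((jk.1 : ℤ) - jk.2) (((m : ℂ)⁻¹) • fc g ((jk.1 : ℤ) - jk.2))

theorem ev_cF (m : ℕ) {g : ℝ → X} (hg : BM g) (x : ℝ) : ev (cF m g) x = cv (FK m) g x := by
  unfold cF
  rw [ev_finset_sum]
  have h := cv_trig (Finset.range m ×ˢ Finset.range m) (fun _ => ((m : ℂ)⁻¹))
    (fun jk => (jk.1 : ℤ) - jk.2) hg x
  have h2 : (fun x => ∑ j ∈ Finset.range m ×ˢ Finset.range m, (m : ℂ)⁻¹ * ex ((j.1 : ℤ) - j.2) x)
      = FK m := rfl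
  rw [h2] at h
  rw [h]
  refine Finset.sum_congr rfl fun jk _ => ?_
  rw [ev_single, smul_smul, mul_comm]

theorem Nn_cF {p : ℝ} (hp : 1 < p) (m : ℕ) (hm : 0 < m) {g : ℝ → X} (hg : BM g) :
    Nn p (ev (cF m g)) ≤ Nn p g := by
  have : ev (cF m g) = cv (FK m) g := by
    funext x
    exact ev_cF m hg x
  rw [this]
  exact Nn_fejer hp m hm hg

/-- number of representations as a difference -/
def dcard (m : ℕ) (n : ℤ) : ℕ :=
  ((Finset.range m ×ˢ Finset.range m).filter (fun jk => (jk.1 : ℤ) - jk.2 = n)).card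

theorem dcard_le (m : ℕ) (n : ℤ) : dcard m n ≤ m := by
  unfold dcard
  have : (Finset.range m).card = m := Finset.card_range m
  conv_rhs => rw [← this]
  refine Finset.card_le_card_of_injOn (fun jk => jk.1) ?_ ?_
  · intro jk hjk
    have := (Finset.mem_filter.1 (Finset.mem_coe.1 hjk)).1
    exact (Finset.mem_product.1 this).1
  · intro jk hjk jk' hjk' h
    have h1 := (Finset.mem_filter.1 (Finset.mem_coe.1 hjk)).2
    have h2 := (Finset.mem_filter.1 (Finset.mem_coe.1 hjk')).2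
    simp only at h
    ext
    · exact h
    · omega

theorem le_dcard (m : ℕ) (n : ℤ) : m ≤ dcard m n + n.natAbs := by
  unfold dcard
  have h : (Finset.range (m - n.natAbs)).card ≤
      ((Finset.range m ×ˢ Finset.range m).filter (fun jk => (jk.1 : ℤ) - jk.2 = n)).card := by
    refine Finset.card_le_card_of_injOn (fun i => (i + n.toNat, i + (-n).toNat)) ?_ ?_
    · intro i hi
      have hi' : i < m - n.natAbs := Finset.mem_range.1 (Finset.mem_coe.1 hi)
      rw [Finset.mem_coe, Finset.mem_filter, Finset.mem_product, Finset.mem_range, Finset.mem_range]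
      simp only
      omega
    · intro i _ j _ h
      have := congrArg Prod.fst h
      simp only at this
      omega
  rw [Finset.card_range] at h
  omega

theorem cF_apply (m : ℕ) (g : ℝ → X) (n : ℤ) :
    cF m g n = ((dcard m n / m : ℝ) : ℂ) • fc g n := by
  unfold cF dcard
  rw [Finsupp.finsetSum_apply]
  simp only [Finsupp.single_apply]
  rw [← Finset.sum_filter]
  have : ∀ jk ∈ (Finset.range m ×ˢ Finset.range m).filter (fun jk => (jk.1 : ℤ) - jk.2 = n),
      (m : ℂ)⁻¹ • fc g ((jk.1 : ℤ) - jk.2) = (m : ℂ)⁻¹ • fc g n := by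
    intro jk hjk
    rw [(Finset.mem_filter.1 hjk).2]
  rw [Finset.sum_congr rfl this, Finset.sum_const, ← Nat.cast_smul_eq_nsmul ℂ, smul_smul]
  push_cast
  rfl

theorem cF_tendsto (g : ℝ → X) (n : ℤ) : Tendsto (fun m => cF m g n) atTop (𝓝 (fc g n)) := by
  simp only [cF_apply]
  have h1 : Tendsto (fun m : ℕ => (dcard m n / m : ℝ)) atTop (𝓝 1) := by
    have h2 : Tendsto (fun m : ℕ => (1 : ℝ) - n.natAbs / m) atTop (𝓝 (1 - 0)) :=
      tendsto_const_nhds.sub (tendsto_const_div_atTop_nhds_zero_nat _)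
    rw [sub_zero] at h2
    refine tendsto_of_tendsto_of_tendsto_of_le_of_le' h2 tendsto_const_nhds ?_ ?_
    · filter_upwards [eventually_gt_atTop 0] with m hm
      have hm' : (0 : ℝ) < m := by exact_mod_cast hm
      have : (m : ℝ) ≤ dcard m n + n.natAbs := by exact_mod_cast le_dcard m n
      rw [le_div_iff₀ hm', sub_mul, div_mul_cancel₀ _ hm'.ne']
      linarith
    · filter_upwards [eventually_gt_atTop 0] with m hm
      have hm' : (0 : ℝ) < m := by exact_mod_cast hm
      rw [div_le_one hm']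
      exact_mod_cast dcard_le m n
  have h3 : Tendsto (fun m : ℕ => ((dcard m n / m : ℝ) : ℂ)) atTop (𝓝 ((1 : ℝ) : ℂ)) :=
    (Complex.continuous_ofReal.tendsto _).comp h1
  have h4 := h3.smul_const (fc g n)
  rwa [Complex.ofReal_one, one_smul] at h4

/-- convergence of finitely many coefficients gives convergence of the norm -/
theorem Nn_tendsto {p : ℝ} (hp : 0 < p) (s : Finset ℤ) (u : ℕ → ℤ → X) (v : ℤ → X)
    (h : ∀ n ∈ s, Tendsto (fun m => u m n) atTop (𝓝 (v n))) :
    Tendsto (fun m => Nn p (fun x => ∑ n ∈ s, ex n x • u m n)) atTop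
      (𝓝 (Nn p (fun x => ∑ n ∈ s, ex n x • v n))) := by
  have hb : Tendsto (fun m => ∑ n ∈ s, ‖u m n‖) atTop (𝓝 (∑ n ∈ s, ‖v n‖)) :=
    tendsto_finset_sum _ fun n hn => (h n hn).norm
  obtain ⟨B, hB⟩ := hb.bddAbove_range
  have hB' : ∀ m, ∑ n ∈ s, ‖u m n‖ ≤ B := fun m => hB ⟨m, rfl⟩
  have hB0 : 0 ≤ B := (Finset.sum_nonneg fun n _ => norm_nonneg _).trans (hB' 0)
  unfold Nn
  refine tendsto_lintegral_of_dominated_convergence (fun _ => ENNReal.ofReal B ^ p) ?_ ?_ ?_ ?_
  · intro m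
    have : Continuous fun x => ∑ n ∈ s, ex n x • u m n :=
      continuous_finsetSum _ fun n _ => (continuous_ex n).smul continuous_const
    exact (this.enorm.measurable).pow_const _
  · intro m
    refine ae_of_all _ fun x => ?_
    refine ENNReal.rpow_le_rpow ?_ hp.le
    rw [← ofReal_norm_eq_enorm]
    refine ENNReal.ofReal_le_ofReal (((norm_sum_le _ _).trans ?_).trans (hB' m))
    refine Finset.sum_le_sum fun n _ => ?_
    rw [norm_smul, norm_ex, one_mul]
  · rw [setLIntegral_const, Real.volume_Ico]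
    exact (ENNReal.mul_lt_top (ENNReal.rpow_lt_top_of_nonneg hp.le ENNReal.ofReal_ne_top)
      ENNReal.ofReal_lt_top).ne
  · refine ae_of_all _ fun x => ?_
    refine (ENNReal.continuous_rpow_const.tendsto _).comp ?_
    refine (continuous_enorm.tendsto _).comp ?_
    exact tendsto_finset_sum _ fun n hn => (h n hn).const_smul _

end

theorem ext : S_EXT := by
  intro X _ _ _ q p hq hp ⟨L₀, hL₀⟩
  have hp0 : 0 < p := by linarith
  have hq0 : 0 < q := by linarith
  have hL : ∀ P : Set (Set ℤ), IntervalPartition P → ∀ c : ℤ →₀ X,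
      (∑' I : P, nrm p (DI (I : Set ℤ) c) ^ q) ^ (1 / q) ≤ max L₀ 0 * nrm p c := by
    intro P hP c
    exact (hL₀ P hP c).trans (mul_le_mul_of_nonneg_right (le_max_left _ _) (nrm_nonneg _ _))
  refine ⟨(max L₀ 0).toNNReal, fun ι _ a b hab g hg => ?_⟩
  have h1 : ∀ m : ℕ, 0 < m → ∑ i, Nn p (Dab (a i) (b i) (ev (cF m g))) ^ (q / p) ≤
      (((max L₀ 0).toNNReal : ℝ≥0) : ℝ≥0∞) ^ q * Nn p g ^ (q / p) := by
    intro m hm
    refine (ext_trig hq0 hp0 (le_max_right _ _) hL ι a b hab (cF m g)).trans ?_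
    have : ENNReal.ofReal (max L₀ 0) = (((max L₀ 0).toNNReal : ℝ≥0) : ℝ≥0∞) := rfl
    rw [this]
    exact mul_le_mul_right (ENNReal.rpow_le_rpow (Nn_cF hp m hm hg) (by positivity)) _
  have h2 : Tendsto (fun m => ∑ i, Nn p (Dab (a i) (b i) (ev (cF m g))) ^ (q / p)) atTop
      (𝓝 (∑ i, Nn p (Dab (a i) (b i) g) ^ (q / p))) := by
    refine tendsto_finset_sum _ fun i _ => ?_
    refine (ENNReal.continuous_rpow_const.tendsto _).comp ?_
    have h3 := Nn_tendsto hp0 (Finset.Icc (a i) (b i)) (fun m n => cF m g n) (fun n => fc g n)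
      (fun n _ => cF_tendsto g n)
    have e1 : ∀ m, Dab (a i) (b i) (ev (cF m g)) =
        fun x => ∑ n ∈ Finset.Icc (a i) (b i), ex n x • cF m g n := by
      intro m
      funext x
      unfold Dab Mu
      refine Finset.sum_congr rfl fun n _ => ?_
      rw [one_mul, fc_ev]
    have e2 : Dab (a i) (b i) g = fun x => ∑ n ∈ Finset.Icc (a i) (b i), ex n x • fc g n := by
      funext x
      unfold Dab Mu
      refine Finset.sum_congr rfl fun n _ => ?_
      rw [one_mul]
    simp only [e1, e2]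
    exact h3
  refine le_of_tendsto h2 ?_
  filter_upwards [eventually_gt_atTop 0] with m hm
  exact h1 m hm

end Pool.Agent.Q82.LQ
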