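import Pool.Agent.Q82.LQ.Stm2

/-! Project LQ: the limit of the multipliers. -/

set_option autoImplicit false

namespace Pool.Agent.Q82.LQ

open MeasureTheory Set Filter Topology
open scoped ENNReal NNReal

/-- real multiplier of one level -/
noncomputable def ph (u : ℝ) : ℝ :=
  4 * Real.sin (Real.pi * u / 2) ^ 3 * (1 - Real.cos (Real.pi * u / 2)) / (Real.pi * u) ^ 2

theorem muH_eq (u : ℝ) : muH u = -Complex.I * (ph u : ℂ) := rfl

theorem ph_neg (u : ℝ) : ph (-u) = -ph u := by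
  unfold ph
  have e : Real.pi * -u / 2 = -(Real.pi * u / 2) := by ring
  rw [e, Real.sin_neg, Real.cos_neg]
  ring

theorem ph_zero : ph 0 = 0 := by simp [ph]

theorem ph_small (u : ℝ) : |ph u| ≤ 2 * |u| ^ 3 := by
  rcases eq_or_ne u 0 with rfl | hu
  · simp [ph_zero]
  have hpi := Real.pi_pos
  have hu' : 0 < |u| := abs_pos.2 hu
  unfold ph
  rw [abs_div, abs_mul, abs_mul, abs_pow, abs_pow, abs_mul, abs_of_pos hpi,
    div_le_iff₀ (by positivity)]
  have h1 : |Real.sin (Real.pi * u / 2)| ≤ Real.pi * |u| / 2 := by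
    refine Real.abs_sin_le_abs.trans (le_of_eq ?_)
    rw [abs_div, abs_mul, abs_of_pos hpi, abs_of_pos (by norm_num : (0 : ℝ) < 2)]
  have h2 : |1 - Real.cos (Real.pi * u / 2)| ≤ (Real.pi * |u| / 2) ^ 2 / 2 := by
    rw [abs_of_nonneg (by linarith [Real.cos_le_one (Real.pi * u / 2)])]
    have := Real.one_sub_sq_div_two_le_cos (x := Real.pi * u / 2)
    have e : (Real.pi * |u| / 2) ^ 2 = (Real.pi * u / 2) ^ 2 := by
      rw [div_pow, mul_pow, sq_abs, div_pow, mul_pow]
    rw [e]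
    linarith
  have h3 : |Real.sin (Real.pi * u / 2)| ^ 3 ≤ (Real.pi * |u| / 2) ^ 3 :=
    pow_le_pow_left₀ (abs_nonneg _) h1 3
  have h4 : |(4 : ℝ)| = 4 := abs_of_pos (by norm_num)
  rw [h4]
  have hp4 : Real.pi ^ 3 ≤ 32 := by
    have h5 : Real.pi ≤ 3.15 := Real.pi_lt_d2.le
    calc Real.pi ^ 3 ≤ 3.15 ^ 3 := pow_le_pow_left₀ hpi.le h5 3
      _ ≤ 32 := by norm_num
  calc 4 * |Real.sin (Real.pi * u / 2)| ^ 3 * |1 - Real.cos (Real.pi * u / 2)|
      ≤ 4 * (Real.pi * |u| / 2) ^ 3 * ((Real.pi * |u| / 2) ^ 2 / 2) := by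
        gcongr
    _ = (Real.pi ^ 3 / 16) * |u| ^ 3 * (Real.pi * |u|) ^ 2 := by ring
    _ ≤ 2 * |u| ^ 3 * (Real.pi * |u|) ^ 2 := by
        gcongr
        linarith

theorem ph_large (u : ℝ) : |ph u| ≤ 1 / u ^ 2 := by
  rcases eq_or_ne u 0 with rfl | hu
  · simp [ph_zero]
  have hpi := Real.pi_pos
  have hu' : 0 < u ^ 2 := by positivity
  unfold ph
  rw [abs_div, abs_mul, abs_mul, abs_pow, abs_of_nonneg (sq_nonneg (Real.pi * u)),
    div_le_div_iff₀ (by positivity) hu']
  have h4 : |(4 : ℝ)| = 4 := abs_of_pos (by norm_num)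
  rw [h4]
  have h1 : |Real.sin (Real.pi * u / 2)| ^ 3 ≤ 1 :=
    pow_le_one₀ (abs_nonneg _) (Real.abs_sin_le_one _)
  have h2 : |1 - Real.cos (Real.pi * u / 2)| ≤ 2 := by
    rw [abs_le]
    constructor <;> linarith [Real.cos_le_one (Real.pi * u / 2), Real.neg_one_le_cos (Real.pi * u / 2)]
  have h5 : (8 : ℝ) ≤ Real.pi ^ 2 := by
    have := Real.pi_gt_three
    nlinarith
  calc 4 * |Real.sin (Real.pi * u / 2)| ^ 3 * |1 - Real.cos (Real.pi * u / 2)| * u ^ 2
      ≤ 4 * 1 * 2 * u ^ 2 := by gcongr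
    _ ≤ Real.pi ^ 2 * u ^ 2 := by nlinarith
    _ = 1 * (Real.pi * u) ^ 2 := by ring

/-- `ph u / u` -/
noncomputable def ps (u : ℝ) : ℝ := ph u / u

theorem ps_small (u : ℝ) : |ps u| ≤ 2 * |u| ^ 2 := by
  rcases eq_or_ne u 0 with rfl | hu
  · simp [ps]
  · have hu' : 0 < |u| := abs_pos.2 hu
    unfold ps
    rw [abs_div, div_le_iff₀ hu']
    refine (ph_small u).trans (le_of_eq ?_)
    ring

theorem ps_large (u : ℝ) (hu : 0 < u) : |ps u| ≤ u ^ (-3 : ℝ) := by
  unfold ps
  rw [abs_div, abs_of_pos hu, div_le_iff₀ hu]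
  refine (ph_large u).trans (le_of_eq ?_)
  have : u ^ (-3 : ℝ) = 1 / u ^ 3 := by
    rw [Real.rpow_neg hu.le, one_div]
    norm_cast
  rw [this]
  field_simp

theorem ph_cont : Continuous ph := by
  rw [continuous_iff_continuousAt]
  intro u
  rcases eq_or_ne u 0 with rfl | hu
  · have h1 : Tendsto (fun v : ℝ => 2 * |v| ^ 3) (𝓝 0) (𝓝 0) := by
      have : Continuous fun v : ℝ => 2 * |v| ^ 3 := by fun_prop
      simpa using this.tendsto 0
    have h2 : Tendsto ph (𝓝 0) (𝓝 0) := squeeze_zero_norm ph_small h1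
    unfold ContinuousAt
    rw [ph_zero]
    exact h2
  · unfold ph
    refine ContinuousAt.div ?_ ?_ ?_
    · fun_prop
    · fun_prop
    · have := Real.pi_pos
      positivity

theorem ps_cont : Continuous ps := by
  rw [continuous_iff_continuousAt]
  intro u
  rcases eq_or_ne u 0 with rfl | hu
  · have h1 : Tendsto (fun v : ℝ => 2 * |v| ^ 2) (𝓝 0) (𝓝 0) := by
      have : Continuous fun v : ℝ => 2 * |v| ^ 2 := by fun_prop
      simpa using this.tendsto 0
    have h2 : Tendsto ps (𝓝 0) (𝓝 0) := squeeze_zero_norm ps_small h1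
    unfold ContinuousAt
    have : ps 0 = 0 := by simp [ps]
    rw [this]
    exact h2
  · unfold ps
    exact ContinuousAt.div ph_cont.continuousAt continuousAt_id hu

/-- the primitive -/
noncomputable def Ps (x : ℝ) : ℝ := ∫ u in (0 : ℝ)..x, ps u

theorem ps_integrable : IntegrableOn ps (Ioi 0) := by
  have h1 : IntegrableOn ps (Ioc 0 1) := by
    have := ps_cont.intervalIntegrable (μ := volume) 0 1
    rwa [intervalIntegrable_iff_integrableOn_Ioc_of_le zero_le_one] at this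
  have h2 : IntegrableOn ps (Ioi 1) := by
    have h3 : IntegrableOn (fun u : ℝ => u ^ (-3 : ℝ)) (Ioi 1) :=
      integrableOn_Ioi_rpow_of_lt (by norm_num) zero_lt_one
    refine Integrable.mono' h3 ps_cont.aestronglyMeasurable ?_
    refine (ae_restrict_iff' measurableSet_Ioi).2 (ae_of_all _ fun u hu => ?_)
    rw [Real.norm_eq_abs]
    exact ps_large u (lt_trans zero_lt_one hu)
  have : Ioi (0 : ℝ) = Ioc 0 1 ∪ Ioi 1 := (Ioc_union_Ioi_eq_Ioi zero_le_one).symm
  rw [this]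
  exact h1.union h2

theorem Ps_tendsto : Tendsto Ps atTop (𝓝 (∫ u in Ioi (0 : ℝ), ps u)) :=
  intervalIntegral_tendsto_integral_Ioi 0 ps_integrable tendsto_id

theorem Ps_cont : Continuous Ps := by
  unfold Ps
  exact intervalIntegral.continuous_primitive (fun a b => ps_cont.intervalIntegrable a b) 0

theorem Ps_zero : Ps 0 = 0 := intervalIntegral.integral_same

/-- pairing of `u` and `8l+4-u` -/
theorem pair (l : ℕ) (u : ℝ) (hu0 : 0 < u) (h1 : u < 8 * l + 4) :
    ps u + ps (8 * l + 4 - u) = 4 * Real.sin (Real.pi * u / 2) ^ 3 *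
      (1 - Real.cos (Real.pi * u / 2)) / Real.pi ^ 2 * (1 / u ^ 3 - 1 / (8 * l + 4 - u) ^ 3) := by
  have hpi := Real.pi_pos
  have hv : 0 < 8 * (l : ℝ) + 4 - u := by linarith
  unfold ps ph
  have e : Real.pi * (8 * (l : ℝ) + 4 - u) / 2 =
      -(Real.pi * u / 2) + ((2 * l + 1 : ℕ) : ℝ) * (2 * Real.pi) := by
    push_cast
    ring
  have es : Real.sin (Real.pi * (8 * (l : ℝ) + 4 - u) / 2) = -Real.sin (Real.pi * u / 2) := by
    rw [e, Real.sin_add_nat_mul_two_pi, Real.sin_neg]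
  have ec : Real.cos (Real.pi * (8 * (l : ℝ) + 4 - u) / 2) = Real.cos (Real.pi * u / 2) := by
    rw [e, Real.cos_add_nat_mul_two_pi, Real.cos_neg]
  rw [es, ec]
  field_simp
  ring

theorem pair_nonneg (l : ℕ) (u : ℝ) (h0 : 4 * l ≤ u) (hu0 : 0 < u) (h1 : u ≤ 4 * l + 2) :
    0 ≤ ps u + ps (8 * l + 4 - u) := by
  have hpi := Real.pi_pos
  have hl : (0 : ℝ) ≤ l := Nat.cast_nonneg l
  rw [pair l u hu0 (by linarith)]
  have hs : 0 ≤ Real.sin (Real.pi * u / 2) := by
    have e : Real.pi * u / 2 = (Real.pi * (u - 4 * l) / 2) + (l : ℝ) * (2 * Real.pi) := by ring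
    rw [e, Real.sin_add_nat_mul_two_pi]
    refine Real.sin_nonneg_of_nonneg_of_le_pi ?_ ?_
    · have : 0 ≤ u - 4 * l := by linarith
      positivity
    · nlinarith
  have hc : 0 ≤ 1 - Real.cos (Real.pi * u / 2) := by linarith [Real.cos_le_one (Real.pi * u / 2)]
  have hd : 0 ≤ 1 / u ^ 3 - 1 / (8 * l + 4 - u) ^ 3 := by
    rw [sub_nonneg]
    refine one_div_le_one_div_of_le (by positivity) ?_
    exact pow_le_pow_left₀ hu0.le (by linarith) 3
  positivity

theorem Ps_step (l : ℕ) : Ps (4 * l + 4) - Ps (4 * l) =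
    ∫ u in (4 * l : ℝ)..(4 * l + 2), (ps u + ps (8 * l + 4 - u)) := by
  have hi : ∀ a b : ℝ, IntervalIntegrable ps volume a b := fun a b => ps_cont.intervalIntegrable a b
  have hi2 : IntervalIntegrable (fun u => ps (8 * l + 4 - u)) volume (4 * l : ℝ) (4 * l + 2) :=
    (ps_cont.comp (continuous_const.sub continuous_id)).intervalIntegrable _ _
  unfold Ps
  rw [intervalIntegral.integral_interval_sub_left (hi _ _) (hi _ _), intervalIntegral.integral_add
    (hi _ _) hi2, intervalIntegral.integral_comp_sub_left,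
    ← intervalIntegral.integral_add_adjacent_intervals (hi _ (4 * l + 2)) (hi _ _)]
  congr 2
  · ring
  · ring

theorem Ps_mono (l : ℕ) : Ps (4 * l) ≤ Ps (4 * (l + 1 : ℕ)) := by
  have h := Ps_step l
  have h2 : 0 ≤ ∫ u in (4 * l : ℝ)..(4 * l + 2), (ps u + ps (8 * l + 4 - u)) := by
    refine intervalIntegral.integral_nonneg_of_ae_restrict (by linarith) ?_
    refine (ae_restrict_iff' measurableSet_Icc).2 ?_
    have h3 : ∀ᵐ u : ℝ, u ≠ 0 := by
      have : ({0} : Set ℝ)ᶜ ∈ ae volume := by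
        rw [mem_ae_iff, compl_compl]
        exact Real.volume_singleton
      exact this
    filter_upwards [h3] with u hu0 hu
    have hl : (0 : ℝ) ≤ l := Nat.cast_nonneg l
    have : 0 ≤ u := le_trans (by positivity) hu.1
    exact pair_nonneg l u hu.1 (lt_of_le_of_ne this (Ne.symm hu0)) hu.2
  have e : (4 * ((l + 1 : ℕ) : ℝ)) = 4 * l + 4 := by
    push_cast
    ring
  rw [e]
  linarith

theorem Ps_four : 0 < Ps 4 := by
  have h := Ps_step 0
  simp only [Nat.cast_zero, mul_zero, zero_add] at h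
  rw [Ps_zero, sub_zero] at h
  rw [h]
  refine intervalIntegral.intervalIntegral_pos_of_pos_on ?_ ?_ (by norm_num)
  · exact (ps_cont.add (ps_cont.comp (continuous_const.sub continuous_id))).intervalIntegrable _ _
  · intro u hu
    have h2 := pair 0 u hu.1 (by simp only [Nat.cast_zero]; linarith [hu.2])
    simp only [Nat.cast_zero, mul_zero, zero_add] at h2
    rw [h2]
    have hpi := Real.pi_pos
    have hu0 := hu.1
    have hs : 0 < Real.sin (Real.pi * u / 2) := by
      refine Real.sin_pos_of_pos_of_lt_pi (by positivity) ?_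
      nlinarith [hu.2]
    have hc : 0 < 1 - Real.cos (Real.pi * u / 2) := by
      have : Real.cos (Real.pi * u / 2) < Real.cos 0 := by
        refine Real.cos_lt_cos_of_nonneg_of_le_pi le_rfl ?_ (by positivity)
        nlinarith [hu.2]
      rw [Real.cos_zero] at this
      linarith
    have hd : 0 < 1 / u ^ 3 - 1 / (4 - u) ^ 3 := by
      rw [sub_pos]
      refine one_div_lt_one_div_of_lt (by positivity) ?_
      exact pow_lt_pow_left₀ (by linarith [hu.2]) hu0.le (by norm_num)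
    positivity

theorem C_pos : 0 < ∫ u in Ioi (0 : ℝ), ps u := by
  refine lt_of_lt_of_le Ps_four ?_
  have h1 : Monotone fun l : ℕ => Ps (4 * (l : ℝ)) := monotone_nat_of_le_succ Ps_mono
  have h2 : Tendsto (fun l : ℕ => Ps (4 * (l : ℝ))) atTop (𝓝 (∫ u in Ioi (0 : ℝ), ps u)) :=
    Ps_tendsto.comp (tendsto_natCast_atTop_atTop.const_mul_atTop (by norm_num))
  have h3 := h1.ge_of_tendsto h2 1
  simpa using h3

/-- Riemann sums -/
theorem riemann (h : ℝ → ℝ) (hc : ContinuousOn h (Icc 1 2)) :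
    Tendsto (fun N : ℕ => ∑ m ∈ Finset.Ico N (2 * N), (1 / (N : ℝ)) * h (m / N)) atTop
      (𝓝 (∫ s in (1 : ℝ)..2, h s)) := by
  rw [Metric.tendsto_atTop]
  intro ε hε
  have huc := isCompact_Icc.uniformContinuousOn_of_continuous hc
  rw [Metric.uniformContinuousOn_iff] at huc
  obtain ⟨η, hη, huc⟩ := huc (ε / 2) (by positivity)
  obtain ⟨N₀, hN₀⟩ := exists_nat_gt (1 / η)
  refine ⟨N₀ + 1, fun N hN => ?_⟩
  have hN' : (0 : ℝ) < N := by
    have : 0 < N := by omega
    exact_mod_cast this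
  have hNη : 1 / (N : ℝ) < η := by
    have h1 : (N₀ : ℝ) < N := by exact_mod_cast (by omega : N₀ < N)
    rw [div_lt_iff₀ hN']
    rw [div_lt_iff₀ hη] at hN₀
    nlinarith
  have hsub : ∀ m ∈ Finset.Ico N (2 * N), Icc ((m : ℝ) / N) (((m : ℝ) + 1) / N) ⊆ Icc 1 2 := by
    intro m hm
    rw [Finset.mem_Ico] at hm
    have h1 : (N : ℝ) ≤ m := by exact_mod_cast hm.1
    have h2 : (m : ℝ) + 1 ≤ 2 * N := by exact_mod_cast hm.2
    refine Icc_subset_Icc ?_ ?_
    · rwa [one_le_div hN']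
    · rwa [div_le_iff₀ hN']
  have hint : ∀ m ∈ Finset.Ico N (2 * N),
      IntervalIntegrable h volume ((m : ℝ) / N) (((m : ℝ) + 1) / N) := by
    intro m hm
    refine ContinuousOn.intervalIntegrable ?_
    rw [uIcc_of_le (by gcongr; linarith)]
    exact hc.mono (hsub m hm)
  have h1 : ∫ s in (1 : ℝ)..2, h s =
      ∑ m ∈ Finset.Ico N (2 * N), ∫ s in ((m : ℝ) / N)..(((m : ℝ) + 1) / N), h s := by
    have h2 := intervalIntegral.sum_integral_adjacent_intervals_Ico (μ := volume) (f := h)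
      (a := fun m : ℕ => (m : ℝ) / N) (m := N) (n := 2 * N) (by omega) (by
        intro m hm
        have := hint m (Finset.mem_Ico.2 hm)
        push_cast
        exact this)
    push_cast at h2
    rw [h2]
    congr 1
    · field_simp
    · field_simp
  rw [h1, Real.dist_eq, ← Finset.sum_sub_distrib]
  refine lt_of_le_of_lt (Finset.abs_sum_le_sum_abs _ _) ?_
  have h3 : ∀ m ∈ Finset.Ico N (2 * N),
      |1 / (N : ℝ) * h (m / N) - ∫ s in ((m : ℝ) / N)..(((m : ℝ) + 1) / N), h s| ≤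
        ε / 2 * (1 / N) := by
    intro m hm
    have e : 1 / (N : ℝ) * h (m / N) = ∫ s in ((m : ℝ) / N)..(((m : ℝ) + 1) / N), h (m / N) := by
      rw [intervalIntegral.integral_const, smul_eq_mul]
      congr 1
      ring
    rw [e, ← intervalIntegral.integral_sub intervalIntegrable_const (hint m hm), ← Real.norm_eq_abs]
    have hle : (m : ℝ) / N ≤ ((m : ℝ) + 1) / N := by gcongr; linarith
    refine (intervalIntegral.norm_integral_le_of_norm_le_const (C := ε / 2) ?_).trans (le_of_eq ?_)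
    · intro s hs
      rw [uIoc_of_le hle] at hs
      have hs' : s ∈ Icc ((m : ℝ) / N) (((m : ℝ) + 1) / N) := Ioc_subset_Icc_self hs
      have h4 := huc (m / N) (hsub m hm (left_mem_Icc.2 hle)) s (hsub m hm hs') ?_
      · rw [Real.dist_eq] at h4
        exact h4.le
      · rw [Real.dist_eq, abs_sub_comm, abs_of_nonneg (by linarith [hs'.1])]
        calc s - m / N ≤ (m + 1) / N - m / N := by linarith [hs'.2]
          _ = 1 / N := by ring
          _ < η := hNη
    · rw [abs_of_nonneg (by linarith)]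
      ring
  refine lt_of_le_of_lt (Finset.sum_le_sum h3) ?_
  rw [Finset.sum_const, Nat.card_Ico, nsmul_eq_mul]
  have : ((2 * N - N : ℕ) : ℝ) = N := by
    congr 1
    omega
  rw [this]
  have : (N : ℝ) * (ε / 2 * (1 / N)) = ε / 2 := by field_simp
  rw [this]
  linarith

/-- one level -/
theorem level (x : ℝ) (hx : 0 < x) (k : ℕ) :
    ∫ s in (1 : ℝ)..2, ph (x / (s * 2 ^ k)) / s = Ps (x / 2 ^ k) - Ps (x / 2 ^ (k + 1)) := by
  have h2k : (0 : ℝ) < 2 ^ k := by positivity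
  have hd : ∀ s ∈ uIcc (1 : ℝ) 2, HasDerivAt (fun s : ℝ => x / (s * 2 ^ k))
      (-(x / (s ^ 2 * 2 ^ k))) s := by
    intro s hs
    rw [uIcc_of_le (by norm_num)] at hs
    have hs0 : s ≠ 0 := by linarith [hs.1]
    have h1 := ((hasDerivAt_inv hs0).const_mul (x / 2 ^ k))
    refine (h1.congr_deriv ?_).congr_of_eventuallyEq ?_
    · field_simp
    · filter_upwards [eventually_ne_nhds hs0] with t ht
      field_simp
  have hc : ContinuousOn (fun s : ℝ => -(x / (s ^ 2 * 2 ^ k))) (uIcc (1 : ℝ) 2) := by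
    rw [uIcc_of_le (by norm_num)]
    refine ContinuousOn.neg (ContinuousOn.div continuousOn_const (by fun_prop) ?_)
    intro s hs
    have : 0 < s := by linarith [hs.1]
    positivity
  have h1 := intervalIntegral.integral_comp_mul_deriv hd hc ps_cont
  have h3 : ∫ s in (1 : ℝ)..2, ph (x / (s * 2 ^ k)) / s =
      -∫ s in (1 : ℝ)..2, (ps ∘ fun s : ℝ => x / (s * 2 ^ k)) s * -(x / (s ^ 2 * 2 ^ k)) := by
    rw [← intervalIntegral.integral_neg]
    refine intervalIntegral.integral_congr fun s hs => ?_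
    rw [uIcc_of_le (by norm_num)] at hs
    have hs0 : 0 < s := by linarith [hs.1]
    simp only [Function.comp, ps]
    field_simp
  rw [h3, h1]
  have hi : ∀ a b : ℝ, IntervalIntegrable ps volume a b := fun a b => ps_cont.intervalIntegrable a b
  unfold Ps
  rw [intervalIntegral.integral_interval_sub_left (hi _ _) (hi _ _), ← intervalIntegral.integral_symm]
  congr 1
  · rw [pow_succ]
    ring
  · rw [one_mul]

theorem levels (x : ℝ) (hx : 0 < x) (K : ℕ) :
    ∫ s in (1 : ℝ)..2, (∑ k ∈ Finset.range K, ph (x / (s * 2 ^ k))) / s =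
      Ps x - Ps (x / 2 ^ K) := by
  have h1 : ∀ s : ℝ, (∑ k ∈ Finset.range K, ph (x / (s * 2 ^ k))) / s =
      ∑ k ∈ Finset.range K, ph (x / (s * 2 ^ k)) / s := fun s => Finset.sum_div _ _ _
  simp only [h1]
  rw [intervalIntegral.integral_finset_sum]
  · simp only [level x hx]
    rw [Finset.sum_range_sub', pow_zero, div_one]
  · intro k _
    refine ContinuousOn.intervalIntegrable ?_
    rw [uIcc_of_le (by norm_num)]
    have h0 : ∀ s ∈ Icc (1 : ℝ) 2, s ≠ 0 := fun s hs => by linarith [hs.1]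
    refine ContinuousOn.div (ph_cont.comp_continuousOn ?_) continuousOn_id h0
    refine ContinuousOn.div continuousOn_const (by fun_prop) ?_
    intro s hs
    have : 0 < s := by linarith [hs.1]
    positivity

theorem lim_pos (x : ℝ) (hx : 0 < x) (K : ℕ) :
    Tendsto (fun N : ℕ => ∑ m ∈ Finset.Ico N (2 * N), (1 / (m : ℝ)) *
      ∑ k ∈ Finset.range K, ph (N * x / (m * 2 ^ k))) atTop (𝓝 (Ps x - Ps (x / 2 ^ K))) := by
  rw [← levels x hx K]
  have h0 : ∀ s ∈ Icc (1 : ℝ) 2, s ≠ 0 := fun s hs => by linarith [hs.1]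
  have h1 := riemann (fun s => (∑ k ∈ Finset.range K, ph (x / (s * 2 ^ k))) / s) (by
    refine ContinuousOn.div (continuousOn_finset_sum _ fun k _ => ph_cont.comp_continuousOn ?_)
      continuousOn_id h0
    refine ContinuousOn.div continuousOn_const (by fun_prop) ?_
    intro s hs
    have : 0 < s := by linarith [hs.1]
    positivity)
  refine h1.congr' ?_
  filter_upwards [eventually_gt_atTop 0] with N hN
  have hN' : (0 : ℝ) < N := by exact_mod_cast hN
  refine Finset.sum_congr rfl fun m hm => ?_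
  have hm' : (0 : ℝ) < m := by
    have : 0 < m := by
      rw [Finset.mem_Ico] at hm
      omega
    exact_mod_cast this
  have e : ∀ k : ℕ, x / (m / N * 2 ^ k) = N * x / (m * 2 ^ k) := by
    intro k
    field_simp
  simp only [e]
  field_simp

theorem mu : S_MU := by
  refine ⟨∫ u in Ioi (0 : ℝ), ps u, C_pos, fun δ hδ M => ?_⟩
  set C := ∫ u in Ioi (0 : ℝ), ps u with hC
  -- x₀
  have h1 : ∀ᶠ x in atTop, |Ps x - C| < δ / 3 := by
    have := (Metric.tendsto_atTop.1 Ps_tendsto) (δ / 3) (by positivity)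
    obtain ⟨X, hX⟩ := this
    filter_upwards [eventually_ge_atTop X] with x hx
    have := hX x hx
    rwa [Real.dist_eq] at this
  obtain ⟨X, hX⟩ := eventually_atTop.1 h1
  obtain ⟨L₀, hL₀⟩ := exists_nat_gt (max X 1)
  have hL1 : (1 : ℝ) < L₀ := lt_of_le_of_lt (le_max_right _ _) hL₀
  have hLX : X < L₀ := lt_of_le_of_lt (le_max_left _ _) hL₀
  -- K
  have h2 : ∀ n ∈ Finset.Icc 1 M, ∀ᶠ K : ℕ in atTop, |Ps ((L₀ : ℝ) * n / 2 ^ K)| < δ / 3 := by
    intro n _
    have h3 : Tendsto (fun K : ℕ => Ps ((L₀ : ℝ) * n / 2 ^ K)) atTop (𝓝 (Ps 0)) := by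
      refine (Ps_cont.tendsto _).comp ?_
      exact tendsto_const_nhds.div_atTop (tendsto_pow_atTop_atTop_of_one_lt one_lt_two)
    rw [Ps_zero] at h3
    have h4 := h3.abs
    rw [abs_zero] at h4
    exact h4.eventually_lt_const (by positivity)
  obtain ⟨K, hK⟩ := ((Finset.eventually_all _).2 h2).exists
  -- N
  have h5 : ∀ n ∈ Finset.Icc 1 M, ∀ᶠ N : ℕ in atTop,
      |(∑ m ∈ Finset.Ico N (2 * N), (1 / (m : ℝ)) *
        ∑ k ∈ Finset.range K, ph (N * ((L₀ : ℝ) * n) / (m * 2 ^ k))) -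
        (Ps ((L₀ : ℝ) * n) - Ps ((L₀ : ℝ) * n / 2 ^ K))| < δ / 3 := by
    intro n hn
    have hn1 : (1 : ℝ) ≤ n := by exact_mod_cast (Finset.mem_Icc.1 hn).1
    have h6 := (Metric.tendsto_atTop.1 (lim_pos ((L₀ : ℝ) * n) (by positivity) K)) (δ / 3)
      (by positivity)
    obtain ⟨N₀, hN₀⟩ := h6
    filter_upwards [eventually_ge_atTop N₀] with N hN
    have := hN₀ N hN
    rwa [Real.dist_eq] at this
  obtain ⟨N, hN, hN0⟩ := (((Finset.eventually_all _).2 h5).and (eventually_gt_atTop 0)).exists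
  have hL0 : 0 < L₀ := by
    have : (0 : ℝ) < L₀ := by linarith
    exact_mod_cast this
  refine ⟨N, K, N * L₀, hN0, Nat.mul_pos hN0 hL0, fun n hn hnM => ?_⟩
  -- the positive case
  have hpos : ∀ j : ℕ, j ∈ Finset.Icc 1 M → |(∑ m ∈ Finset.Ico N (2 * N), (1 / (m : ℝ)) *
        ∑ k ∈ Finset.range K, ph (((N * L₀ : ℕ) : ℝ) * j / (m * 2 ^ k))) - C| < δ := by
    intro j hj
    have hj1 : (1 : ℝ) ≤ j := by exact_mod_cast (Finset.mem_Icc.1 hj).1
    have a1 := hK j hj
    have a2 := hN j hj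
    have a3 := hX ((L₀ : ℝ) * j) (by nlinarith)
    have e : ∀ (m k : ℕ), ((N * L₀ : ℕ) : ℝ) * j / (m * 2 ^ k) = N * ((L₀ : ℝ) * j) / (m * 2 ^ k) := by
      intro m k
      push_cast
      ring
    simp only [e]
    rw [abs_lt] at a1 a2 a3 ⊢
    constructor <;> linarith [a1.1, a1.2, a2.1, a2.2, a3.1, a3.2]
  have hj : n.natAbs ∈ Finset.Icc 1 M := by
    rw [Finset.mem_Icc]
    constructor
    · exact Nat.one_le_iff_ne_zero.2 (Int.natAbs_ne_zero.2 hn)
    · have : (n.natAbs : ℤ) ≤ M := by rwa [Int.natCast_natAbs]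
      exact_mod_cast this
  have h7 := hpos n.natAbs hj
  -- the complex expression
  have h8 : ∑ m ∈ Finset.Ico N (2 * N), ((1 / (m : ℝ) : ℝ) : ℂ) *
        ∑ k ∈ Finset.range K, muH ((((N * L₀ : ℕ) : ℤ) * n : ℤ) / (m * 2 ^ k))
      + Complex.I * (C * (n.sign : ℝ) : ℝ) =
      -Complex.I * (((∑ m ∈ Finset.Ico N (2 * N), (1 / (m : ℝ)) *
        ∑ k ∈ Finset.range K, ph ((((N * L₀ : ℕ) : ℤ) * n : ℤ) / (m * 2 ^ k))) -
          C * (n.sign : ℝ) : ℝ) : ℂ) := by
    simp only [muH_eq, ← Finset.mul_sum]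
    push_cast
    rw [mul_sub, Finset.mul_sum]
    have : ∀ m ∈ Finset.Ico N (2 * N), (1 / (m : ℂ)) * (-Complex.I *
        ∑ k ∈ Finset.range K, ((ph ((((N * L₀ : ℕ) : ℤ) * n : ℤ) / (m * 2 ^ k)) : ℝ) : ℂ)) =
        -Complex.I * ((1 / (m : ℂ)) *
        ∑ k ∈ Finset.range K, ((ph ((((N * L₀ : ℕ) : ℤ) * n : ℤ) / (m * 2 ^ k)) : ℝ) : ℂ)) := by
      intro m _
      ring
    push_cast at this
    rw [Finset.sum_congr rfl this]
    ring
  rw [h8, norm_mul, norm_neg, Complex.norm_I, one_mul, Complex.norm_real, Real.norm_eq_abs]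
  rcases lt_or_gt_of_ne hn with hneg | hpos'
  · have e1 : (n : ℝ) = -(n.natAbs : ℝ) := by
      have : n = -(n.natAbs : ℤ) := by omega
      exact_mod_cast this
    have e2 : n.sign = -1 := Int.sign_eq_neg_one_of_neg hneg
    have e3 : ∀ m k : ℕ, ph ((((N * L₀ : ℕ) : ℤ) * n : ℤ) / (m * 2 ^ k)) =
        -ph (((N * L₀ : ℕ) : ℝ) * n.natAbs / (m * 2 ^ k)) := by
      intro m k
      rw [← ph_neg]
      congr 1
      rw [Int.cast_mul, e1]
      push_cast
      ring
    simp only [e3, e2]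
    rw [abs_lt] at h7 ⊢
    have e4 : ∑ m ∈ Finset.Ico N (2 * N), (1 / (m : ℝ)) *
        ∑ k ∈ Finset.range K, -ph (((N * L₀ : ℕ) : ℝ) * n.natAbs / (m * 2 ^ k)) =
        -∑ m ∈ Finset.Ico N (2 * N), (1 / (m : ℝ)) *
        ∑ k ∈ Finset.range K, ph (((N * L₀ : ℕ) : ℝ) * n.natAbs / (m * 2 ^ k)) := by
      rw [← Finset.sum_neg_distrib]
      refine Finset.sum_congr rfl fun m _ => ?_
      rw [Finset.sum_neg_distrib]
      ring
    rw [e4]
    push_cast at h7 ⊢
    constructor <;> linarith [h7.1, h7.2]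
  · have e1 : (n : ℝ) = (n.natAbs : ℝ) := by
      have : n = (n.natAbs : ℤ) := by omega
      calc (n : ℝ) = ((n.natAbs : ℤ) : ℝ) := congrArg _ this
        _ = (n.natAbs : ℝ) := Int.cast_natCast _
    have e2 : n.sign = 1 := Int.sign_eq_one_of_pos hpos'
    have e3 : ∀ m k : ℕ, ph ((((N * L₀ : ℕ) : ℤ) * n : ℤ) / (m * 2 ^ k)) =
        ph (((N * L₀ : ℕ) : ℝ) * n.natAbs / (m * 2 ^ k)) := by
      intro m k
      congr 1
      rw [Int.cast_mul, e1]
      push_cast
      ring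
    simp only [e3, e2]
    push_cast at h7 ⊢
    rw [mul_one]
    exact h7

end Pool.Agent.Q82.LQ
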