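import Pool.Agent.Q82.LQ.Fej

/-! Project LQ: `q ≥ p`. -/

set_option autoImplicit false

namespace Pool.Agent.Q82.LQ

open MeasureTheory Set Filter Topology Pool.Agent.Q298.LQ
open scoped ENNReal NNReal

/-- a sum over `K`-th roots of unity -/
theorem root_sum (K : ℕ) (hK : 0 < K) (n : ℤ) (hn : n ≠ 0) (hn2 : n.natAbs < K) :
    ∑ k ∈ Finset.range K, ex (-n) ((k : ℝ) / K) = 0 := by
  have hK' : (K : ℂ) ≠ 0 := by exact_mod_cast hK.ne'
  have h1 : ∀ k : ℕ, ex (-n) ((k : ℝ) / K) = (ex (-n) (1 / K)) ^ k := by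
    intro k
    unfold ex
    rw [← Complex.exp_nat_mul]
    congr 1
    push_cast
    field_simp
  simp only [h1]
  have h2 : ex (-n) (1 / K) ≠ 1 := by
    unfold ex
    intro h
    rw [Complex.exp_eq_one_iff] at h
    obtain ⟨l, hl⟩ := h
    have hpi : (2 * Real.pi * Complex.I : ℂ) ≠ 0 := Complex.two_pi_I_ne_zero
    have h3 : (((-n : ℤ) : ℂ)) * ((1 / K : ℝ) : ℂ) = l := by
      have : (2 * Real.pi * Complex.I : ℂ) * ((((-n : ℤ) : ℂ)) * ((1 / K : ℝ) : ℂ)) =
          2 * Real.pi * Complex.I * l := by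
        rw [← mul_assoc, hl]
        ring
      exact mul_left_cancel₀ hpi this
    have h4 : ((-n : ℤ) : ℂ) = l * K := by
      push_cast at h3 ⊢
      field_simp at h3
      rw [h3, mul_comm]
    have h5 : -n = l * K := by exact_mod_cast h4
    have h6 : (n.natAbs : ℤ) = |l| * K := by
      have : |(-n)| = |l * (K : ℤ)| := by rw [h5]
      rw [abs_neg, abs_mul, Nat.abs_cast] at this
      rw [← this]
      exact Int.natCast_natAbs n
    have h7 : 0 < |l| := by
      rw [abs_pos]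
      rintro rfl
      apply hn
      simpa using h5
    have h8 : (n.natAbs : ℤ) < K := by exact_mod_cast hn2
    have h9 : (K : ℤ) ≤ |l| * K := by nlinarith
    omega
  have h3 : ex (-n) (1 / K) ^ K = 1 := by
    rw [← h1 K, div_self (by exact_mod_cast hK.ne')]
    have := ex_add_one (-n) 0
    rw [zero_add] at this
    rw [this]
    simp [ex]
  rw [geom_sum_eq h2, h3, sub_self, zero_div]

theorem kF_shift_sum (K : ℕ) (hK : 0 < K) (x : ℝ) :
    ∑ k ∈ Finset.range K, kF K (x - (k : ℝ) / K) = K := by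
  have hK' : (K : ℂ) ≠ 0 := by exact_mod_cast hK.ne'
  have h1 : ((∑ k ∈ Finset.range K, kF K (x - (k : ℝ) / K) : ℝ) : ℂ) = (K : ℝ) := by
    push_cast
    have h2 : ∀ k ∈ Finset.range K, ((kF K (x - (k : ℝ) / K) : ℝ) : ℂ) =
        ∑ jk ∈ Finset.range K ×ˢ Finset.range K,
          ((K : ℂ)⁻¹) * (ex ((jk.1 : ℤ) - jk.2) x * ex (-((jk.1 : ℤ) - jk.2)) ((k : ℝ) / K)) := by
      intro k _
      rw [← FK_eq]
      unfold FK
      refine Finset.sum_congr rfl fun jk _ => ?_
      rw [ex_sub_arg]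
    rw [Finset.sum_congr rfl h2, Finset.sum_comm]
    have h3 : ∀ jk ∈ Finset.range K ×ˢ Finset.range K,
        ∑ k ∈ Finset.range K,
          ((K : ℂ)⁻¹) * (ex ((jk.1 : ℤ) - jk.2) x * ex (-((jk.1 : ℤ) - jk.2)) ((k : ℝ) / K)) =
        if (jk.1 : ℤ) - jk.2 = 0 then (fun _ : ℤ => (1 : ℂ)) ((jk.1 : ℤ) - jk.2) else 0 := by
      intro jk hjk
      rw [← Finset.mul_sum, ← Finset.mul_sum]
      by_cases h : (jk.1 : ℤ) - jk.2 = 0
      · rw [if_pos h, h]
        have : ∀ k ∈ Finset.range K, ex (-0) ((k : ℝ) / K) = 1 := by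
          intro k _
          rw [neg_zero]
          exact ex_zero _
        rw [Finset.sum_congr rfl this, ex_zero]
        simp [hK']
      · rw [if_neg h, root_sum K hK _ h, mul_zero, mul_zero]
        rw [Finset.mem_product, Finset.mem_range, Finset.mem_range] at hjk
        omega
    have h4 := sum_diag K (fun _ => (1 : ℂ))
    rw [mul_one] at h4
    rw [Finset.sum_congr rfl h3]
    exact h4
  exact_mod_cast h1

theorem kF_lower (K : ℕ) (hK : 0 < K) (t : ℝ) (h0 : 0 ≤ t) (h1 : t ≤ 1 / (8 * K)) :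
    (K : ℝ) / 4 ≤ kF K t := by
  have hK' : (0 : ℝ) < K := by exact_mod_cast hK
  have h2 : (K : ℝ) / 2 ≤ ‖∑ j ∈ Finset.range K, ex (j : ℤ) t‖ := by
    refine le_trans ?_ (Complex.re_le_norm _)
    rw [Complex.re_sum]
    have h3 : ∀ j ∈ Finset.range K, (1 / 2 : ℝ) ≤ (ex (j : ℤ) t).re := by
      intro j hj
      have hj' : (j : ℝ) < K := by exact_mod_cast Finset.mem_range.1 hj
      have e : (ex (j : ℤ) t).re = Real.cos (2 * Real.pi * j * t) := by
        unfold ex
        have : (2 * Real.pi * Complex.I * ((j : ℤ) : ℂ) * t : ℂ) =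
            ((2 * Real.pi * j * t : ℝ) : ℂ) * Complex.I := by
          push_cast
          ring
        rw [this, Complex.exp_ofReal_mul_I_re]
      rw [e, ← Real.cos_pi_div_three]
      have h4 : (j : ℝ) * t ≤ 1 / 8 := by
        calc (j : ℝ) * t ≤ K * (1 / (8 * K)) := mul_le_mul hj'.le h1 h0 hK'.le
          _ = 1 / 8 := by field_simp
      have h5 : 0 ≤ (j : ℝ) * t := by positivity
      refine Real.cos_le_cos_of_nonneg_of_le_pi ?_ ?_ ?_
      · positivity
      · linarith [Real.pi_pos]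
      · nlinarith [Real.pi_pos]
    have h6 := Finset.sum_le_sum h3
    rw [Finset.sum_const, Finset.card_range, nsmul_eq_mul] at h6
    linarith
  unfold kF
  rw [le_div_iff₀ hK']
  have h7 := pow_le_pow_left₀ (by positivity : (0 : ℝ) ≤ K / 2) h2 2
  nlinarith

section

variable {X : Type} [NormedAddCommGroup X] [NormedSpace ℂ X]

/-- coefficients of the translated Fejer kernel, modulated -/
noncomputable def cK (K : ℕ) (x₀ : X) (k : ℕ) : ℤ →₀ X :=
  ∑ jl ∈ Finset.range K ×ˢ Finset.range K,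
    Finsupp.single (3 * (K : ℤ) * k + ((jl.1 : ℤ) - jl.2))
      (((K : ℂ)⁻¹ * ex (-((jl.1 : ℤ) - jl.2)) ((k : ℝ) / K)) • x₀)

theorem ev_cK (K : ℕ) (x₀ : X) (k : ℕ) (x : ℝ) :
    ev (cK K x₀ k) x = (ex (3 * (K : ℤ) * k) x * (kF K (x - (k : ℝ) / K) : ℂ)) • x₀ := by
  unfold cK
  rw [ev_finset_sum, ← FK_eq]
  unfold FK
  rw [Finset.mul_sum, Finset.sum_smul]
  refine Finset.sum_congr rfl fun jl _ => ?_
  rw [ev_single, smul_smul, ex_add, ex_sub_arg]
  congr 1
  ring

theorem cK_supp (K : ℕ) (x₀ : X) (k : ℕ) (n : ℤ)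
    (hn : n ∉ Icc (3 * (K : ℤ) * k - (K - 1)) (3 * (K : ℤ) * k + (K - 1))) : cK K x₀ k n = 0 := by
  unfold cK
  rw [Finsupp.finsetSum_apply]
  refine Finset.sum_eq_zero fun jl hjl => ?_
  rw [Finsupp.single_apply, if_neg]
  intro h
  apply hn
  rw [Finset.mem_product, Finset.mem_range, Finset.mem_range] at hjl
  constructor <;> omega

end

theorem qp : S_QP := by
  intro X _ _ _ q p L hq hp ⟨x₀, hx₀⟩ h
  by_contra hlt
  push Not at hlt
  have hp0 : 0 < p := by linarith
  have hq0 : 0 < q := by linarith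
  have hx : 0 < ‖x₀‖ := norm_pos_iff.2 hx₀
  -- the estimate for every K
  have key : ∀ K : ℕ, 0 < K →
      (K : ℝ) ^ (1 - q / p) ≤ (L : ℝ) ^ q * 8 ^ (q / p) * 4 ^ q := by
    intro K hK
    have hK' : (0 : ℝ) < K := by exact_mod_cast hK
    set a : Fin K → ℤ := fun k => 3 * (K : ℤ) * (k : ℕ) - (K - 1) with ha
    set b : Fin K → ℤ := fun k => 3 * (K : ℤ) * (k : ℕ) + (K - 1) with hb
    have hsep : ∀ (k l : Fin K) (n : ℤ), n ∈ Icc (a k) (b k) → n ∈ Icc (a l) (b l) → k = l := by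
      intro k l n hk hl
      have h1 : (a k : ℤ) ≤ b l := hk.1.trans hl.2
      have h2 : (a l : ℤ) ≤ b k := hl.1.trans hk.2
      simp only [ha, hb] at h1 h2
      by_contra hne
      have hne' : (k : ℕ) ≠ l := fun h => hne (Fin.ext h)
      have hKz : (0 : ℤ) < K := by exact_mod_cast hK
      rcases lt_or_gt_of_ne hne' with h3 | h3
      · have h4 : ((k : ℕ) : ℤ) + 1 ≤ ((l : ℕ) : ℤ) := by exact_mod_cast h3
        nlinarith
      · have h4 : ((l : ℕ) : ℤ) + 1 ≤ ((k : ℕ) : ℤ) := by exact_mod_cast h3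
        nlinarith
    have hdisj : ∀ k l, k ≠ l → Disjoint (Finset.Icc (a k) (b k)) (Finset.Icc (a l) (b l)) := by
      intro k l hkl
      rw [Finset.disjoint_left]
      intro n hn hn'
      rw [Finset.mem_Icc] at hn hn'
      exact hkl (hsep k l n hn hn')
    set c : ℤ →₀ X := ∑ k : Fin K, cK K x₀ k with hc
    have hDI : ∀ k : Fin K, DI (Icc (a k) (b k)) c = cK K x₀ k := by
      intro k
      classical
      ext n
      rw [DI_apply, hc, Finsupp.finsetSum_apply]
      by_cases hn : n ∈ Icc (a k) (b k)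
      · rw [if_pos hn, Finset.sum_eq_single k]
        · intro l _ hl
          refine cK_supp K x₀ l n fun h => ?_
          exact hl (hsep l k n h hn)
        · intro h
          exact absurd (Finset.mem_univ _) h
      · rw [if_neg hn, cK_supp K x₀ k n hn]
    have h1 := h (Fin K) a b hdisj (ev c) (ev_BM c)
    -- upper bound for the sum
    have h2 : Nn p (ev c) ≤ ENNReal.ofReal (K * ‖x₀‖) ^ p := by
      have h3 : ∀ x, ‖ev c x‖ₑ ^ p ≤ ENNReal.ofReal (K * ‖x₀‖) ^ p := by
        intro x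
        refine ENNReal.rpow_le_rpow ?_ hp0.le
        rw [← ofReal_norm_eq_enorm]
        refine ENNReal.ofReal_le_ofReal ?_
        rw [hc, ev_finset_sum]
        refine (norm_sum_le _ _).trans (le_of_eq ?_)
        have h4 : ∀ k : Fin K, ‖ev (cK K x₀ k) x‖ = kF K (x - ((k : ℕ) : ℝ) / K) * ‖x₀‖ := by
          intro k
          rw [ev_cK, norm_smul, norm_mul, norm_ex, one_mul, Complex.norm_real,
            Real.norm_of_nonneg (kF_nonneg _ _)]
        simp only [h4]
        rw [← Finset.sum_mul, Fin.sum_univ_eq_sum_range (fun k => kF K (x - (k : ℝ) / K)),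
          kF_shift_sum K hK]
      calc Nn p (ev c) ≤ ∫⁻ x in Ico (0 : ℝ) 1, ENNReal.ofReal (K * ‖x₀‖) ^ p :=
            lintegral_mono h3
        _ = _ := by
            rw [setLIntegral_const, Real.volume_Ico]
            norm_num
    -- lower bound for every piece
    have h5 : ∀ k : Fin K, ENNReal.ofReal (1 / (8 * K)) * ENNReal.ofReal (K / 4 * ‖x₀‖) ^ p ≤
        Nn p (Dab (a k) (b k) (ev c)) := by
      intro k
      have e1 : Dab (a k) (b k) (ev c) = ev (cK K x₀ k) := by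
        funext x
        rw [Dab_ev, hDI]
      rw [e1]
      have hk : ((k : ℕ) : ℝ) + 1 ≤ K := by exact_mod_cast k.2
      set S : Set ℝ := Ico (((k : ℕ) : ℝ) / K) (((k : ℕ) : ℝ) / K + 1 / (8 * K)) with hS
      have hsub : S ⊆ Ico (0 : ℝ) 1 := by
        intro x hx
        constructor
        · exact le_trans (by positivity) hx.1
        · refine lt_of_lt_of_le hx.2 ?_
          calc ((k : ℕ) : ℝ) / K + 1 / (8 * K) ≤ ((k : ℕ) : ℝ) / K + 1 / K := by
                gcongr
                linarith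
            _ = (((k : ℕ) : ℝ) + 1) / K := by ring
            _ ≤ 1 := by rw [div_le_one hK']; exact hk
      calc ENNReal.ofReal (1 / (8 * K)) * ENNReal.ofReal (K / 4 * ‖x₀‖) ^ p
          = ∫⁻ x in S, ENNReal.ofReal (K / 4 * ‖x₀‖) ^ p := by
            rw [setLIntegral_const, hS, Real.volume_Ico, mul_comm, add_sub_cancel_left]
        _ ≤ ∫⁻ x in S, ‖ev (cK K x₀ k) x‖ₑ ^ p := by
            refine setLIntegral_mono' measurableSet_Ico fun x hx => ?_
            refine ENNReal.rpow_le_rpow ?_ hp0.le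
            rw [← ofReal_norm_eq_enorm]
            refine ENNReal.ofReal_le_ofReal ?_
            rw [ev_cK, norm_smul, norm_mul, norm_ex, one_mul, Complex.norm_real,
              Real.norm_of_nonneg (kF_nonneg _ _)]
            refine mul_le_mul_of_nonneg_right ?_ (norm_nonneg _)
            refine kF_lower K hK _ ?_ ?_
            · linarith [hx.1]
            · linarith [hx.2]
        _ ≤ Nn p (ev (cK K x₀ k)) := lintegral_mono_set hsub
    -- combine
    have h6 : (K : ℝ≥0∞) * (ENNReal.ofReal (1 / (8 * K)) * ENNReal.ofReal (K / 4 * ‖x₀‖) ^ p) ^ (q / p)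
        ≤ (L : ℝ≥0∞) ^ q * (ENNReal.ofReal (K * ‖x₀‖) ^ p) ^ (q / p) := by
      calc (K : ℝ≥0∞) * (ENNReal.ofReal (1 / (8 * K)) * ENNReal.ofReal (K / 4 * ‖x₀‖) ^ p) ^ (q / p)
          = ∑ k : Fin K, (ENNReal.ofReal (1 / (8 * K)) *
              ENNReal.ofReal (K / 4 * ‖x₀‖) ^ p) ^ (q / p) := by
            rw [Finset.sum_const, Finset.card_univ, Fintype.card_fin, nsmul_eq_mul]
        _ ≤ ∑ k : Fin K, Nn p (Dab (a k) (b k) (ev c)) ^ (q / p) :=
            Finset.sum_le_sum fun k _ => ENNReal.rpow_le_rpow (h5 k) (by positivity)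
        _ ≤ _ := h1.trans (mul_le_mul_right (ENNReal.rpow_le_rpow h2 (by positivity)) _)
    have h7 : (K : ℝ) * ((1 / (8 * K)) ^ (q / p) * (K / 4 * ‖x₀‖) ^ q) ≤
        (L : ℝ) ^ q * (K * ‖x₀‖) ^ q := by
      rw [ENNReal.mul_rpow_of_nonneg _ _ (by positivity), ← ENNReal.rpow_mul, ← ENNReal.rpow_mul,
        show p * (q / p) = q by field_simp, ← ENNReal.ofReal_natCast,
        ENNReal.ofReal_rpow_of_nonneg (by positivity) (by positivity),
        ENNReal.ofReal_rpow_of_nonneg (by positivity) hq0.le,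
        ENNReal.ofReal_rpow_of_nonneg (by positivity) hq0.le, ← ENNReal.ofReal_coe_nnreal,
        ENNReal.ofReal_rpow_of_nonneg NNReal.zero_le_coe hq0.le,
        ← ENNReal.ofReal_mul (by positivity), ← ENNReal.ofReal_mul (by positivity),
        ← ENNReal.ofReal_mul (by positivity), ENNReal.ofReal_le_ofReal_iff (by positivity)] at h6
      exact h6
    have h8 : (K : ℝ) ^ (1 - q / p) = K * (1 / K) ^ (q / p) := by
      rw [Real.rpow_sub hK', Real.rpow_one, one_div, Real.inv_rpow hK'.le, div_eq_mul_inv]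
    have e1 : (1 / (8 * K) : ℝ) ^ (q / p) * 8 ^ (q / p) = (1 / K) ^ (q / p) := by
      rw [← Real.mul_rpow (by positivity) (by positivity)]
      congr 1
      field_simp
    have e2 : ((K : ℝ) / 4 * ‖x₀‖) ^ q * 4 ^ q = (K * ‖x₀‖) ^ q := by
      rw [← Real.mul_rpow (by positivity) (by positivity)]
      congr 1
      field_simp
    have h9 : 0 < ((K : ℝ) * ‖x₀‖) ^ q := by positivity
    rw [h8]
    have h10 : (K : ℝ) * (1 / K) ^ (q / p) * (K * ‖x₀‖) ^ q ≤
        ((L : ℝ) ^ q * 8 ^ (q / p) * 4 ^ q) * (K * ‖x₀‖) ^ q := by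
      calc (K : ℝ) * (1 / K) ^ (q / p) * (K * ‖x₀‖) ^ q
          = (K * ((1 / (8 * K)) ^ (q / p) * (K / 4 * ‖x₀‖) ^ q)) * (8 ^ (q / p) * 4 ^ q) := by
            rw [← e1, ← e2]
            ring
        _ ≤ ((L : ℝ) ^ q * (K * ‖x₀‖) ^ q) * (8 ^ (q / p) * 4 ^ q) :=
            mul_le_mul_of_nonneg_right h7 (by positivity)
        _ = _ := by ring
    exact le_of_mul_le_mul_right h10 h9
  -- contradiction
  have hpos : 0 < 1 - q / p := by
    have : q / p < 1 := by rwa [div_lt_one hp0]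
    linarith
  have h1 : Tendsto (fun K : ℕ => (K : ℝ) ^ (1 - q / p)) atTop atTop :=
    (tendsto_rpow_atTop hpos).comp tendsto_natCast_atTop_atTop
  obtain ⟨K, hK0, hK⟩ := ((eventually_gt_atTop 0).and
    (h1.eventually_gt_atTop ((L : ℝ) ^ q * 8 ^ (q / p) * 4 ^ q))).exists
  exact absurd (key K hK0) (not_le.2 hK)

end Pool.Agent.Q82.LQ
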