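import Pool.Agent.Q82.LQ.Gen
import Pool.Agent.Q82.LQ.Qp
import Pool.Agent.Q82.LQ.Mu
import Pool.Agent.Q82.LQ.Avg
import Pool.Agent.Q298.LQ.Gl3
import Pool.Agent.Q298.LQ.Cz
import Pool.Agent.Q298.LQ.I1
import Pool.Agent.Q298.LQ.Norm
import Pool.Agent.Q298.LQ.Du
import Pool.Agent.Q298.LQ.Par

/-! Project LQ: assembly. -/

set_option autoImplicit false

namespace Pool.Agent.Q82.LQ

open Pool.Agent.Q298.LQ (ker dec cz gl w11 i1 i2 norming du1 du2 par)

theorem low (X : Type) [NormedAddCommGroup X] [NormedSpace ℂ X] [CompleteSpace X]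
    (p q r : ℝ) (hp : 1 < p) (hq : 1 < q) (hr : 1 < r) (h : Lower X q p) :
    Lower X (q / th p r) r :=
  lower_all ext red qp (i1 (w11 ker dec cz)) (i2 ker dec gl) cut sum1 sum2 X p q r hp hq hr h

theorem upp (hSHIFT : S_SHIFT) (X : Type) [NormedAddCommGroup X] [NormedSpace ℂ X]
    [CompleteSpace X] (hX : UMD X) (p q r : ℝ) (hp : 1 < p) (hq : 1 < q) (hr : 1 < r)
    (h : Upper X q p) : Upper X (cj (cj q / th p r)) r :=
  upper_all norming du1 du2 hSHIFT avg mu ht bdt low X hX p q r hp hq hr h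

end Pool.Agent.Q82.LQ
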