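import Pool.Agent.Q82.LQ.Fin
import Pool.Agent.Q298.LQ.Sh2

/-! Project LQ: the upper part without hypotheses. -/

set_option autoImplicit false

namespace Pool.Agent.Q82.LQ

theorem uppF (X : Type) [NormedAddCommGroup X] [NormedSpace ℂ X]
    [CompleteSpace X] (hX : UMD X) (p q r : ℝ) (hp : 1 < p) (hq : 1 < q) (hr : 1 < r)
    (h : Upper X q p) : Upper X (cj (cj q / th p r)) r :=
  upp Pool.Agent.Q298.LQ.shift X hX p q r hp hq hr h

end Pool.Agent.Q82.LQ
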