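import Pool.Agent.Q82.LQ.Stm2

/-! Project LQ (helper82): the final theorems from the lemmas. -/

set_option autoImplicit false

namespace Pool.Agent.Q82.LQ

open MeasureTheory Set Filter Topology
open scoped ENNReal NNReal

theorem cj_gt {t : ℝ} (h : 1 < t) : 1 < cj t := by
  unfold cj
  rw [lt_div_iff₀ (by linarith)]
  linarith

theorem cj_pos {t : ℝ} (h : 1 < t) : 0 < cj t := by linarith [cj_gt h]

theorem cj_cj {t : ℝ} (h : 1 < t) : cj (cj t) = t := by
  have h1 : t - 1 ≠ 0 := by linarith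
  unfold cj
  have : t / (t - 1) - 1 = 1 / (t - 1) := by field_simp; ring
  rw [this]
  field_simp

theorem cj_anti {s t : ℝ} (hs : 1 < s) (h : s < t) : cj t < cj s := by
  have h1 : 0 < s - 1 := by linarith
  have h2 : 0 < t - 1 := by linarith
  unfold cj
  rw [div_lt_div_iff₀ h2 h1]
  nlinarith

theorem th_lt {p r : ℝ} (hr : 1 < r) (h : r < p) : th p r = cj p / cj r := by
  have hp : 1 < p := by linarith
  unfold th
  apply min_eq_right
  have h1 : cj p / cj r < 1 := by
    rw [div_lt_one (cj_pos hr)]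
    exact cj_anti hr h
  have h2 : 1 < p / r := by
    rw [lt_div_iff₀ (by linarith)]
    linarith
  linarith

theorem th_gt {p r : ℝ} (hp : 1 < p) (h : p < r) : th p r = p / r := by
  have hr : 1 < r := by linarith
  unfold th
  apply min_eq_left
  have h1 : 1 < cj p / cj r := by
    rw [lt_div_iff₀ (cj_pos hr)]
    linarith [cj_anti hp h]
  have h2 : p / r < 1 := by
    rw [div_lt_one (by linarith)]
    exact h
  linarith

theorem th_self {p : ℝ} (hp : 1 < p) : th p p = 1 := by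
  unfold th
  rw [div_self (by linarith), div_self (cj_pos hp).ne', min_self]

theorem th_pos {p r : ℝ} (hp : 1 < p) (hr : 1 < r) : 0 < th p r := by
  unfold th
  exact lt_min (div_pos (by linarith) (by linarith)) (div_pos (cj_pos hp) (cj_pos hr))

theorem th_le {p r : ℝ} (hp : 1 < p) (hr : 1 < r) : th p r ≤ 1 := by
  rcases lt_trichotomy p r with h | h | h
  · rw [th_gt hp h, div_le_one (by linarith)]
    exact h.le
  · subst h
    rw [th_self hp]
  · rw [th_lt hr h, div_le_one (cj_pos hr)]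
    exact (cj_anti hr h).le

theorem th_cj {p r : ℝ} (hp : 1 < p) (hr : 1 < r) : th (cj p) (cj r) = th p r := by
  unfold th
  rw [cj_cj hp, cj_cj hr, min_comm]

theorem lt_div_th {p q r : ℝ} (hp : 1 < p) (hq : 1 < q) (hr : 1 < r) : 1 < q / th p r := by
  rw [lt_div_iff₀ (th_pos hp hr)]
  linarith [th_le hp hr]

/-- the trivial space -/
theorem lower_trivial (X : Type) [NormedAddCommGroup X] [NormedSpace ℂ X] (hX : ∀ x : X, x = 0)
    (q p : ℝ) (hq : 1 < q) (hp : 1 < p) : Lower X q p := by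
  refine ⟨0, fun P hP c => ?_⟩
  have h0 : ∀ c : ℤ →₀ X, nrm p c = 0 := by
    intro c
    have h1 : ∀ t, ‖ev c t‖ ^ p = 0 := by
      intro t
      rw [hX (ev c t), norm_zero, Real.zero_rpow (by linarith)]
    unfold nrm
    simp only [h1, intervalIntegral.integral_zero]
    exact Real.zero_rpow (by positivity)
  simp only [h0]
  rw [Real.zero_rpow (by linarith), tsum_zero, Real.zero_rpow (by positivity)]
  simp

/-- part (b) -/
theorem lower_all (hEXT : S_EXT) (hRED : S_RED) (hQP : S_QP) (hI1 : S_I1) (hI2 : S_I2)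
    (hCUT : S_CUT) (hSUM1 : S_SUM1) (hSUM2 : S_SUM2) (X : Type) [NormedAddCommGroup X]
    [NormedSpace ℂ X] [CompleteSpace X] (p q r : ℝ) (hp : 1 < p) (hq : 1 < q) (hr : 1 < r)
    (h : Lower X q p) : Lower X (q / th p r) r := by
  have hs := lt_div_th hp hq hr
  by_cases hX : ∀ x : X, x = 0
  · exact lower_trivial X hX _ _ hs hr
  push Not at hX
  obtain ⟨L, hL⟩ := hEXT X q p hq hp h
  have hpq : p ≤ q := hQP X q p L hq hp hX hL
  rcases lt_trichotomy p r with h1 | h1 | h1
  · obtain ⟨L', hL'⟩ := hSUM2 hI2 hCUT X p q r L hp h1 hpq hL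
    have e : q / th p r = q * (r / p) := by
      rw [th_gt hp h1, div_div_eq_mul_div, mul_div_assoc]
    rw [e] at hs ⊢
    exact hRED X _ r L' hs hr hL'
  · subst h1
    rw [th_self hp, div_one]
    exact h
  · obtain ⟨L', hL'⟩ := hSUM1 hI1 hCUT X p q r L hr h1 hpq hL
    have e : q / th p r = q * (cj r / cj p) := by
      rw [th_lt hr h1, div_div_eq_mul_div, mul_div_assoc]
    rw [e] at hs ⊢
    exact hRED X _ r L' hs hr hL'

/-- part (a) -/
theorem upper_all (hNORM : S_NORM) (hDU1 : S_DU1) (hDU2 : S_DU2) (hSHIFT : S_SHIFT) (hAVG : S_AVG)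
    (hMU : S_MU) (hHT : S_HT) (hBDT : S_BDT)
    (hLow : ∀ (X : Type) [NormedAddCommGroup X] [NormedSpace ℂ X] [CompleteSpace X] (p q r : ℝ),
      1 < p → 1 < q → 1 < r → Lower X q p → Lower X (q / th p r) r)
    (X : Type) [NormedAddCommGroup X] [NormedSpace ℂ X] [CompleteSpace X] (hX : UMD X)
    (p q r : ℝ) (hp : 1 < p) (hq : 1 < q) (hr : 1 < r) (h : Upper X q p) :
    Upper X (cj (cj q / th p r)) r := by
  obtain ⟨B, hB⟩ := hHT hSHIFT hAVG hMU X hX p hp
  have h1 := hDU1 hNORM X p q hp hq h (hBDT X p B hp hB)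
  have h2 := hLow (StrongDual ℂ X) (cj p) (cj q) (cj r) (cj_gt hp) (cj_gt hq) (cj_gt hr) h1
  rw [th_cj hp hr] at h2
  have h3 : 1 < cj q / th p r := lt_div_th hp (cj_gt hq) hr
  refine hDU2 hNORM X r _ hr (cj_gt h3) ?_
  rw [cj_cj h3]
  exact h2

/-- the scalars -/
theorem scalar_lower (hPAR : S_PAR)
    (hLow : ∀ (X : Type) [NormedAddCommGroup X] [NormedSpace ℂ X] [CompleteSpace X] (p q r : ℝ),
      1 < p → 1 < q → 1 < r → Lower X q p → Lower X (q / th p r) r)
    (p : ℝ) (hp : 1 < p) (hp2 : p < 2) : Lower ℂ (cj p) p ∧ Lower (StrongDual ℂ ℂ) (cj p) p := by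
  have e : 2 / th 2 p = cj p := by
    rw [th_lt hp hp2]
    have : cj 2 = 2 := by unfold cj; norm_num
    rw [this]
    have := (cj_pos hp).ne'
    field_simp
  have h2 : (1 : ℝ) < 2 := by norm_num
  constructor
  · have := hLow ℂ 2 2 p h2 h2 hp hPAR.1
    rwa [e] at this
  · have := hLow (StrongDual ℂ ℂ) 2 2 p h2 h2 hp hPAR.2
    rwa [e] at this

theorem scalar_upper (hNORM : S_NORM) (hDU2 : S_DU2)
    (hS : ∀ p : ℝ, 1 < p → p < 2 → Lower (StrongDual ℂ ℂ) (cj p) p) (p : ℝ) (hp : 2 < p) :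
    Upper ℂ (cj p) p := by
  have hp1 : 1 < p := by linarith
  have h2 : cj p < 2 := by
    have := cj_anti (by norm_num : (1 : ℝ) < 2) hp
    have e : cj 2 = 2 := by unfold cj; norm_num
    rwa [e] at this
  exact hDU2 hNORM ℂ p (cj p) hp1 (cj_gt hp1) (hS (cj p) (cj_gt hp1) h2)

end Pool.Agent.Q82.LQ
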