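import Pool.Agent.Q82.LQ.Fej
import Pool.Agent.Q82.LQ.Stm2

/-! Project LQ: the Hilbert transform and the boundedness of all `D_I`. -/

set_option autoImplicit false

namespace Pool.Agent.Q82.LQ

open MeasureTheory Set Filter Topology Pool.Agent.Q298.LQ
open scoped ENNReal NNReal

section

variable {X : Type} [NormedAddCommGroup X] [NormedSpace ℂ X]

/-- the `L^p` norm -/
noncomputable def nE (p : ℝ) (g : ℝ → X) : ℝ≥0∞ := Nn p g ^ (1 / p)

theorem nE_rpow {p : ℝ} (hp : 0 < p) (g : ℝ → X) : nE p g ^ p = Nn p g := by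
  unfold nE
  rw [← ENNReal.rpow_mul, one_div_mul_cancel hp.ne', ENNReal.rpow_one]

theorem nE_add_le {p : ℝ} (hp : 1 ≤ p) {g h : ℝ → X} (hg : BM g) (hh : BM h) :
    nE p (fun x => g x + h x) ≤ nE p g + nE p h := by
  unfold nE Nn
  refine le_trans ?_ (ENNReal.lintegral_Lp_add_le (μ := volume.restrict (Ico (0 : ℝ) 1))
    hg.1.enorm.aemeasurable hh.1.enorm.aemeasurable hp)
  refine ENNReal.rpow_le_rpow (lintegral_mono fun x => ?_) (by positivity)
  exact ENNReal.rpow_le_rpow (enorm_add_le _ _) (by linarith)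

theorem nE_smul {p : ℝ} (hp : 0 < p) (a : ℂ) (g : ℝ → X) :
    nE p (fun x => a • g x) = ‖a‖ₑ * nE p g := by
  unfold nE Nn
  have h1 : ∀ x, ‖a • g x‖ₑ ^ p = ‖a‖ₑ ^ p * ‖g x‖ₑ ^ p := by
    intro x
    rw [enorm_smul, ENNReal.mul_rpow_of_nonneg _ _ hp.le]
  simp only [h1]
  rw [lintegral_const_mul' _ _ (ENNReal.rpow_ne_top_of_nonneg hp.le enorm_ne_top),
    ENNReal.mul_rpow_of_nonneg _ _ (by positivity), ← ENNReal.rpow_mul,
    mul_one_div_cancel hp.ne', ENNReal.rpow_one]

theorem nE_sum_le {p : ℝ} (hp : 1 ≤ p) {ι : Type} (s : Finset ι) (g : ι → ℝ → X)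
    (hg : ∀ i ∈ s, BM (g i)) : nE p (fun x => ∑ i ∈ s, g i x) ≤ ∑ i ∈ s, nE p (g i) := by
  classical
  have key : ∀ s : Finset ι, (∀ i ∈ s, BM (g i)) →
      BM (fun x => ∑ i ∈ s, g i x) ∧ nE p (fun x => ∑ i ∈ s, g i x) ≤ ∑ i ∈ s, nE p (g i) := by
    intro s
    induction s using Finset.induction_on with
    | empty =>
      intro _
      simp only [Finset.sum_empty]
      refine ⟨⟨stronglyMeasurable_const, 0, fun x => by simp⟩, ?_⟩
      unfold nE Nn
      simp only [enorm_zero]
      rw [ENNReal.zero_rpow_of_pos (by linarith), lintegral_zero,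
        ENNReal.zero_rpow_of_pos (by positivity)]
    | insert i s hi ih =>
      intro h
      obtain ⟨h1, h2⟩ := ih fun j hj => h j (Finset.mem_insert_of_mem hj)
      have h3 := h i (Finset.mem_insert_self _ _)
      simp only [Finset.sum_insert hi]
      refine ⟨?_, ?_⟩
      · obtain ⟨h4, M, hM⟩ := h1
        obtain ⟨h5, M', hM'⟩ := h3
        exact ⟨h5.add h4, M' + M, fun x => (norm_add_le _ _).trans (add_le_add (hM' x) (hM x))⟩
      · exact (nE_add_le hp h3 h1).trans (add_le_add le_rfl h2)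
  exact (key s hg).2

theorem nE_lt_top {p : ℝ} (hp : 0 ≤ p) {g : ℝ → X} (hg : BM g) : nE p g < ⊤ :=
  ENNReal.rpow_lt_top_of_nonneg (by positivity) (Nn_lt_top hp hg).ne

theorem nE_le_iff {p : ℝ} (hp : 0 < p) (B : ℝ≥0∞) (g h : ℝ → X) :
    nE p g ≤ B * nE p h ↔ Nn p g ≤ B ^ p * Nn p h := by
  rw [← nE_rpow hp g, ← nE_rpow hp h, ← ENNReal.mul_rpow_of_nonneg _ _ hp.le,
    ENNReal.rpow_le_rpow_iff hp]

theorem nE_ev {p : ℝ} (hp : 0 < p) (c : ℤ →₀ X) : nE p (ev c) = ENNReal.ofReal (nrm p c) := by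
  unfold nE
  rw [Nn_ev hp, ← ENNReal.rpow_mul, mul_one_div_cancel hp.ne', ENNReal.rpow_one]

theorem nE_le_const {p : ℝ} (hp : 0 < p) {g : ℝ → X} (M : ℝ) (hM : ∀ x, ‖g x‖ ≤ M) :
    nE p g ≤ ENNReal.ofReal M := by
  have h1 : Nn p g ≤ ENNReal.ofReal M ^ p := by
    calc Nn p g ≤ ∫⁻ x in Ico (0 : ℝ) 1, ENNReal.ofReal M ^ p := by
          refine lintegral_mono fun x => ENNReal.rpow_le_rpow ?_ hp.le
          rw [← ofReal_norm_eq_enorm]
          exact ENNReal.ofReal_le_ofReal (hM x)
      _ = _ := by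
          rw [setLIntegral_const, Real.volume_Ico]
          norm_num
  unfold nE
  refine (ENNReal.rpow_le_rpow h1 (by positivity)).trans (le_of_eq ?_)
  rw [← ENNReal.rpow_mul, mul_one_div_cancel hp.ne', ENNReal.rpow_one]

/-- multiply the coefficients -/
noncomputable def mulc (l : ℤ → ℂ) (c : ℤ →₀ X) : ℤ →₀ X :=
  Finsupp.onFinset c.support (fun n => l n • c n) (by
    intro n hn
    rw [Finsupp.mem_support_iff]
    intro h
    apply hn
    rw [h, smul_zero])

theorem mulc_apply (l : ℤ → ℂ) (c : ℤ →₀ X) (n : ℤ) : mulc l c n = l n • c n := rfl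

theorem evm_sum (l : ℤ → ℂ) (c : ℤ →₀ X) (s : Finset ℤ) (h : c.support ⊆ s) (t : ℝ) :
    evm l c t = ∑ n ∈ s, (l n * ex n t) • c n := by
  unfold evm
  exact Finsupp.sum_of_support_subset c h _ (fun n _ => smul_zero _)

theorem ev_mulc (l : ℤ → ℂ) (c : ℤ →₀ X) (t : ℝ) : ev (mulc l c) t = evm l c t := by
  rw [ev_sum (mulc l c) c.support Finsupp.support_onFinset_subset, evm_sum l c c.support
    (Finset.Subset.refl _)]
  refine Finset.sum_congr rfl fun n _ => ?_
  rw [mulc_apply, smul_smul, mul_comm]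

/-- shift of the frequencies -/
noncomputable def shf (a : ℤ) (c : ℤ →₀ X) : ℤ →₀ X := Finsupp.equivMapDomain (Equiv.addRight a) c

theorem shf_apply (a : ℤ) (c : ℤ →₀ X) (n : ℤ) : shf a c n = c (n - a) := by
  unfold shf
  rw [Finsupp.equivMapDomain_apply]
  rfl

theorem ev_shf (a : ℤ) (c : ℤ →₀ X) (t : ℝ) : ev (shf a c) t = ex a t • ev c t := by
  have h1 : ev (shf a c) t = c.sum (fun n x => ex (n + a) t • x) := by
    unfold ev shf
    rw [Finsupp.equivMapDomain_eq_mapDomain, Finsupp.sum_mapDomain_index]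
    · rfl
    · intro b
      exact smul_zero _
    · intro b x y
      exact smul_add _ _ _
  rw [h1]
  unfold ev Finsupp.sum
  rw [Finset.smul_sum]
  refine Finset.sum_congr rfl fun n _ => ?_
  beta_reduce
  rw [smul_smul, ex_add, mul_comm]

theorem nE_shf (p : ℝ) (a : ℤ) (c : ℤ →₀ X) : nE p (ev (shf a c)) = nE p (ev c) := by
  unfold nE
  have : ev (shf a c) = fun y => ex a y • ev c y := by
    funext y
    exact ev_shf a c y
  rw [this, Nn_mod]

theorem nE_congr {p : ℝ} {g h : ℝ → X} (H : ∀ x, g x = h x) : nE p g = nE p h := by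
  have : g = h := funext H
  rw [this]

end

theorem bdt : S_BDT := by
  intro X _ _ _ p B hp h
  have hp0 : 0 < p := by linarith
  have hH : ∀ c : ℤ →₀ X, nE p (ev (mulc (fun n => ((n.sign : ℝ) : ℂ)) c)) ≤ B * nE p (ev c) := by
    intro c
    rw [nE_congr (ev_mulc _ c), nE_le_iff hp0]
    exact h c
  -- the mean
  have h0 : ∀ c : ℤ →₀ X, nE p (ev (Finsupp.single 0 (c 0))) ≤ nE p (ev c) := by
    intro c
    have h1 : ‖c 0‖ₑ ^ p ≤ Nn p (ev c) := by
      have h2 : ‖c 0‖ₑ ≤ ∫⁻ y in Ico (0 : ℝ) 1, 1 * ‖ev c y‖ₑ := by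
        rw [← fc_ev c 0]
        unfold fc
        refine (enorm_integral_le_lintegral_enorm _).trans (le_of_eq ?_)
        refine lintegral_congr fun y => ?_
        rw [neg_zero, ex_zero, one_smul, one_mul]
      refine (ENNReal.rpow_le_rpow h2 hp0.le).trans ?_
      have h3 := jensen_w (μ := volume.restrict (Ico (0 : ℝ) 1)) hp (k := fun _ => 1)
        (f := fun y => ‖ev c y‖ₑ) measurable_const (ev_BM c).1.enorm (by
          rw [setLIntegral_const, Real.volume_Ico]
          norm_num)
      refine h3.trans (le_of_eq ?_)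
      unfold Nn
      refine lintegral_congr fun y => ?_
      rw [one_mul]
    have h2 : Nn p (ev (Finsupp.single 0 (c 0))) = ‖c 0‖ₑ ^ p := by
      unfold Nn
      have : ∀ x, ‖ev (Finsupp.single 0 (c 0)) x‖ₑ ^ p = ‖c 0‖ₑ ^ p := by
        intro x
        rw [ev_single, ex_zero, one_smul]
      simp only [this]
      rw [setLIntegral_const, Real.volume_Ico]
      norm_num
    unfold nE
    rw [h2]
    exact ENNReal.rpow_le_rpow h1 (by positivity)
  -- the half line from 0
  have h1 : ∀ c : ℤ →₀ X, nE p (ev (DI (Ici 0) c)) ≤ (1 + B) * nE p (ev c) := by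
    intro c
    have e : DI (Ici 0) c = (1 / 2 : ℂ) • (c + mulc (fun n => ((n.sign : ℝ) : ℂ)) c +
        Finsupp.single 0 (c 0)) := by
      classical
      ext n
      rw [DI_apply, Finsupp.smul_apply, Finsupp.add_apply, Finsupp.add_apply, mulc_apply,
        Finsupp.single_apply]
      rcases lt_trichotomy n 0 with hn | hn | hn
      · rw [if_neg (by simp [hn]), if_neg (by omega), Int.sign_eq_neg_one_of_neg hn]
        simp
      · subst hn
        simp only [mem_Ici, le_refl, if_true, Int.sign_zero, Int.cast_zero, Complex.ofReal_zero,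
          zero_smul, add_zero]
        rw [← two_smul ℂ (c 0), smul_smul]
        norm_num
      · rw [if_pos (by simp [hn.le]), if_neg (by omega), Int.sign_eq_one_of_pos hn]
        simp only [Int.cast_one, Complex.ofReal_one, one_smul, add_zero]
        rw [← two_smul ℂ (c n), smul_smul]
        norm_num
    rw [e, nE_congr (ev_smul _ _), nE_smul hp0]
    have h2 : nE p (ev (c + mulc (fun n => ((n.sign : ℝ) : ℂ)) c + Finsupp.single 0 (c 0))) ≤
        nE p (ev c) + B * nE p (ev c) + nE p (ev c) := by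
      rw [nE_congr (ev_add _ _)]
      refine (nE_add_le hp.le (ev_BM _) (ev_BM _)).trans (add_le_add ?_ (h0 c))
      rw [nE_congr (ev_add _ _)]
      exact (nE_add_le hp.le (ev_BM _) (ev_BM _)).trans (add_le_add le_rfl (hH c))
    have h3 : ‖(1 / 2 : ℂ)‖ₑ = 1 / 2 := by
      rw [← ofReal_norm_eq_enorm, norm_div, norm_one, Complex.norm_ofNat, one_div,
        ENNReal.ofReal_inv_of_pos (by norm_num)]
      norm_num
    rw [h3]
    calc (1 / 2 : ℝ≥0∞) * nE p (ev (c + mulc (fun n => ((n.sign : ℝ) : ℂ)) c +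
          Finsupp.single 0 (c 0)))
        ≤ (1 / 2 : ℝ≥0∞) * (nE p (ev c) + B * nE p (ev c) + nE p (ev c)) := mul_le_mul_right h2 _
      _ ≤ (1 / 2 : ℝ≥0∞) * (2 * ((1 + B) * nE p (ev c))) := by
          refine mul_le_mul_right ?_ _
          have : 2 * ((1 + (B : ℝ≥0∞)) * nE p (ev c)) =
              nE p (ev c) + B * nE p (ev c) + nE p (ev c) + B * nE p (ev c) := by ring
          rw [this]
          exact le_self_add
      _ = (1 + B) * nE p (ev c) := by
          rw [← mul_assoc, one_div, ENNReal.inv_mul_cancel two_ne_zero ENNReal.ofNat_ne_top, one_mul]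
  -- other half lines
  have h2 : ∀ (a : ℤ) (c : ℤ →₀ X), nE p (ev (DI (Ici a) c)) ≤ (1 + B) * nE p (ev c) := by
    intro a c
    have e : DI (Ici a) c = shf a (DI (Ici 0) (shf (-a) c)) := by
      classical
      ext n
      rw [DI_apply, shf_apply, DI_apply, shf_apply]
      by_cases hn : a ≤ n
      · rw [if_pos (by exact hn), if_pos (by simp only [mem_Ici]; omega)]
        congr 1
        ring
      · rw [if_neg (by exact hn), if_neg (by simp only [mem_Ici]; omega)]
    rw [e, nE_shf]
    refine (h1 _).trans ?_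
    rw [nE_shf]
  refine ⟨2 * (1 + B), fun I hI c => ?_⟩
  have hB0 : (0 : ℝ) ≤ B := NNReal.zero_le_coe
  by_cases hne : ∃ n ∈ c.support, n ∈ I
  · obtain ⟨a, b, ha, hb, hab⟩ := box I hI c hne
    rw [hab]
    by_cases hle : a ≤ b
    · have e : DI (Icc a b) c = DI (Ici a) c + (-1 : ℂ) • DI (Ici (b + 1)) c := by
        classical
        ext n
        rw [Finsupp.add_apply, Finsupp.smul_apply, DI_apply, DI_apply, DI_apply]
        by_cases h3 : a ≤ n
        · by_cases h4 : n ≤ b
          · rw [if_pos (by exact ⟨h3, h4⟩), if_pos (by exact h3),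
              if_neg (by simp only [mem_Ici]; omega)]
            simp
          · rw [if_neg (fun h => h4 h.2), if_pos (by exact h3),
              if_pos (by simp only [mem_Ici]; omega)]
            simp
        · rw [if_neg (fun h => h3 h.1), if_neg (by exact h3),
            if_neg (by simp only [mem_Ici]; omega)]
          simp
      have h5 : nE p (ev (DI (Icc a b) c)) ≤ 2 * (1 + B) * nE p (ev c) := by
        rw [e, nE_congr (ev_add _ _)]
        refine (nE_add_le hp.le (ev_BM _) (ev_BM _)).trans ?_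
        rw [nE_congr (ev_smul (-1) _), nE_smul hp0]
        have : ‖(-1 : ℂ)‖ₑ = 1 := by
          rw [← ofReal_norm_eq_enorm]
          norm_num
        rw [this, one_mul]
        refine (add_le_add (h2 a c) (h2 (b + 1) c)).trans (le_of_eq ?_)
        ring
      rw [nE_ev hp0, nE_ev hp0] at h5
      have h6 : (2 * (1 + (B : ℝ≥0∞))) = ENNReal.ofReal (2 * (1 + B)) := by
        rw [ENNReal.ofReal_mul (by norm_num), ENNReal.ofReal_add zero_le_one hB0,
          ENNReal.ofReal_coe_nnreal]
        norm_num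
      rw [h6, ← ENNReal.ofReal_mul (by positivity)] at h5
      exact (ENNReal.ofReal_le_ofReal_iff (mul_nonneg (by positivity) (nrm_nonneg _ _))).1 h5
    · have : DI (Icc a b) c = 0 := by
        refine DI_eq_zero _ _ fun n _ hn => ?_
        exact hle (hn.1.trans hn.2)
      rw [this, nrm_zero hp0]
      exact mul_nonneg (by positivity) (nrm_nonneg _ _)
  · rw [DI_eq_zero I c (fun n hn hnI => hne ⟨n, hn, hnI⟩), nrm_zero hp0]
    exact mul_nonneg (by positivity) (nrm_nonneg _ _)

/-! ### dilations -/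

section

variable {X : Type} [NormedAddCommGroup X] [NormedSpace ℂ X]

theorem Nn_cont {p : ℝ} (hp : 0 < p) {G : ℝ → X} (hG : Continuous G) :
    Nn p G = ENNReal.ofReal (∫ t in (0 : ℝ)..1, ‖G t‖ ^ p) := by
  rw [intervalIntegral.integral_of_le zero_le_one, integral_Ioc_eq_integral_Ioo,
    ← integral_Ico_eq_integral_Ioo, ofReal_integral_eq_lintegral_ofReal]
  · unfold Nn
    refine lintegral_congr fun x => ?_
    rw [← ofReal_norm_eq_enorm, ENNReal.ofReal_rpow_of_nonneg (norm_nonneg _) hp.le]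
  · have hc : Continuous fun t => ‖G t‖ ^ p := hG.norm.rpow_const fun _ => Or.inr hp.le
    exact (hc.integrableOn_Icc (a := 0) (b := 1)).mono_set Ico_subset_Icc_self
  · refine ae_of_all _ fun x => ?_
    positivity

theorem Nn_dil {p : ℝ} (hp : 0 < p) {G : ℝ → X} (hG : Continuous G) (hper : ∀ x, G (x + 1) = G x)
    (L : ℕ) (hL : 0 < L) : Nn p (fun x => G (L * x)) = Nn p G := by
  have hL' : (L : ℝ) ≠ 0 := by exact_mod_cast hL.ne'
  have hG2 : Continuous fun x : ℝ => G (L * x) := hG.comp (continuous_const.mul continuous_id)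
  rw [Nn_cont hp hG2, Nn_cont hp hG]
  congr 1
  have h1 := intervalIntegral.integral_comp_mul_left (a := 0) (b := 1) (fun t => ‖G t‖ ^ p) hL'
  rw [h1, mul_zero, mul_one]
  have hc : Continuous fun t => ‖G t‖ ^ p := hG.norm.rpow_const fun _ => Or.inr hp.le
  have hP : Function.Periodic (fun t => ‖G t‖ ^ p) 1 := fun t => by
    beta_reduce
    rw [hper]
  have h2 := hP.intervalIntegral_add_zsmul_eq (L : ℤ) 0 (fun a b => hc.intervalIntegrable a b)
  rw [zero_add, zero_add] at h2
  have e : ((L : ℤ) • (1 : ℝ)) = L := by simp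
  rw [e] at h2
  rw [h2, zsmul_eq_mul, smul_eq_mul, Int.cast_natCast, inv_mul_cancel_left₀ hL']

theorem evm_cont (l : ℤ → ℂ) (c : ℤ →₀ X) : Continuous (evm l c) := by
  have : evm l c = ev (mulc l c) := by
    funext t
    exact (ev_mulc l c t).symm
  rw [this]
  exact ev_cont _

theorem evm_BM (l : ℤ → ℂ) (c : ℤ →₀ X) : BM (evm l c) := by
  have : evm l c = ev (mulc l c) := by
    funext t
    exact (ev_mulc l c t).symm
  rw [this]
  exact ev_BM _

theorem evm_per (l : ℤ → ℂ) (c : ℤ →₀ X) (x : ℝ) : evm l c (x + 1) = evm l c x := by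
  rw [evm_sum l c _ (Finset.Subset.refl _), evm_sum l c _ (Finset.Subset.refl _)]
  refine Finset.sum_congr rfl fun n _ => ?_
  rw [ex_add_one]

theorem ev_eq_evm (c : ℤ →₀ X) (x : ℝ) : ev c x = evm (fun _ => 1) c x := by
  rw [ev_sum c _ (Finset.Subset.refl _), evm_sum _ c _ (Finset.Subset.refl _)]
  refine Finset.sum_congr rfl fun n _ => ?_
  rw [one_mul]

/-- dilation of the frequencies -/
noncomputable def dil (L : ℕ) (c : ℤ →₀ X) : ℤ →₀ X := Finsupp.mapDomain (fun n => (L : ℤ) * n) c

theorem evm_dil (l : ℤ → ℂ) (L : ℕ) (c : ℤ →₀ X) (t : ℝ) :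
    evm l (dil L c) t = evm (fun n => l ((L : ℤ) * n)) c (L * t) := by
  unfold evm dil
  rw [Finsupp.sum_mapDomain_index]
  · unfold Finsupp.sum
    refine Finset.sum_congr rfl fun n _ => ?_
    have : ex ((L : ℤ) * n) t = ex n (L * t) := by
      unfold ex
      congr 1
      push_cast
      ring
    beta_reduce
    rw [this]
  · intro b
    exact smul_zero _
  · intro b x y
    exact smul_add _ _ _

end

theorem sum_inv_le (N : ℕ) (hN : 0 < N) : ∑ m ∈ Finset.Ico N (2 * N), (1 / (m : ℝ)) ≤ 1 := by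
  have hN' : (0 : ℝ) < N := by exact_mod_cast hN
  calc ∑ m ∈ Finset.Ico N (2 * N), (1 / (m : ℝ)) ≤ ∑ m ∈ Finset.Ico N (2 * N), (1 / (N : ℝ)) := by
        refine Finset.sum_le_sum fun m hm => ?_
        have : (N : ℝ) ≤ m := by exact_mod_cast (Finset.mem_Ico.1 hm).1
        exact one_div_le_one_div_of_le hN' this
    _ = 1 := by
        rw [Finset.sum_const, Nat.card_Ico, nsmul_eq_mul]
        have : ((2 * N - N : ℕ) : ℝ) = N := by
          congr 1
          omega
        rw [this]
        field_simp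

theorem ht : S_HT := by
  rintro hSH hAV ⟨C, hC, hMU⟩ X _ _ _ hU p hp
  have hp0 : 0 < p := by linarith
  obtain ⟨B, hB⟩ := hSH X hU p hp
  set C' : ℝ≥0 := C.toNNReal with hC'
  have hC'0 : C' ≠ 0 := by
    rw [hC']
    exact (Real.toNNReal_pos.2 hC).ne'
  refine ⟨B / C', fun c => ?_⟩
  have hcC : (C' : ℝ≥0∞) ≠ 0 := by exact_mod_cast hC'0
  rw [← nE_le_iff hp0, ENNReal.coe_div hC'0]
  set S : ℝ := ∑ n ∈ c.support, ‖c n‖ with hS
  have hS0 : 0 ≤ S := Finset.sum_nonneg fun n _ => norm_nonneg _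
  set sg : ℤ → ℂ := fun n => ((n.sign : ℝ) : ℂ) with hsg
  have main : ∀ δ : ℝ, 0 < δ →
      (C' : ℝ≥0∞) * nE p (evm sg c) ≤ B * nE p (ev c) + ENNReal.ofReal (δ * S) := by
    intro δ hδ
    obtain ⟨N, K, L, hN, hL, hΛ⟩ := hMU δ hδ (c.support.sup Int.natAbs)
    set lam : ℕ → ℤ → ℂ := fun m n => ∑ k ∈ Finset.range K, muH (n / (m * 2 ^ k)) with hlam
    set G : ℕ → ℝ → X := fun m => evm (fun n => lam m ((L : ℤ) * n)) c with hG
    have hG1 : ∀ m : ℕ, 0 < m → nE p (G m) ≤ B * nE p (ev c) := by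
      intro m hm
      have h1 := hAV X p B m K hp hm (hB m K hm) (dil L c)
      rw [← nE_le_iff hp0] at h1
      have e1 : nE p (evm (lam m) (dil L c)) = nE p (G m) := by
        unfold nE
        congr 1
        have : evm (lam m) (dil L c) = fun t => G m (L * t) := by
          funext t
          exact evm_dil (lam m) L c t
        rw [this]
        exact Nn_dil hp0 (evm_cont _ _) (evm_per _ _) L hL
      have e2 : nE p (ev (dil L c)) = nE p (ev c) := by
        unfold nE
        congr 1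
        have h2 : ev (dil L c) = fun t => evm (fun _ => 1) c (L * t) := by
          funext t
          rw [ev_eq_evm, evm_dil]
        have h3 : ev c = evm (fun _ => 1) c := by
          funext t
          exact ev_eq_evm c t
        rw [h2, h3]
        exact Nn_dil hp0 (evm_cont _ _) (evm_per _ _) L hL
      rw [e1, e2] at h1
      exact h1
    set Lam : ℤ → ℂ := fun n => ∑ m ∈ Finset.Ico N (2 * N), ((1 / (m : ℝ) : ℝ) : ℂ) *
      lam m ((L : ℤ) * n) with hLam
    have hsum : ∀ x, ∑ m ∈ Finset.Ico N (2 * N), ((1 / (m : ℝ) : ℝ) : ℂ) • G m x = evm Lam c x := by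
      intro x
      rw [evm_sum Lam c _ (Finset.Subset.refl _)]
      simp only [hG]
      have : ∀ m ∈ Finset.Ico N (2 * N), ((1 / (m : ℝ) : ℝ) : ℂ) •
          evm (fun n => lam m ((L : ℤ) * n)) c x =
          ∑ n ∈ c.support, ((((1 / (m : ℝ) : ℝ) : ℂ) * lam m ((L : ℤ) * n)) * ex n x) • c n := by
        intro m _
        rw [evm_sum _ c _ (Finset.Subset.refl _), Finset.smul_sum]
        refine Finset.sum_congr rfl fun n _ => ?_
        rw [smul_smul, mul_assoc]
      rw [Finset.sum_congr rfl this, Finset.sum_comm]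
      refine Finset.sum_congr rfl fun n _ => ?_
      rw [← Finset.sum_smul, ← Finset.sum_mul]
    have h2 : nE p (evm Lam c) ≤ B * nE p (ev c) := by
      rw [← nE_congr hsum]
      have h3 : ∀ m ∈ Finset.Ico N (2 * N), BM (fun x => ((1 / (m : ℝ) : ℝ) : ℂ) • G m x) := by
        intro m _
        obtain ⟨h4, M, hM⟩ := evm_BM (fun n => lam m ((L : ℤ) * n)) c
        refine ⟨h4.const_smul _, ‖((1 / (m : ℝ) : ℝ) : ℂ)‖ * M, fun x => ?_⟩
        rw [norm_smul]
        exact mul_le_mul_of_nonneg_left (hM x) (norm_nonneg _)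
      refine (nE_sum_le hp.le _ _ h3).trans ?_
      have h4 : ∀ m ∈ Finset.Ico N (2 * N), nE p (fun x => ((1 / (m : ℝ) : ℝ) : ℂ) • G m x) ≤
          ENNReal.ofReal (1 / (m : ℝ)) * (B * nE p (ev c)) := by
        intro m hm
        rw [nE_smul hp0, ← ofReal_norm_eq_enorm, Complex.norm_real,
          Real.norm_of_nonneg (by positivity)]
        refine mul_le_mul_right (hG1 m ?_) _
        have := (Finset.mem_Ico.1 hm).1
        omega
      refine (Finset.sum_le_sum h4).trans ?_
      rw [← Finset.sum_mul, ← ENNReal.ofReal_sum_of_nonneg (fun m _ => by positivity)]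
      calc ENNReal.ofReal (∑ m ∈ Finset.Ico N (2 * N), 1 / (m : ℝ)) * (B * nE p (ev c))
          ≤ 1 * (B * nE p (ev c)) := by
            refine mul_le_mul_left ?_ _
            rw [← ENNReal.ofReal_one]
            exact ENNReal.ofReal_le_ofReal (sum_inv_le N hN)
        _ = _ := one_mul _
    -- the error
    have h3 : ∀ n ∈ c.support, ‖Lam n + Complex.I * (C * (n.sign : ℝ) : ℝ)‖ ≤ δ := by
      intro n hn
      by_cases hn0 : n = 0
      · subst hn0
        have : Lam 0 = 0 := by
          simp only [hLam, hlam]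
          refine Finset.sum_eq_zero fun m _ => ?_
          rw [Finset.sum_eq_zero, mul_zero]
          intro k _
          simp [muH]
        rw [this]
        simp [hδ.le]
      · have h4 : |n| ≤ ((c.support.sup Int.natAbs : ℕ) : ℤ) := by
          rw [← Int.natCast_natAbs]
          exact_mod_cast Finset.le_sup (f := Int.natAbs) hn
        have h5 := (hΛ n hn0 h4).le
        refine le_trans (le_of_eq ?_) h5
        rfl
    have h4 : nE p (fun x => -(Complex.I * (C : ℂ)) • evm sg c x) ≤
        B * nE p (ev c) + ENNReal.ofReal (δ * S) := by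
      have h5 : ∀ x, -(Complex.I * (C : ℂ)) • evm sg c x = evm Lam c x +
          (-1 : ℂ) • evm (fun n => Lam n + Complex.I * (C * (n.sign : ℝ) : ℝ)) c x := by
        intro x
        rw [evm_sum sg c _ (Finset.Subset.refl _), evm_sum Lam c _ (Finset.Subset.refl _),
          evm_sum _ c _ (Finset.Subset.refl _), Finset.smul_sum, Finset.smul_sum,
          ← Finset.sum_add_distrib]
        refine Finset.sum_congr rfl fun n _ => ?_
        rw [smul_smul, smul_smul, ← add_smul]
        congr 1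
        simp only [hsg]
        push_cast
        ring
      rw [nE_congr h5]
      have hbm : BM fun x => (-1 : ℂ) • evm (fun n => Lam n + Complex.I * (C * (n.sign : ℝ) : ℝ)) c x := by
        obtain ⟨h4, M, hM⟩ := evm_BM (fun n => Lam n + Complex.I * (C * (n.sign : ℝ) : ℝ)) c
        refine ⟨h4.const_smul _, M, fun x => ?_⟩
        rw [norm_smul, norm_neg, norm_one, one_mul]
        exact hM x
      refine (nE_add_le hp.le (evm_BM _ _) hbm).trans (add_le_add h2 ?_)
      refine nE_le_const hp0 _ fun x => ?_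
      rw [norm_smul, norm_neg, norm_one, one_mul, evm_sum _ c _ (Finset.Subset.refl _)]
      refine (norm_sum_le _ _).trans ?_
      rw [hS, Finset.mul_sum]
      refine Finset.sum_le_sum fun n hn => ?_
      rw [norm_smul, norm_mul, norm_ex, mul_one]
      exact mul_le_mul_of_nonneg_right (h3 n hn) (norm_nonneg _)
    rw [nE_smul hp0] at h4
    have h5 : ‖-(Complex.I * (C : ℂ))‖ₑ = C' := by
      rw [← ofReal_norm_eq_enorm, norm_neg, norm_mul, Complex.norm_I, one_mul, Complex.norm_real,
        Real.norm_of_nonneg hC.le]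
      rfl
    rwa [h5] at h4
  -- let δ tend to zero
  have h1 : (C' : ℝ≥0∞) * nE p (evm sg c) ≤ B * nE p (ev c) := by
    have hlim : Tendsto (fun δ : ℝ => B * nE p (ev c) + ENNReal.ofReal (δ * S)) (𝓝[>] 0)
        (𝓝 (B * nE p (ev c) + 0)) := by
      refine tendsto_const_nhds.add ?_
      have h2 : Tendsto (fun δ : ℝ => ENNReal.ofReal (δ * S)) (𝓝 0) (𝓝 (ENNReal.ofReal (0 * S))) :=
        (ENNReal.continuous_ofReal.tendsto _).comp ((continuous_id.mul continuous_const).tendsto 0)
      rw [zero_mul, ENNReal.ofReal_zero] at h2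
      exact h2.mono_left nhdsWithin_le_nhds
    rw [add_zero] at hlim
    refine ge_of_tendsto hlim ?_
    filter_upwards [self_mem_nhdsWithin] with δ hδ
    exact main δ hδ
  rw [ENNReal.div_eq_inv_mul, mul_assoc, ← ENNReal.mul_le_iff_le_inv hcC ENNReal.coe_ne_top]
  exact h1

end Pool.Agent.Q82.LQ
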