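import Pool.Agent.Q82.LQ.Sum

/-! Project LQ: trigonometric polynomials, partitions. -/

set_option autoImplicit false

namespace Pool.Agent.Q82.LQ

open MeasureTheory Set Filter Topology Pool.Agent.Q298.LQ
open scoped ENNReal NNReal

section

variable {X : Type} [NormedAddCommGroup X] [NormedSpace ℂ X]

theorem ev_sum (c : ℤ →₀ X) (s : Finset ℤ) (h : c.support ⊆ s) (t : ℝ) :
    ev c t = ∑ n ∈ s, ex n t • c n := by
  unfold ev
  exact Finsupp.sum_of_support_subset c h _ (fun n _ => smul_zero _)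

theorem ev_cont (c : ℤ →₀ X) : Continuous (ev c) := by
  have : ev c = fun t => ∑ n ∈ c.support, ex n t • c n := by
    funext t
    exact ev_sum c _ (Finset.Subset.refl _) t
  rw [this]
  exact continuous_finsetSum _ fun n _ => (continuous_ex n).smul continuous_const

theorem ev_bdd (c : ℤ →₀ X) (t : ℝ) : ‖ev c t‖ ≤ ∑ n ∈ c.support, ‖c n‖ := by
  rw [ev_sum c _ (Finset.Subset.refl _) t]
  refine (norm_sum_le _ _).trans (Finset.sum_le_sum fun n _ => ?_)
  rw [norm_smul, norm_ex, one_mul]

theorem ev_BM (c : ℤ →₀ X) : BM (ev c) := BM_of_cont (ev_cont c) _ (ev_bdd c)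

theorem ev_zero (t : ℝ) : ev (0 : ℤ →₀ X) t = 0 := by
  unfold ev
  exact Finsupp.sum_zero_index

theorem ev_add (c d : ℤ →₀ X) (t : ℝ) : ev (c + d) t = ev c t + ev d t := by
  classical
  rw [ev_sum (c + d) (c.support ∪ d.support) Finsupp.support_add,
    ev_sum c (c.support ∪ d.support) Finset.subset_union_left,
    ev_sum d (c.support ∪ d.support) Finset.subset_union_right, ← Finset.sum_add_distrib]
  refine Finset.sum_congr rfl fun n _ => ?_
  rw [Finsupp.add_apply, smul_add]

theorem ev_smul (a : ℂ) (c : ℤ →₀ X) (t : ℝ) : ev (a • c) t = a • ev c t := by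
  rw [ev_sum (a • c) c.support Finsupp.support_smul, ev_sum c _ (Finset.Subset.refl _),
    Finset.smul_sum]
  refine Finset.sum_congr rfl fun n _ => ?_
  rw [Finsupp.smul_apply, smul_comm]

theorem ev_finset_sum {ι : Type} (s : Finset ι) (c : ι → ℤ →₀ X) (t : ℝ) :
    ev (∑ i ∈ s, c i) t = ∑ i ∈ s, ev (c i) t := by
  classical
  induction s using Finset.induction_on with
  | empty => rw [Finset.sum_empty, Finset.sum_empty, ev_zero]
  | insert i s hi ih => rw [Finset.sum_insert hi, Finset.sum_insert hi, ev_add, ih]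

theorem ev_single (n : ℤ) (x : X) (t : ℝ) : ev (Finsupp.single n x) t = ex n t • x := by
  unfold ev
  exact Finsupp.sum_single_index (smul_zero _)

theorem fc_ev [CompleteSpace X] (c : ℤ →₀ X) (n : ℤ) : fc (ev c) n = c n := by
  classical
  unfold fc
  have h1 : ∀ y, ex (-n) y • ev c y = ∑ k ∈ insert n c.support, ex (k + -n) y • c k := by
    intro y
    rw [ev_sum c (insert n c.support) (Finset.subset_insert _ _), Finset.smul_sum]
    refine Finset.sum_congr rfl fun k _ => ?_
    rw [smul_smul, ex_add, mul_comm]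
  simp only [h1]
  rw [integral_finsetSum]
  · have h2 : ∀ k : ℤ, ∫ y in Ico (0 : ℝ) 1, ex (k + -n) y • c k = if k = n then c k else 0 := by
      intro k
      rw [integral_smul_const, integral_ex]
      by_cases hk : k = n
      · rw [if_pos (by omega), if_pos hk, one_smul]
      · rw [if_neg (by omega), if_neg hk, zero_smul]
    simp only [h2]
    rw [Finset.sum_ite_eq' (insert n c.support) n, if_pos (Finset.mem_insert_self _ _)]
  · intro k _
    refine Integrable.mono' (g := fun _ => ‖c k‖) ?_ ?_ ?_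
    · exact integrable_const _
    · exact ((continuous_ex _).smul continuous_const).aestronglyMeasurable
    · refine ae_of_all _ fun y => ?_
      rw [norm_smul, norm_ex, one_mul]

theorem DI_apply (I : Set ℤ) (c : ℤ →₀ X) (n : ℤ) [Decidable (n ∈ I)] :
    DI I c n = if n ∈ I then c n else 0 := by
  unfold DI
  rw [Finsupp.filter_apply]
  by_cases h : n ∈ I
  · rw [if_pos h, if_pos h]
  · rw [if_neg h, if_neg h]

theorem DI_supp (I : Set ℤ) (c : ℤ →₀ X) : (DI I c).support ⊆ c.support := by
  classical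
  intro n hn
  rw [Finsupp.mem_support_iff, DI_apply] at hn
  rw [Finsupp.mem_support_iff]
  intro h
  apply hn
  rw [h, ite_self]

theorem Dab_ev [CompleteSpace X] (a b : ℤ) (c : ℤ →₀ X) (x : ℝ) :
    Dab a b (ev c) x = ev (DI (Icc a b) c) x := by
  classical
  have hs : (DI (Icc a b) c).support ⊆ Finset.Icc a b := by
    intro n hn
    rw [Finsupp.mem_support_iff, DI_apply] at hn
    by_contra h
    apply hn
    rw [if_neg]
    rwa [Finset.mem_Icc] at h
  rw [ev_sum _ _ hs]
  unfold Dab Mu
  refine Finset.sum_congr rfl fun n hn => ?_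
  rw [one_mul, fc_ev, DI_apply, if_pos]
  rwa [Finset.mem_Icc] at hn

theorem DI_congr (I J : Set ℤ) (c : ℤ →₀ X) (h : ∀ n ∈ c.support, n ∈ I ↔ n ∈ J) :
    DI I c = DI J c := by
  classical
  ext n
  rw [DI_apply, DI_apply]
  by_cases hn : n ∈ c.support
  · simp only [h n hn]
  · have : c n = 0 := Finsupp.notMem_support_iff.1 hn
    rw [this]
    simp

theorem DI_eq_zero (I : Set ℤ) (c : ℤ →₀ X) (h : ∀ n ∈ c.support, n ∉ I) : DI I c = 0 := by
  classical
  ext n
  rw [DI_apply]
  by_cases hn : n ∈ I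
  · rw [if_pos hn]
    by_contra h2
    exact h n (Finsupp.mem_support_iff.2 h2) hn
  · rw [if_neg hn]
    rfl

theorem nrm_nonneg (p : ℝ) (c : ℤ →₀ X) : 0 ≤ nrm p c := by
  unfold nrm
  refine Real.rpow_nonneg ?_ _
  refine intervalIntegral.integral_nonneg zero_le_one fun t _ => ?_
  positivity

theorem nrm_zero {p : ℝ} (hp : 0 < p) : nrm p (0 : ℤ →₀ X) = 0 := by
  unfold nrm
  have h1 : ∀ t, ‖ev (0 : ℤ →₀ X) t‖ ^ p = 0 := by
    intro t
    rw [ev_zero, norm_zero, Real.zero_rpow hp.ne']
  simp only [h1, intervalIntegral.integral_zero]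
  exact Real.zero_rpow (by positivity)

theorem Nn_ev {p : ℝ} (hp : 0 < p) (c : ℤ →₀ X) : Nn p (ev c) = ENNReal.ofReal (nrm p c) ^ p := by
  have hI : 0 ≤ ∫ t in (0 : ℝ)..1, ‖ev c t‖ ^ p := by
    refine intervalIntegral.integral_nonneg zero_le_one fun t _ => ?_
    positivity
  unfold nrm
  rw [ENNReal.ofReal_rpow_of_nonneg (Real.rpow_nonneg hI _) hp.le, ← Real.rpow_mul hI,
    show 1 / p * p = 1 by field_simp, Real.rpow_one, intervalIntegral.integral_of_le zero_le_one,
    integral_Ioc_eq_integral_Ioo, ← integral_Ico_eq_integral_Ioo,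
    ofReal_integral_eq_lintegral_ofReal]
  · unfold Nn
    refine lintegral_congr fun x => ?_
    rw [← ofReal_norm_eq_enorm, ENNReal.ofReal_rpow_of_nonneg (norm_nonneg _) hp.le]
  · have hc : Continuous fun t => ‖ev c t‖ ^ p :=
      (ev_cont c).norm.rpow_const fun _ => Or.inr hp.le
    exact (hc.integrableOn_Icc (a := 0) (b := 1)).mono_set Ico_subset_Icc_self
  · refine ae_of_all _ fun x => ?_
    positivity

end

end Pool.Agent.Q82.LQ
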