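import Pool.Agent.Q82.LQ.Pol

/-! Project LQ: reduction to finite families. -/

set_option autoImplicit false

namespace Pool.Agent.Q82.LQ

open MeasureTheory Set Filter Topology Pool.Agent.Q298.LQ
open scoped ENNReal NNReal

section

variable {X : Type} [NormedAddCommGroup X] [NormedSpace ℂ X]

/-- the members of a partition that meet the support -/
theorem meet_finite {P : Set (Set ℤ)} (hP : IntervalPartition P) (c : ℤ →₀ X) :
    {I : P | ∃ n ∈ c.support, n ∈ (I : Set ℤ)}.Finite := by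
  classical
  have hB : ∀ n : ℤ, ∃ I : P, n ∈ (I : Set ℤ) ∧ ∀ J : P, n ∈ (J : Set ℤ) → J = I := by
    intro n
    obtain ⟨I, ⟨hI, hn⟩, huniq⟩ := hP.1.2 n
    exact ⟨⟨I, hI⟩, hn, fun J hJ => Subtype.ext (huniq J ⟨J.2, hJ⟩)⟩
  choose B hB1 hB2 using hB
  refine (c.support.image B).finite_toSet.subset ?_
  rintro I ⟨n, hn, hnI⟩
  rw [Finset.mem_coe, Finset.mem_image]
  exact ⟨n, hn, (hB2 n I hnI).symm⟩

theorem nrm_DI_zero {p q : ℝ} (hp : 0 < p) (hq : 0 < q) (c : ℤ →₀ X) (I : Set ℤ)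
    (h : ¬ ∃ n ∈ c.support, n ∈ I) : nrm p (DI I c) ^ q = 0 := by
  rw [DI_eq_zero I c (fun n hn hnI => h ⟨n, hn, hnI⟩), nrm_zero hp, Real.zero_rpow hq.ne']

theorem tsum_part {p q : ℝ} (hp : 0 < p) (hq : 0 < q) {P : Set (Set ℤ)} (hP : IntervalPartition P)
    (c : ℤ →₀ X) : ∑' I : P, nrm p (DI (I : Set ℤ) c) ^ q =
      ∑ I ∈ (meet_finite hP c).toFinset, nrm p (DI (I : Set ℤ) c) ^ q := by
  refine tsum_eq_sum fun I hI => ?_
  refine nrm_DI_zero hp hq c I ?_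
  intro h
  apply hI
  rw [Set.Finite.mem_toFinset]
  exact h

theorem summable_part {p q : ℝ} (hp : 0 < p) (hq : 0 < q) {P : Set (Set ℤ)}
    (hP : IntervalPartition P) (c : ℤ →₀ X) :
    Summable fun I : P => nrm p (DI (I : Set ℤ) c) ^ q := by
  refine summable_of_ne_finset_zero (s := (meet_finite hP c).toFinset) fun I hI => ?_
  refine nrm_DI_zero hp hq c I ?_
  intro h
  apply hI
  rw [Set.Finite.mem_toFinset]
  exact h

/-- an order connected set meets a box in an integer interval -/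
theorem box (I : Set ℤ) (hI : I.OrdConnected) (c : ℤ →₀ X) (hne : ∃ n ∈ c.support, n ∈ I) :
    ∃ a b : ℤ, a ∈ I ∧ b ∈ I ∧ DI I c = DI (Icc a b) c := by
  classical
  set T : Finset ℤ := c.support.filter (· ∈ I) with hT
  have hTne : T.Nonempty := by
    obtain ⟨n, hn, hnI⟩ := hne
    exact ⟨n, Finset.mem_filter.2 ⟨hn, hnI⟩⟩
  have ha : T.min' hTne ∈ I := (Finset.mem_filter.1 (T.min'_mem hTne)).2
  have hb : T.max' hTne ∈ I := (Finset.mem_filter.1 (T.max'_mem hTne)).2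
  refine ⟨T.min' hTne, T.max' hTne, ha, hb, DI_congr _ _ c fun n hn => ⟨fun h => ?_, fun h => ?_⟩⟩
  · have : n ∈ T := Finset.mem_filter.2 ⟨hn, h⟩
    exact ⟨T.min'_le n this, T.le_max' n this⟩
  · exact hI.out ha hb h

theorem Nn_Dab_ev [CompleteSpace X] {p : ℝ} (hp : 0 < p) (a b : ℤ) (c : ℤ →₀ X) :
    Nn p (Dab a b (ev c)) = ENNReal.ofReal (nrm p (DI (Icc a b) c)) ^ p := by
  rw [← Nn_ev hp]
  congr 1
  funext x
  exact Dab_ev a b c x

end

theorem red : S_RED := by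
  intro X _ _ _ q p L hq hp h
  have hp0 : 0 < p := by linarith
  have hq0 : 0 < q := by linarith
  refine ⟨L, fun P hP c => ?_⟩
  rw [tsum_part hp0 hq0 hP c]
  set T := (meet_finite hP c).toFinset with hT
  have hT' : ∀ I : T, ∃ a b : ℤ, a ∈ (I.1 : Set ℤ) ∧ b ∈ (I.1 : Set ℤ) ∧
      DI (I.1 : Set ℤ) c = DI (Icc a b) c := by
    intro I
    refine box _ (hP.2 _ I.1.2) c ?_
    exact (Set.Finite.mem_toFinset (meet_finite hP c)).1 I.2
  choose a b ha hb hab using hT'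
  have hdisj : ∀ I J : T, I ≠ J → Disjoint (Finset.Icc (a I) (b I)) (Finset.Icc (a J) (b J)) := by
    intro I J hIJ
    rw [Finset.disjoint_left]
    intro n hn hn'
    rw [Finset.mem_Icc] at hn hn'
    apply hIJ
    have h1 : n ∈ (I.1 : Set ℤ) := (hP.2 _ I.1.2).out (ha I) (hb I) hn
    have h2 : n ∈ (J.1 : Set ℤ) := (hP.2 _ J.1.2).out (ha J) (hb J) hn'
    obtain ⟨K, hK, huniq⟩ := hP.1.2 n
    have e1 := huniq _ ⟨I.1.2, h1⟩
    have e2 := huniq _ ⟨J.1.2, h2⟩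
    exact Subtype.ext (Subtype.ext (e1.trans e2.symm))
  have h1 := h T a b hdisj (ev c) (ev_BM c)
  have h2 : ∀ I : T, Nn p (Dab (a I) (b I) (ev c)) ^ (q / p) =
      ENNReal.ofReal (nrm p (DI (I.1 : Set ℤ) c) ^ q) := by
    intro I
    rw [Nn_Dab_ev hp0, ← hab I, ← ENNReal.rpow_mul, show p * (q / p) = q by field_simp,
      ENNReal.ofReal_rpow_of_nonneg (nrm_nonneg _ _) hq0.le]
  simp only [h2] at h1
  rw [Nn_ev hp0, ← ENNReal.rpow_mul, show p * (q / p) = q by field_simp,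
    ← ENNReal.ofReal_sum_of_nonneg (fun I _ => Real.rpow_nonneg (nrm_nonneg _ _) _),
    ← ENNReal.mul_rpow_of_nonneg _ _ hq0.le, ← ENNReal.ofReal_coe_nnreal,
    ← ENNReal.ofReal_mul NNReal.zero_le_coe,
    ENNReal.ofReal_rpow_of_nonneg (mul_nonneg NNReal.zero_le_coe (nrm_nonneg _ _)) hq0.le] at h1
  have h0 : 0 ≤ (L : ℝ) * nrm p c := mul_nonneg NNReal.zero_le_coe (nrm_nonneg _ _)
  rw [ENNReal.ofReal_le_ofReal_iff (by positivity)] at h1
  have h3 : ∑ I ∈ T, nrm p (DI (I : Set ℤ) c) ^ q = ∑ I : T, nrm p (DI (I.1 : Set ℤ) c) ^ q :=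
    (Finset.sum_coe_sort T (fun I => nrm p (DI (I : Set ℤ) c) ^ q)).symm
  rw [h3]
  have h4 := Real.rpow_le_rpow (Finset.sum_nonneg fun I _ =>
    Real.rpow_nonneg (nrm_nonneg _ _) _) h1 (show 0 ≤ 1 / q by positivity)
  rwa [← Real.rpow_mul h0, show q * (1 / q) = 1 by field_simp, Real.rpow_one] at h4

section

variable {X : Type} [NormedAddCommGroup X] [NormedSpace ℂ X]

/-- the partition generated by a finite family of disjoint finite intervals -/
def famPart {ι : Type} (a b : ι → ℤ) : Set (Set ℤ) :=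
  {I | (∃ i, a i ≤ b i ∧ I = Icc (a i) (b i)) ∨ ∃ n, (∀ i, n ∉ Icc (a i) (b i)) ∧ I = {n}}

theorem famPart_part {ι : Type} (a b : ι → ℤ)
    (hab : ∀ i j, i ≠ j → Disjoint (Finset.Icc (a i) (b i)) (Finset.Icc (a j) (b j))) :
    IntervalPartition (famPart a b) := by
  have hd : ∀ (n : ℤ) i j, n ∈ Icc (a i) (b i) → n ∈ Icc (a j) (b j) → i = j := by
    intro n i j hi hj
    by_contra hne
    exact Finset.disjoint_left.1 (hab i j hne) (Finset.mem_Icc.2 hi) (Finset.mem_Icc.2 hj)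
  refine ⟨⟨?_, ?_⟩, ?_⟩
  · rintro (⟨i, hi, h⟩ | ⟨n, hn, h⟩)
    · have : a i ∈ (∅ : Set ℤ) := by
        rw [h]
        exact ⟨le_rfl, hi⟩
      exact this
    · have : n ∈ (∅ : Set ℤ) := by
        rw [h]
        rfl
      exact this
  · intro n
    by_cases hn : ∃ i, n ∈ Icc (a i) (b i)
    · obtain ⟨i, hi⟩ := hn
      refine ⟨Icc (a i) (b i), ⟨Or.inl ⟨i, hi.1.trans hi.2, rfl⟩, hi⟩, ?_⟩
      rintro J ⟨(⟨j, hj, rfl⟩ | ⟨m, hm, rfl⟩), hnJ⟩
      · rw [hd n i j hi hnJ]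
      · rw [Set.mem_singleton_iff] at hnJ
        subst hnJ
        exact absurd hi (hm i)
    · push Not at hn
      refine ⟨{n}, ⟨Or.inr ⟨n, hn, rfl⟩, rfl⟩, ?_⟩
      rintro J ⟨(⟨j, hj, rfl⟩ | ⟨m, hm, rfl⟩), hnJ⟩
      · exact absurd hnJ (hn j)
      · rw [Set.mem_singleton_iff] at hnJ
        rw [hnJ]
  · rintro I (⟨i, hi, rfl⟩ | ⟨n, hn, rfl⟩)
    · exact Set.ordConnected_Icc
    · exact Set.ordConnected_singleton

theorem Dab_empty' (a b : ℤ) (h : ¬ a ≤ b) (g : ℝ → X) {p : ℝ} (hp : 0 < p) :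
    Nn p (Dab a b g) = 0 := by
  have : Dab a b g = fun _ => 0 := by
    funext x
    exact Dab_empty a b h g x
  rw [this]
  unfold Nn
  simp [ENNReal.zero_rpow_of_pos hp]

/-- lower decompositions for trigonometric polynomials and finite families -/
theorem ext_trig [CompleteSpace X] {q p : ℝ} (hq : 0 < q) (hp : 0 < p) {L : ℝ} (hL0 : 0 ≤ L)
    (hL : ∀ P : Set (Set ℤ), IntervalPartition P → ∀ c : ℤ →₀ X,
      (∑' I : P, nrm p (DI (I : Set ℤ) c) ^ q) ^ (1 / q) ≤ L * nrm p c)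
    (ι : Type) [Fintype ι] (a b : ι → ℤ)
    (hab : ∀ i j, i ≠ j → Disjoint (Finset.Icc (a i) (b i)) (Finset.Icc (a j) (b j)))
    (c : ℤ →₀ X) :
    ∑ i, Nn p (Dab (a i) (b i) (ev c)) ^ (q / p) ≤ ENNReal.ofReal L ^ q * Nn p (ev c) ^ (q / p) := by
  classical
  set P := famPart a b with hPdef
  have hP : IntervalPartition P := famPart_part a b hab
  have h1 := hL P hP c
  have hS0 : 0 ≤ ∑' I : P, nrm p (DI (I : Set ℤ) c) ^ q :=
    tsum_nonneg fun I => Real.rpow_nonneg (nrm_nonneg _ _) _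
  have h2 : ∑' I : P, nrm p (DI (I : Set ℤ) c) ^ q ≤ (L * nrm p c) ^ q := by
    have := Real.rpow_le_rpow (Real.rpow_nonneg hS0 _) h1 hq.le
    rwa [← Real.rpow_mul hS0, show 1 / q * q = 1 by field_simp, Real.rpow_one] at this
  set J : Finset ι := Finset.univ.filter (fun i => a i ≤ b i) with hJ
  have e : ∀ i : J, Icc (a i) (b i) ∈ P := fun i =>
    Or.inl ⟨i, (Finset.mem_filter.1 i.2).2, rfl⟩
  have hinj : Function.Injective (fun i : J => (⟨Icc (a i) (b i), e i⟩ : P)) := by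
    intro i j hij
    by_contra hne
    have hne' : (i : ι) ≠ j := fun h => hne (Subtype.ext h)
    have h3 : Icc (a i) (b i) = Icc (a j) (b j) := congrArg Subtype.val hij
    have h4 : a i ∈ Icc (a j) (b j) := by
      rw [← h3]
      exact ⟨le_rfl, (Finset.mem_filter.1 i.2).2⟩
    exact Finset.disjoint_left.1 (hab i j hne')
      (Finset.mem_Icc.2 ⟨le_rfl, (Finset.mem_filter.1 i.2).2⟩) (Finset.mem_Icc.2 h4)
  have h3 : ∑ i : J, nrm p (DI (Icc (a i) (b i)) c) ^ q ≤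
      ∑' I : P, nrm p (DI (I : Set ℤ) c) ^ q := by
    have h4 := (summable_part hp hq hP c).sum_le_tsum
      (Finset.univ.map ⟨fun i : J => (⟨Icc (a i) (b i), e i⟩ : P), hinj⟩)
      (fun I _ => Real.rpow_nonneg (nrm_nonneg _ _) _)
    rw [Finset.sum_map] at h4
    exact h4
  calc ∑ i, Nn p (Dab (a i) (b i) (ev c)) ^ (q / p)
      = ∑ i ∈ J, Nn p (Dab (a i) (b i) (ev c)) ^ (q / p) := by
        refine (Finset.sum_subset (Finset.subset_univ _) fun i _ hi => ?_).symm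
        rw [Dab_empty' (a i) (b i) (fun h => hi (Finset.mem_filter.2 ⟨Finset.mem_univ _, h⟩)) _ hp,
          ENNReal.zero_rpow_of_pos (by positivity)]
    _ = ∑ i : J, ENNReal.ofReal (nrm p (DI (Icc (a i) (b i)) c) ^ q) := by
        rw [← Finset.sum_coe_sort]
        refine Finset.sum_congr rfl fun i _ => ?_
        rw [Nn_Dab_ev hp, ← ENNReal.rpow_mul, show p * (q / p) = q by field_simp,
          ENNReal.ofReal_rpow_of_nonneg (nrm_nonneg _ _) hq.le]
    _ ≤ ENNReal.ofReal ((L * nrm p c) ^ q) := by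
        rw [← ENNReal.ofReal_sum_of_nonneg (fun I _ => Real.rpow_nonneg (nrm_nonneg _ _) _)]
        exact ENNReal.ofReal_le_ofReal (h3.trans h2)
    _ = ENNReal.ofReal L ^ q * Nn p (ev c) ^ (q / p) := by
        rw [Nn_ev hp, ← ENNReal.rpow_mul, show p * (q / p) = q by field_simp,
          ← ENNReal.mul_rpow_of_nonneg _ _ hq.le, ← ENNReal.ofReal_mul hL0,
          ENNReal.ofReal_rpow_of_nonneg (mul_nonneg hL0 (nrm_nonneg _ _)) hq.le]

end

end Pool.Agent.Q82.LQ
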