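import Mathlib

/-!
# Project LQ (helper82, row MP_b78339_an): sharp extrapolation of `ℓ^q(L^p)`-decompositions

Final theorem: for every complex Banach space `X` and `p, q, r ∈ (1,∞)`, `θ = min (p/r) (p'/r')`:
(b) lower `ℓ^q(L^p)`-decompositions imply lower `ℓ^{q/θ}(L^r)`-decompositions (no UMD needed);
(a) for a UMD space upper `ℓ^q(L^p)` implies upper `ℓ^s(L^r)`, `s' = q'/θ` (duality);
in particular the scalars have lower `ℓ^{p'}(L^p)`-decompositions for `1 < p < 2`.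

Idea for (b), `r < p`: Marcinkiewicz interpolation for every interval `I` separately, between weak
`(1,1)` and strong `(p,p)`, with an interval dependent cut-off `c_I = (R/w_I)^{1/(p-1)}`, where
`w_I = Σ_j 2^{j(r-p)} ‖D_I (g 1_{‖g‖ ≤ 2^j})‖_p^p` and `R = ‖g‖_r^r`:
`‖D_I g‖_r^r ≤ C (c^{1-r} R + c^{p-r} w_I)`.  Then `Σ_I ‖D_I g‖_r^s ≤ C R^{..} Σ_I w_I^{q/p}` and
Minkowski in `ℓ^{q/p}` (`q ≥ p` always) with the hypothesis gives `(Σ_I w_I^{q/p})^{p/q} ≤ C R`.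
For `r > p` the same with the sharp function instead of weak `(1,1)` and `g 1_{‖g‖ > 2^j}`.
-/

set_option autoImplicit false

namespace Pool.Agent.Q82.LQ

open MeasureTheory Set Filter Topology ProbabilityTheory
open scoped ENNReal NNReal

/-! ### final notions -/

/-- conjugate exponent -/
noncomputable def cj (t : ℝ) : ℝ := t / (t - 1)

/-- `θ_{p,r} = min (p/r) (p'/r')` -/
noncomputable def th (p r : ℝ) : ℝ := min (p / r) (cj p / cj r)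

/-- the exponential `e_n(t) = e^{2πint}` -/
noncomputable def ex (n : ℤ) (t : ℝ) : ℂ := Complex.exp (2 * Real.pi * Complex.I * n * t)

section notions

variable {X : Type} [NormedAddCommGroup X] [NormedSpace ℂ X]

/-- the trigonometric polynomial with coefficients `c` -/
noncomputable def ev (c : ℤ →₀ X) (t : ℝ) : X := c.sum fun n x => ex n t • x

/-- the norm of `L^p(𝕋; X)` -/
noncomputable def nrm (p : ℝ) (c : ℤ →₀ X) : ℝ := (∫ t in (0 : ℝ)..1, ‖ev c t‖ ^ p) ^ (1 / p)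

open Classical in
/-- the part `D_I f` of a trigonometric polynomial with frequencies in `I` -/
noncomputable def DI (I : Set ℤ) (c : ℤ →₀ X) : ℤ →₀ X := c.filter (· ∈ I)

end notions

/-- partitions of `ℤ` into intervals -/
def IntervalPartition (P : Set (Set ℤ)) : Prop := Setoid.IsPartition P ∧ ∀ I ∈ P, I.OrdConnected

/-- upper `ℓ^q(L^p)`-decompositions -/
def Upper (X : Type) [NormedAddCommGroup X] [NormedSpace ℂ X] (q p : ℝ) : Prop :=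
  ∃ U : ℝ, ∀ P : Set (Set ℤ), IntervalPartition P → ∀ c : ℤ →₀ X,
    nrm p c ≤ U * (∑' I : P, nrm p (DI (I : Set ℤ) c) ^ q) ^ (1 / q)

/-- lower `ℓ^q(L^p)`-decompositions -/
def Lower (X : Type) [NormedAddCommGroup X] [NormedSpace ℂ X] (q p : ℝ) : Prop :=
  ∃ L : ℝ, ∀ P : Set (Set ℤ), IntervalPartition P → ∀ c : ℤ →₀ X,
    (∑' I : P, nrm p (DI (I : Set ℤ) c) ^ q) ^ (1 / q) ≤ L * nrm p c

/-- unconditionality of martingale differences, all exponents `1 < p < ∞` -/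
def UMD (X : Type) [NormedAddCommGroup X] [NormedSpace ℂ X] [CompleteSpace X] : Prop :=
  ∀ p : ℝ, 1 < p → ∃ β : ℝ≥0, ∀ (Ω : Type) (mΩ : MeasurableSpace Ω) (μ : Measure Ω),
    IsProbabilityMeasure μ → ∀ (ℱ : Filtration ℕ mΩ) (f : ℕ → Ω → X), Martingale f ℱ μ →
    (∀ n, MemLp (f n) (ENNReal.ofReal p) μ) → ∀ (ε : ℕ → ℝ), (∀ n, ε n = 1 ∨ ε n = -1) → ∀ N,
      eLpNorm (fun ω => ε 0 • f 0 ω + ∑ n ∈ Finset.range N, ε (n + 1) • (f (n + 1) ω - f n ω))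
        (ENNReal.ofReal p) μ ≤ β * eLpNorm (f N) (ENNReal.ofReal p) μ

/-! ### working notions: functions on `[0,1)` -/

section work

variable {X : Type} [NormedAddCommGroup X] [NormedSpace ℂ X]

/-- bounded strongly measurable functions -/
def BM (g : ℝ → X) : Prop := StronglyMeasurable g ∧ ∃ M : ℝ, ∀ x, ‖g x‖ ≤ M

/-- `‖g‖_p^p` on `[0,1)` -/
noncomputable def Nn (p : ℝ) (g : ℝ → X) : ℝ≥0∞ := ∫⁻ x in Ico (0 : ℝ) 1, ‖g x‖ₑ ^ p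

/-- Fourier coefficients -/
noncomputable def fc (g : ℝ → X) (n : ℤ) : X := ∫ y in Ico (0 : ℝ) 1, ex (-n) y • g y

/-- a Fourier multiplier with finitely many frequencies -/
noncomputable def Mu (s : Finset ℤ) (m : ℤ → ℂ) (g : ℝ → X) (x : ℝ) : X :=
  ∑ n ∈ s, (m n * ex n x) • fc g n

/-- `D_{[a,b]} g` -/
noncomputable def Dab (a b : ℤ) (g : ℝ → X) : ℝ → X := Mu (Finset.Icc a b) (fun _ => 1) g

open Classical in
/-- `g` where `‖g‖ ≤ 2^j`, zero elsewhere -/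
noncomputable def cutL (j : ℤ) (g : ℝ → X) (x : ℝ) : X := if ‖g x‖ ≤ (2 : ℝ) ^ j then g x else 0

open Classical in
/-- `g` where `‖g‖ > 2^j`, zero elsewhere -/
noncomputable def cutU (j : ℤ) (g : ℝ → X) (x : ℝ) : X := if ‖g x‖ ≤ (2 : ℝ) ^ j then 0 else g x

/-- convolution on the circle -/
noncomputable def cv (K : ℝ → ℂ) (g : ℝ → X) (x : ℝ) : X := ∫ y in Ico (0 : ℝ) 1, K (x - y) • g y

end work

/-- `2^{jt}` -/
noncomputable def w2 (j : ℤ) (t : ℝ) : ℝ≥0∞ := (2 : ℝ≥0∞) ^ ((j : ℝ) * t)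

/-- uniform boundedness of the `D_{[a,b]}` on `L^p` -/
def BD (X : Type) [NormedAddCommGroup X] [NormedSpace ℂ X] (p : ℝ) (L : ℝ≥0) : Prop :=
  ∀ (a b : ℤ) (g : ℝ → X), BM g → Nn p (Dab a b g) ≤ (L : ℝ≥0∞) ^ p * Nn p g

/-- lower decompositions for finite disjoint families of finite intervals and bounded functions -/
def LowF (X : Type) [NormedAddCommGroup X] [NormedSpace ℂ X] (q p : ℝ) (L : ℝ≥0) : Prop :=
  ∀ (ι : Type) [Fintype ι] (a b : ι → ℤ),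
    (∀ i j, i ≠ j → Disjoint (Finset.Icc (a i) (b i)) (Finset.Icc (a j) (b j))) →
    ∀ g : ℝ → X, BM g →
      ∑ i, Nn p (Dab (a i) (b i) g) ^ (q / p) ≤ (L : ℝ≥0∞) ^ q * Nn p g ^ (q / p)

/-! ### reductions -/

/-- From trigonometric polynomials and partitions to bounded functions and finite families.

Proof.  (1) A finite disjoint family of finite intervals is contained in an interval partition of
`ℤ` (add singletons for the other integers; drop empty members), so for a trigonometric polynomial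
`f = ev c`: `Dab a b f = ev (DI (Icc a b) c)` on `[0,1)` and the sum over the family is at most the
`tsum` over the partition (finitely many nonzero terms).  (2) For `g ∈ BM` use Fejér means
`F_N g = Mu (Icc (-N) N) (1 - |n|/(N+1)) g`, trigonometric polynomials with `Nn p (F_N g) ≤ Nn p g`
(Fejér kernel `≥ 0` with integral `1`, Jensen/Minkowski) and `Dab a b (F_N g) → Dab a b g`
uniformly, as `N → ∞` (finitely many coefficients). -/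
def S_EXT : Prop := ∀ (X : Type) [NormedAddCommGroup X] [NormedSpace ℂ X] [CompleteSpace X]
  (q p : ℝ), 1 < q → 1 < p → Lower X q p → ∃ L : ℝ≥0, LowF X q p L

/-- Back to trigonometric polynomials: for `f = ev c` only finitely many members `I` of the
partition meet the support; with `supp c ⊆ [-M, M]`, `I ∩ [-M,M] = Icc a b`. -/
def S_RED : Prop := ∀ (X : Type) [NormedAddCommGroup X] [NormedSpace ℂ X] [CompleteSpace X]
  (q p : ℝ) (L : ℝ≥0), 1 < q → 1 < p → LowF X q p L → Lower X q p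

/-- `q ≥ p`.  Proof: `F = Σ_{|j|<K} K (1-|j|/K) e_j x₀ = (sin πKt / sin πt)² x₀`,
`f_k = e_{3Kk} F(· - k/K)`, `k < K`, frequencies in disjoint intervals.  Pointwise
`‖Σ f_k‖ ≤ Σ_k |F(x-k/K)| = K² ‖x₀‖` (only the frequency `0` survives the sum over the shifts), and
`‖F‖_p^p ≥ (c K²)^p / K`, because `F ≥ c K²` for `|t| ≤ 1/(4K)`.  So
`K^{1/q} c K² K^{-1/p} ≤ L K²` for all `K`. -/
def S_QP : Prop := ∀ (X : Type) [NormedAddCommGroup X] [NormedSpace ℂ X] [CompleteSpace X]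
  (q p : ℝ) (L : ℝ≥0), 1 < q → 1 < p → (∃ x : X, x ≠ 0) → LowF X q p L → p ≤ q

/-! ### singular integrals -/

/-- analytic Fejér kernel -/
noncomputable def Kf (m : ℕ) (x : ℝ) : ℂ := ∑ j ∈ Finset.range m, ((1 - (j : ℝ) / m : ℝ) : ℂ) * ex j x

/-- kernels with the uniform regularity estimate; `|x - round x|` is the distance to `ℤ` -/
def KER (A : ℝ) (K : ℝ → ℂ) : Prop := Continuous K ∧ (∀ x, K (x + 1) = K x) ∧
  ∀ h x : ℝ, 0 < |x - round x| → 2 * |h| ≤ |x - round x| →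
    ‖K (x - h) - K x‖ ≤ A * |h| / |x - round x| ^ 2

/-- `Kf m` are kernels, uniformly.

Proof.  With `z = e^{2πix}`, `δ = |x - round x|`, `Kf m = 1/(1-z) - z(1-z^m)/(m(1-z)²)` and
`|1-z| ≥ 4δ`; so `|K'(x)| ≤ C/δ²`: for `δ ≥ 1/m` by the formula (the derivative is
`2πi z [1/(1-z)² + z^m/(1-z)² - (1-z^m)(1+z)/(m(1-z)³)]`, up to the exact shape), for `δ ≤ 1/m` by
`|K'| ≤ 2π Σ j ≤ π m²`.  If `2|h| ≤ δ` the distance to `ℤ` on the segment is `≥ δ/2`; mean value. -/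
def S_KER : Prop := ∃ A : ℝ, 0 ≤ A ∧ ∀ m : ℕ, 0 < m → KER A (Kf m)

/-- Calderón–Zygmund: weak type `(1,1)` with a constant that depends on `p, A, B` only.

Proof.  If `t ≤ ‖g‖_1` the claim is trivial (`W ≥ 1`).  Otherwise take the maximal dyadic intervals
`Q ⊂ [0,1)` with average of `‖g‖` over `Q` `> t`; they have average `≤ 2t`, disjoint, total length
`≤ ‖g‖_1/t`, `‖g‖ ≤ t` a.e. outside (Lebesgue differentiation; or first for dyadic step functions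
`g`, then in general by approximation in `L¹`, `cv K` being bounded from `L¹` to `L^∞`).  Good part
`u = g` outside, average on `Q`: `‖u‖ ≤ 2t`, `‖u‖_1 ≤ ‖g‖_1`, so `Nn p (cv K u) ≤ B^p (2t)^{p-1} ‖g‖_1`
and Chebyshev.  Bad part `b = Σ_Q (g - g_Q) 1_Q`: for `x` with `δ(x - c_Q) ≥ |Q|` for all `Q`,
`‖cv K b (x)‖ ≤ Σ_Q ∫_Q ‖K(x-y) - K(x-c_Q)‖ ‖b(y)‖ dy`, and
`∫_{δ(x-c_Q) ≥ |Q|} A (|Q|/2)/δ(x-c_Q)² dx ≤ A`. -/
def S_CZ : Prop := ∀ (X : Type) [NormedAddCommGroup X] [NormedSpace ℂ X] [CompleteSpace X]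
  (p A : ℝ) (B : ℝ≥0), 1 < p → 0 ≤ A → ∃ W : ℝ≥0, ∀ K : ℝ → ℂ, KER A K →
    (∀ g : ℝ → X, BM g → Nn p (cv K g) ≤ (B : ℝ≥0∞) ^ p * Nn p g) →
    ∀ g : ℝ → X, BM g → ∀ t : ℝ≥0, 0 < t →
      t * volume {x : ℝ | x ∈ Ico (0 : ℝ) 1 ∧ t < ‖cv K g x‖₊} ≤ W * Nn 1 g

/-- Good-λ inequality with the dyadic sharp function, discretised.

Proof.  `F = cv K g` is continuous and bounded, so `‖F x‖ ≤ M F x`, `M` the dyadic maximal function
of `‖F‖` on `[0,1)`.  (1) Good-λ: for `λ ≥ λ₀ = ∫‖F‖` and `0 < γ ≤ 1`,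
`|{MF > 4λ}| ≤ γ |{MF > λ}| + |{F^♯ > γλ}|`, `F^♯(x) = sup_{Q ∋ x} inf_c avg_Q ‖F - c‖` (dyadic `Q`):
let `Q` be maximal with `avg_Q ‖F‖ > λ`; then `avg_Q ‖F‖ ≤ 2λ`; if `F^♯ ≤ γλ` somewhere in `Q`, then
with `c = avg_Q F`: `‖c‖ ≤ 2λ`, `avg_Q ‖F-c‖ ≤ 2γλ`, and `MF(x) > 4λ`, `x ∈ Q`, implies
`M((F-c)1_Q)(x) > 2λ`, a set of measure `≤ (1/2λ) ∫_Q ‖F-c‖ ≤ γ|Q|`.
(2) `F^♯ ≤ M‖cv K (cutU j g)‖ + (2B+A) 2^j`: for `Q` with centre `c₀`, length `ℓ`, split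
`cutL j g = u₁ + u₂`, `u₁ = cutL j g` on `{y | δ(y-c₀) < ℓ}`; `avg_Q ‖cv K u₁‖ ≤ 2B 2^j` by the `L^p`
bound, `‖cv K u₂ (x) - cv K u₂ (c₀)‖ ≤ A 2^j` for `x ∈ Q` by the kernel estimate.
(3) `{M‖cv K (cutU j g)‖ > s}` has measure `≤ s^{-p} Nn p (cv K (cutU j g))`.
(4) `γ = 4^{-r}/2`, `λ = 4^k`, `j = 2k - j₀` with `(2B+A) 2^j ≤ γ λ/2`; multiply by `4^{kr}`, sum over
`k ≥ k₀` (`4^{k₀} ≥ λ₀`), absorb.  (5) the values `k < k₀` contribute `≤ C λ₀^r`, and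
`λ₀^r ≤ C Σ_j 2^{j(r-p)} Nn p (cv K (cutU j g))`: for `2^j ≤ λ₀/(2B)` one has
`λ₀ ≤ ‖cv K (cutU j g)‖_p + B 2^j`, so `Nn p (..) ≥ (λ₀/2)^p`; take the largest such `j`. -/
def S_GL : Prop := ∀ (X : Type) [NormedAddCommGroup X] [NormedSpace ℂ X] [CompleteSpace X]
  (p r A : ℝ) (B : ℝ≥0), 1 < p → p < r → 0 ≤ A → ∃ C : ℝ≥0, ∀ K : ℝ → ℂ, KER A K →
    (∀ g : ℝ → X, BM g → Nn p (cv K g) ≤ (B : ℝ≥0∞) ^ p * Nn p g) →
    ∀ g : ℝ → X, BM g →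
      Nn r (cv K g) ≤ C * ∑' j : ℤ, w2 j (r - p) * Nn p (cv K (cutU j g))

/-- Decomposition of `D_{[a,b]}` into two modulated convolutions with good kernels.

With `m = b + 1 - a`: `1 = (b+1-n)/m + (n-a)/m` on `[a,b]`;
`Σ_n ((b+1-n)/m) e_n ĝ(n) = e_a (Kf m * (e_{-a} g))`, and
`Σ_n ((n-a)/m) e_n ĝ(n) = e_{b+1} ((conj (Kf m) - 1) * (e_{-(b+1)} g))`.
`L^p` bounds: the first multiplier is `(1/m) Σ_{l=a}^{b} D_{[a,l]}`, the second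
`(1/m) Σ_{l=a+1}^{b} D_{[l,b]}`; and `D_{[a,l]} h = D_{[a,l]} (D_{[a,b]} h)`. -/
def S_DEC : Prop := S_KER → ∃ A : ℝ, 0 ≤ A ∧ ∀ (X : Type) [NormedAddCommGroup X] [NormedSpace ℂ X]
  [CompleteSpace X] (a b : ℤ), a ≤ b → ∃ (n₁ n₂ : ℤ) (K₁ K₂ : ℝ → ℂ), KER A K₁ ∧ KER A K₂ ∧
    (∀ g : ℝ → X, BM g → ∀ x, Dab a b g x
      = ex n₁ x • cv K₁ (fun y => ex (-n₁) y • g y) x
        + ex n₂ x • cv K₂ (fun y => ex (-n₂) y • g y) x) ∧
    ∀ (p : ℝ) (L : ℝ≥0), 1 < p → BD X p L → ∀ g : ℝ → X, BM g →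
      Nn p (cv K₁ (fun y => ex (-n₁) y • g y)) ≤ (L : ℝ≥0∞) ^ p * Nn p (Dab a b g) ∧
      Nn p (cv K₂ (fun y => ex (-n₂) y • g y)) ≤ (L : ℝ≥0∞) ^ p * Nn p (Dab a b g)

/-- Weak type `(1,1)` for the intervals, from `S_KER`, `S_DEC`, `S_CZ`
(`‖e_n g‖ = ‖g‖`; `Nn p (Dab a b g) ≤ L^p Nn p g`; the kernels `K₁, K₂` are bounded by `L²`). -/
def S_W11 : Prop := ∀ (X : Type) [NormedAddCommGroup X] [NormedSpace ℂ X] [CompleteSpace X]
  (p : ℝ) (L : ℝ≥0), 1 < p → BD X p L → ∃ W : ℝ≥0, ∀ (a b : ℤ) (g : ℝ → X), BM g →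
    ∀ t : ℝ≥0, 0 < t →
      t * volume {x : ℝ | x ∈ Ico (0 : ℝ) 1 ∧ t < ‖Dab a b g x‖₊} ≤ W * Nn 1 g

/-- Marcinkiewicz step with cut-off `2^i`.

Proof.  `Nn r F ≤ Σ_k 2^{(k+1)r} |{‖F‖ > 2^k}|`, `F = Dab a b g`, and
`|{‖F‖ > 2^k}| ≤ |{‖D (cutU (k+i) g)‖ > 2^{k-1}}| + |{‖D (cutL (k+i) g)‖ > 2^{k-1}}|
≤ 2W 2^{-k} Nn 1 (cutU (k+i) g) + 2^{-(k-1)p} Nn p (D (cutL (k+i) g))`; sum the geometric series
`Σ_{k : 2^{k+i} < ‖g(x)‖} 2^{k(r-1)} ≤ C (‖g(x)‖ 2^{-i})^{r-1}`; put `j = k + i` in the second sum. -/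
def S_I1 : Prop := ∀ (X : Type) [NormedAddCommGroup X] [NormedSpace ℂ X] [CompleteSpace X]
  (p r : ℝ) (L : ℝ≥0), 1 < r → r < p → BD X p L → ∃ C : ℝ≥0, ∀ (a b : ℤ) (g : ℝ → X), BM g →
    ∀ i : ℤ, Nn r (Dab a b g) ≤ C * (w2 i (1 - r) * Nn r g
      + w2 i (p - r) * ∑' j : ℤ, w2 j (r - p) * Nn p (Dab a b (cutL j g)))

/-- From `S_GL` and `S_DEC`. -/
def S_I2 : Prop := ∀ (X : Type) [NormedAddCommGroup X] [NormedSpace ℂ X] [CompleteSpace X]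
  (p r : ℝ) (L : ℝ≥0), 1 < p → p < r → BD X p L → ∃ C : ℝ≥0, ∀ (a b : ℤ) (g : ℝ → X), BM g →
    Nn r (Dab a b g) ≤ C * ∑' j : ℤ, w2 j (r - p) * Nn p (Dab a b (cutU j g))

/-- layer cake for the two cut-offs (geometric series under the integral) -/
def S_CUT : Prop := ∀ (X : Type) [NormedAddCommGroup X] [NormedSpace ℂ X] [CompleteSpace X]
  (p r : ℝ), 1 < p → 1 < r → ∃ C : ℝ≥0, ∀ g : ℝ → X, BM g →
    (r < p → ∑' j : ℤ, w2 j (r - p) * Nn p (cutL j g) ≤ C * Nn r g) ∧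
    (p < r → ∑' j : ℤ, w2 j (r - p) * Nn p (cutU j g) ≤ C * Nn r g)

/-- Summation over the intervals, `r < p`.

Proof.  `BD X p L` from `LowF` with one interval.  `R = Nn r g` (if `R = 0` everything is `0`),
`w_i = Σ_j 2^{j(r-p)} Nn p (D_i (cutL j g))`.  Minkowski in `ℓ^{q/p}`, `LowF` and `S_CUT`:
`(Σ_i w_i^{q/p})^{p/q} ≤ Σ_j 2^{j(r-p)} (Σ_i Nn p (D_i cutL j g)^{q/p})^{p/q} ≤ L^p C R`.
`S_I1` with `2^i ≤ (R/w_i)^{1/(p-1)} < 2^{i+1}` gives `Nn r (D_i g) ≤ C' R^{(p-r)/(p-1)} w_i^{(r-1)/(p-1)}`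
(if `w_i = 0` let `i → ∞`).  With `s = q r'/p'`: `(r-1)/(p-1) · s/r = q/p`, so
`Σ_i Nn r (D_i g)^{s/r} ≤ C'' R^{s/r - q/p} Σ_i w_i^{q/p} ≤ C''' R^{s/r}`. -/
def S_SUM1 : Prop := S_I1 → S_CUT → ∀ (X : Type) [NormedAddCommGroup X] [NormedSpace ℂ X]
  [CompleteSpace X] (p q r : ℝ) (L : ℝ≥0), 1 < r → r < p → p ≤ q → LowF X q p L →
  ∃ L' : ℝ≥0, LowF X (q * (cj r / cj p)) r L'

/-- Summation over the intervals, `r > p`: `s = q r/p`, `s/r = q/p`,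
`Nn r (D_i g) ≤ C w_i`, `w_i = Σ_j 2^{j(r-p)} Nn p (D_i (cutU j g))`, Minkowski as above. -/
def S_SUM2 : Prop := S_I2 → S_CUT → ∀ (X : Type) [NormedAddCommGroup X] [NormedSpace ℂ X]
  [CompleteSpace X] (p q r : ℝ) (L : ℝ≥0), 1 < p → p < r → p ≤ q → LowF X q p L →
  ∃ L' : ℝ≥0, LowF X (q * (r / p)) r L'

/-! ### duality -/

/-- Trigonometric polynomials norm trigonometric polynomials.

Proof.  `f = ev c` is continuous and 1-periodic, `‖f‖_p = nrm p c > 0`.  Choose a fine partition of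
`[0,1)` and, by `hb`, for each piece a `z` with `‖z‖ ≤ 1` and `b (f t_k) z` real and close to
`‖f t_k‖` (multiply by a unimodular constant); the step function `Σ 1_{J_k} ‖f t_k‖^{p-1} z_k`,
divided by `‖f‖_p^{p-1}`, has `L^{p'}` norm close to `1` and pairing close to `‖f‖_p`; make it
continuous periodic or smooth it by Fejér means (norm not increased, pairing with the fixed
trigonometric polynomial `f` converges). -/
def S_NORM : Prop := ∀ (Y Z : Type) [NormedAddCommGroup Y] [NormedSpace ℂ Y]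
  [NormedAddCommGroup Z] [NormedSpace ℂ Z] [CompleteSpace Z] (b : Y →L[ℂ] Z →L[ℂ] ℂ),
  (∀ y z, ‖b y z‖ ≤ ‖y‖ * ‖z‖) → (∀ y, ∀ ε > 0, ∃ z, ‖z‖ ≤ 1 ∧ ‖y‖ - ε < ‖b y z‖) →
  ∀ p : ℝ, 1 < p → ∀ c : ℤ →₀ Y, ∀ ε > 0, ∃ d : ℤ →₀ Z, nrm (cj p) d ≤ 1 ∧
    nrm p c - ε ≤ ‖∫ t in (0 : ℝ)..1, b (ev c t) (ev d t)‖

/-- `X` upper, `D_I` bounded on `L^p(X)` ⟹ `X*` lower with the conjugate exponents.

Proof.  For `φ = ev c`, `c : ℤ →₀ X*`, and `I` in the partition take by `S_NORM` `f_I` with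
`‖f_I‖_p ≤ 1` and `|⟨D_I φ, f_I⟩| ≥ ‖D_I φ‖_{p'} - ε`; `⟨D_I φ, f⟩ = ⟨φ, D_{-I} f⟩`
(`∫ e_n e_m = 0` for `n + m ≠ 0`).  With weights `a_I ≥ 0` (unimodular times nonnegative):
`Σ a_I ⟨D_I φ, f_I⟩ = ⟨φ, Σ a_I D_{-I} f_I⟩ ≤ ‖φ‖_{p'} U (Σ a_I^q ‖D_{-I} f_I‖_p^q)^{1/q}
≤ ‖φ‖_{p'} U B (Σ a_I^q)^{1/q}`; `{-I}` is again an interval partition; optimise over `a`
(`ℓ^q`-`ℓ^{q'}` duality). -/
def S_DU1 : Prop := S_NORM → ∀ (X : Type) [NormedAddCommGroup X] [NormedSpace ℂ X] [CompleteSpace X]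
  (p q : ℝ), 1 < p → 1 < q → Upper X q p →
  (∃ B : ℝ, ∀ I : Set ℤ, I.OrdConnected → ∀ c : ℤ →₀ X, nrm p (DI I c) ≤ B * nrm p c) →
  Lower (StrongDual ℂ X) (cj q) (cj p)

/-- `X*` lower ⟹ `X` upper.

Proof.  For `f = ev c` take by `S_NORM` (Hahn–Banach) `φ` with `‖φ‖_{p'} ≤ 1`,
`‖f‖_p - ε ≤ |⟨f, φ⟩|`, and `⟨f, φ⟩ = Σ_I ⟨D_I f, D_{-I} φ⟩`; Hölder twice. -/
def S_DU2 : Prop := S_NORM → ∀ (X : Type) [NormedAddCommGroup X] [NormedSpace ℂ X] [CompleteSpace X]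
  (p q : ℝ), 1 < p → 1 < q → Lower (StrongDual ℂ X) (cj q) (cj p) → Upper X q p

/-- `ℂ` (and its dual) have lower `ℓ²(L²)`-decompositions (Parseval). -/
def S_PAR : Prop := Lower ℂ 2 2 ∧ Lower (StrongDual ℂ ℂ) 2 2

end Pool.Agent.Q82.LQ
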