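import Pool.Agent.Q82.LQ.Cut

/-! Project LQ: summation over the intervals. -/

set_option autoImplicit false

namespace Pool.Agent.Q82.LQ

open MeasureTheory Set Filter Topology Pool.Agent.Q298.LQ
open scoped ENNReal NNReal

/-- Minkowski for finitely many summands -/
theorem mink_fin {ι J : Type} [Fintype ι] (s : ℝ) (hs : 1 ≤ s) (a : ι → J → ℝ≥0∞) (T : Finset J) :
    (∑ i, (∑ j ∈ T, a i j) ^ s) ^ (1 / s) ≤ ∑ j ∈ T, (∑ i, a i j ^ s) ^ (1 / s) := by
  classical
  have hs0 : 0 < s := by linarith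
  induction T using Finset.induction_on with
  | empty =>
    simp only [Finset.sum_empty]
    rw [ENNReal.zero_rpow_of_pos hs0, Finset.sum_const_zero,
      ENNReal.zero_rpow_of_pos (by positivity)]
  | insert j T hj ih =>
    simp only [Finset.sum_insert hj]
    refine (ENNReal.Lp_add_le _ _ _ hs).trans ?_
    exact add_le_add le_rfl ih

theorem mink {ι J : Type} [Fintype ι] (s : ℝ) (hs : 1 ≤ s) (a : ι → J → ℝ≥0∞) :
    (∑ i, (∑' j, a i j) ^ s) ^ (1 / s) ≤ ∑' j, (∑ i, a i j ^ s) ^ (1 / s) := by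
  have h1 : Tendsto (fun T : Finset J => (∑ i, (∑ j ∈ T, a i j) ^ s) ^ (1 / s)) atTop
      (𝓝 ((∑ i, (∑' j, a i j) ^ s) ^ (1 / s))) := by
    refine (ENNReal.continuous_rpow_const.tendsto _).comp ?_
    refine tendsto_finset_sum _ fun i _ => ?_
    refine (ENNReal.continuous_rpow_const.tendsto _).comp ?_
    exact ENNReal.summable.hasSum
  refine le_of_tendsto h1 (Eventually.of_forall fun T => ?_)
  exact (mink_fin s hs a T).trans (ENNReal.sum_le_tsum T)

section

variable {X : Type} [NormedAddCommGroup X] [NormedSpace ℂ X]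

theorem BD_of_LowF {q p : ℝ} {L : ℝ≥0} (hp : 0 < p) (hq : 0 < q) (h : LowF X q p L) : BD X p L := by
  intro a b g hg
  have h1 := h Unit (fun _ => a) (fun _ => b) (by intro i j hij; exact absurd rfl hij) g hg
  simp only [Finset.univ_unique, Finset.sum_singleton] at h1
  have h2 := ENNReal.rpow_le_rpow h1 (show 0 ≤ p / q by positivity)
  rw [← ENNReal.rpow_mul, ENNReal.mul_rpow_of_nonneg _ _ (by positivity), ← ENNReal.rpow_mul,
    ← ENNReal.rpow_mul] at h2
  rwa [show q / p * (p / q) = 1 by field_simp, ENNReal.rpow_one, ENNReal.rpow_one,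
    show q * (p / q) = p by field_simp] at h2

theorem Nn_lt_top {r : ℝ} (hr : 0 ≤ r) {g : ℝ → X} (hg : BM g) : Nn r g < ⊤ := by
  obtain ⟨hm, M, hM⟩ := hg
  have h0 : 0 ≤ M := (norm_nonneg _).trans (hM 0)
  calc Nn r g ≤ ∫⁻ x in Ico (0 : ℝ) 1, (ENNReal.ofReal M) ^ r := by
        refine lintegral_mono fun x => ENNReal.rpow_le_rpow ?_ hr
        rw [← ofReal_norm_eq_enorm]
        exact ENNReal.ofReal_le_ofReal (hM x)
    _ < ⊤ := by
        rw [setLIntegral_const, Real.volume_Ico]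
        exact ENNReal.mul_lt_top (ENNReal.rpow_lt_top_of_nonneg hr ENNReal.ofReal_ne_top)
          ENNReal.ofReal_lt_top

/-- the weights: Minkowski and the hypothesis -/
theorem weights {q p r : ℝ} {L C : ℝ≥0} (hp : 0 < p) (hpq : p ≤ q) (h : LowF X q p L)
    (c : ℤ → (ℝ → X) → ℝ → X) (hc : ∀ j g, BM g → BM (c j g))
    (ι : Type) [Fintype ι] (a b : ι → ℤ)
    (hab : ∀ i j, i ≠ j → Disjoint (Finset.Icc (a i) (b i)) (Finset.Icc (a j) (b j)))
    (g : ℝ → X) (hg : BM g)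
    (hC : ∑' j : ℤ, w2 j (r - p) * Nn p (c j g) ≤ C * Nn r g) :
    ∑ i, (∑' j : ℤ, w2 j (r - p) * Nn p (Dab (a i) (b i) (c j g))) ^ (q / p)
      ≤ ((L : ℝ≥0∞) ^ p * C * Nn r g) ^ (q / p) := by
  have hq : 0 < q := by linarith
  have hs : 1 ≤ q / p := by rwa [one_le_div hp]
  have hs0 : 0 < q / p := by linarith
  have h1 := mink (q / p) hs (fun i (j : ℤ) => w2 j (r - p) * Nn p (Dab (a i) (b i) (c j g)))
  have h2 : ∀ j : ℤ, (∑ i, (w2 j (r - p) * Nn p (Dab (a i) (b i) (c j g))) ^ (q / p)) ^ (1 / (q / p))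
      ≤ (L : ℝ≥0∞) ^ p * (w2 j (r - p) * Nn p (c j g)) := by
    intro j
    simp only [ENNReal.mul_rpow_of_nonneg _ _ hs0.le]
    rw [← Finset.mul_sum, ENNReal.mul_rpow_of_nonneg _ _ (by positivity), ← ENNReal.rpow_mul,
      show q / p * (1 / (q / p)) = 1 by field_simp, ENNReal.rpow_one]
    have h3 := ENNReal.rpow_le_rpow (h ι a b hab (c j g) (hc j g hg))
      (show 0 ≤ 1 / (q / p) by positivity)
    rw [ENNReal.mul_rpow_of_nonneg _ _ (by positivity), ← ENNReal.rpow_mul, ← ENNReal.rpow_mul,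
      show q / p * (1 / (q / p)) = 1 by field_simp, ENNReal.rpow_one,
      show q * (1 / (q / p)) = p by field_simp] at h3
    calc w2 j (r - p) * (∑ i, Nn p (Dab (a i) (b i) (c j g)) ^ (q / p)) ^ (1 / (q / p))
        ≤ w2 j (r - p) * ((L : ℝ≥0∞) ^ p * Nn p (c j g)) := mul_le_mul_right h3 _
      _ = _ := by ring
  have h4 := h1.trans (ENNReal.tsum_le_tsum h2)
  rw [ENNReal.tsum_mul_left] at h4
  have h5 := h4.trans (mul_le_mul_right hC _)
  have h6 := ENNReal.rpow_le_rpow h5 hs0.le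
  rw [← ENNReal.rpow_mul, show 1 / (q / p) * (q / p) = 1 by field_simp, ENNReal.rpow_one,
    ← mul_assoc] at h6
  exact h6

end

theorem sum2 : S_SUM2 := by
  intro hI hCut X _ _ _ p q r L hp hpr hpq h
  have hr : 1 < r := hp.trans hpr
  have hq : 0 < q := by linarith
  obtain ⟨C, hC⟩ := hI X p r L hp hpr (BD_of_LowF (by linarith) hq h)
  obtain ⟨C₀, hC₀⟩ := hCut X p r hp hr
  set s : ℝ := q * (r / p) with hs
  have hs0 : 0 < s := by positivity
  have hsr : s / r = q / p := by rw [hs]; field_simp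
  have hqp : 0 ≤ q / p := by positivity
  set K : ℝ≥0∞ := (C : ℝ≥0∞) ^ (q / p) * ((L : ℝ≥0∞) ^ p * C₀) ^ (q / p) with hK
  have hKt : K ≠ ⊤ := by
    refine ENNReal.mul_ne_top (ENNReal.rpow_ne_top_of_nonneg hqp ENNReal.coe_ne_top)
      (ENNReal.rpow_ne_top_of_nonneg hqp (ENNReal.mul_ne_top ?_ ENNReal.coe_ne_top))
    exact ENNReal.rpow_ne_top_of_nonneg (by linarith) ENNReal.coe_ne_top
  refine ⟨(K ^ (1 / s)).toNNReal, fun ι _ a b hab g hg => ?_⟩
  rw [ENNReal.coe_toNNReal (ENNReal.rpow_ne_top_of_nonneg (by positivity) hKt), ← ENNReal.rpow_mul,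
    show 1 / s * s = 1 by field_simp, ENNReal.rpow_one, hsr]
  have h1 := weights (r := r) (by linarith) hpq h (fun j g => cutU j g) (fun j g hg => cutU_BM hg j)
    ι a b hab g hg ((hC₀ g hg).2 hpr)
  calc ∑ i, Nn r (Dab (a i) (b i) g) ^ (q / p)
      ≤ ∑ i, (C : ℝ≥0∞) ^ (q / p) *
        (∑' j : ℤ, w2 j (r - p) * Nn p (Dab (a i) (b i) (cutU j g))) ^ (q / p) := by
        refine Finset.sum_le_sum fun i _ => ?_
        rw [← ENNReal.mul_rpow_of_nonneg _ _ hqp]
        exact ENNReal.rpow_le_rpow (hC (a i) (b i) g hg) hqp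
    _ ≤ (C : ℝ≥0∞) ^ (q / p) * ((L : ℝ≥0∞) ^ p * C₀ * Nn r g) ^ (q / p) := by
        rw [← Finset.mul_sum]
        exact mul_le_mul_right h1 _
    _ = K * Nn r g ^ (q / p) := by
        rw [hK, ENNReal.mul_rpow_of_nonneg _ _ hqp, mul_assoc]

/-- optimisation of the cut-off -/
theorem optim {p r : ℝ} (hr : 1 < r) (hrp : r < p) (C : ℝ≥0) (N R w : ℝ≥0∞) (hR : R ≠ ⊤)
    (hw : w ≠ ⊤) (h : ∀ i : ℤ, N ≤ C * (w2 i (1 - r) * R + w2 i (p - r) * w)) :
    N ≤ (C * 2 ^ r : ℝ≥0∞) * (R ^ ((p - r) / (p - 1)) * w ^ ((r - 1) / (p - 1))) := by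
  have hp1 : 0 < p - 1 := by linarith
  have hα : 0 ≤ (p - r) / (p - 1) := by apply div_nonneg <;> linarith
  have hβ : 0 ≤ (r - 1) / (p - 1) := by apply div_nonneg <;> linarith
  -- positive finite case
  have key : ∀ R' w' : ℝ, 0 < R' → 0 < w' → R ≤ ENNReal.ofReal R' → w ≤ ENNReal.ofReal w' →
      N ≤ (C * 2 ^ r : ℝ≥0∞) * (ENNReal.ofReal R' ^ ((p - r) / (p - 1)) *
        ENNReal.ofReal w' ^ ((r - 1) / (p - 1))) := by
    intro R' w' hR' hw' hRR hww
    set t : ℝ := (R' / w') ^ (1 / (p - 1)) with ht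
    have ht0 : 0 < t := by positivity
    obtain ⟨n, hn1, hn2⟩ := exists_mem_Ico_zpow (y := (2 : ℝ)) ht0 one_lt_two
    have hw2 : ∀ (i : ℤ) (u : ℝ), w2 i u = ENNReal.ofReal (((2 : ℝ) ^ i) ^ u) := by
      intro i u
      unfold w2
      rw [← Real.rpow_intCast, ← Real.rpow_mul (by norm_num), ← ENNReal.ofReal_rpow_of_pos (by norm_num)]
      norm_num
    have e1 : w2 n (1 - r) ≤ ENNReal.ofReal (2 ^ (r - 1) * t ^ (1 - r)) := by
      rw [hw2]
      apply ENNReal.ofReal_le_ofReal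
      have h2n : (0 : ℝ) < 2 ^ n := by positivity
      have : t ≤ 2 * 2 ^ n := by
        rw [← zpow_one_add₀ (by norm_num), add_comm]
        exact hn2.le
      have h3 : (2 * (2 : ℝ) ^ n) ^ (1 - r) ≤ t ^ (1 - r) :=
        Real.rpow_le_rpow_of_nonpos ht0 this (by linarith)
      rw [Real.mul_rpow (by norm_num) h2n.le] at h3
      have h4 : (2 : ℝ) ^ (r - 1) * 2 ^ (1 - r) = 1 := by
        rw [← Real.rpow_add (by norm_num)]
        norm_num
      calc ((2 : ℝ) ^ n) ^ (1 - r) = (2 : ℝ) ^ (r - 1) * (2 ^ (1 - r) * ((2 : ℝ) ^ n) ^ (1 - r)) := by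
            rw [← mul_assoc, h4, one_mul]
        _ ≤ _ := mul_le_mul_of_nonneg_left h3 (by positivity)
    have e2 : w2 n (p - r) ≤ ENNReal.ofReal (t ^ (p - r)) := by
      rw [hw2]
      apply ENNReal.ofReal_le_ofReal
      exact Real.rpow_le_rpow (by positivity) hn1 (by linarith)
    have e3 : t ^ (1 - r) * R' = R' ^ ((p - r) / (p - 1)) * w' ^ ((r - 1) / (p - 1)) := by
      rw [ht, ← Real.rpow_mul (by positivity), Real.div_rpow hR'.le hw'.le, div_mul_eq_mul_div,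
        ← Real.rpow_add_one hR'.ne', div_eq_mul_inv, ← Real.rpow_neg hw'.le]
      congr 2
      · field_simp; ring
      · field_simp; ring
    have e4 : t ^ (p - r) * w' = R' ^ ((p - r) / (p - 1)) * w' ^ ((r - 1) / (p - 1)) := by
      rw [ht, ← Real.rpow_mul (by positivity), Real.div_rpow hR'.le hw'.le, div_mul_eq_mul_div,
        mul_div_assoc]
      congr 1
      · congr 1
        field_simp
      · conv_lhs => rw [← Real.rpow_one w', ← Real.rpow_mul hw'.le, one_mul]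
        rw [← Real.rpow_sub hw']
        congr 1
        field_simp
        ring
    have e5 : (2 : ℝ) ^ (r - 1) * (t ^ (1 - r) * R') + t ^ (p - r) * w'
        ≤ 2 ^ r * (R' ^ ((p - r) / (p - 1)) * w' ^ ((r - 1) / (p - 1))) := by
      rw [e3, e4]
      have h5 : (2 : ℝ) ^ r = 2 * 2 ^ (r - 1) := by
        rw [← Real.rpow_one_add' (by norm_num) (by linarith)]
        congr 1
        ring
      have h6 : (1 : ℝ) ≤ 2 ^ (r - 1) := Real.one_le_rpow (by norm_num) (by linarith)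
      rw [h5]
      have h7 : 0 ≤ R' ^ ((p - r) / (p - 1)) * w' ^ ((r - 1) / (p - 1)) := by positivity
      nlinarith
    calc N ≤ C * (w2 n (1 - r) * R + w2 n (p - r) * w) := h n
      _ ≤ C * (ENNReal.ofReal (2 ^ (r - 1) * t ^ (1 - r)) * ENNReal.ofReal R' +
          ENNReal.ofReal (t ^ (p - r)) * ENNReal.ofReal w') := by
          refine mul_le_mul_right (add_le_add ?_ ?_) _
          · exact mul_le_mul' e1 hRR
          · exact mul_le_mul' e2 hww
      _ ≤ C * ENNReal.ofReal (2 ^ r * (R' ^ ((p - r) / (p - 1)) * w' ^ ((r - 1) / (p - 1)))) := by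
          refine mul_le_mul_right ?_ _
          rw [← ENNReal.ofReal_mul (by positivity), ← ENNReal.ofReal_mul (by positivity),
            ← ENNReal.ofReal_add (by positivity) (by positivity), mul_assoc]
          exact ENNReal.ofReal_le_ofReal e5
      _ = _ := by
          rw [ENNReal.ofReal_mul (by positivity), ENNReal.ofReal_mul (by positivity),
            ← ENNReal.ofReal_rpow_of_pos hR', ← ENNReal.ofReal_rpow_of_pos hw',
            ← ENNReal.ofReal_rpow_of_pos (by norm_num : (0 : ℝ) < 2)]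
          norm_num
          ring
  -- limit
  have hlim : Tendsto (fun ε : ℝ => (C * 2 ^ r : ℝ≥0∞) *
      (ENNReal.ofReal (R.toReal + ε) ^ ((p - r) / (p - 1)) *
        ENNReal.ofReal (w.toReal + ε) ^ ((r - 1) / (p - 1)))) (𝓝[>] 0)
      (𝓝 ((C * 2 ^ r : ℝ≥0∞) * (R ^ ((p - r) / (p - 1)) * w ^ ((r - 1) / (p - 1))))) := by
    have hc : (C * 2 ^ r : ℝ≥0∞) ≠ ⊤ := ENNReal.mul_ne_top ENNReal.coe_ne_top
      (ENNReal.rpow_ne_top_of_nonneg (by linarith) ENNReal.ofNat_ne_top)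
    have hlin : ∀ v : ℝ≥0∞, v ≠ ⊤ → ∀ e : ℝ, Tendsto (fun ε : ℝ => ENNReal.ofReal (v.toReal + ε) ^ e)
        (𝓝[>] 0) (𝓝 (v ^ e)) := by
      intro v hv e
      refine (ENNReal.continuous_rpow_const.tendsto _).comp ?_
      have h1 : Tendsto (fun ε : ℝ => ENNReal.ofReal (v.toReal + ε)) (𝓝 0)
          (𝓝 (ENNReal.ofReal (v.toReal + 0))) :=
        (ENNReal.continuous_ofReal.tendsto _).comp
          ((continuous_const.add continuous_id).tendsto 0)
      rw [add_zero, ENNReal.ofReal_toReal hv] at h1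
      exact h1.mono_left nhdsWithin_le_nhds
    refine ENNReal.Tendsto.const_mul ?_ (Or.inr hc)
    refine ENNReal.Tendsto.mul (hlin R hR _) (Or.inr ?_) (hlin w hw _) (Or.inr ?_)
    · exact ENNReal.rpow_ne_top_of_nonneg hβ hw
    · exact ENNReal.rpow_ne_top_of_nonneg hα hR
  refine ge_of_tendsto hlim ?_
  filter_upwards [self_mem_nhdsWithin] with ε (hε : 0 < ε)
  have h1 : ∀ v : ℝ≥0∞, v ≠ ⊤ → v ≤ ENNReal.ofReal (v.toReal + ε) := by
    intro v hv
    conv_lhs => rw [← ENNReal.ofReal_toReal hv]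
    exact ENNReal.ofReal_le_ofReal (by linarith)
  exact key _ _ (by positivity) (by positivity) (h1 R hR) (h1 w hw)

theorem sum1 : S_SUM1 := by
  intro hI hCut X _ _ _ p q r L hr hrp hpq h
  have hp : 1 < p := hr.trans hrp
  have hq : 0 < q := by linarith
  have hp1 : 0 < p - 1 := by linarith
  have hr1 : 0 < r - 1 := by linarith
  obtain ⟨C, hC⟩ := hI X p r L hr hrp (BD_of_LowF (by linarith) hq h)
  obtain ⟨C₀, hC₀⟩ := hCut X p r hp hr
  set s : ℝ := q * (cj r / cj p) with hs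
  have hs' : s = q * (r * (p - 1) / ((r - 1) * p)) := by
    rw [hs]
    unfold cj
    field_simp
  have hs0 : 0 < s := by rw [hs']; positivity
  have hsr : s / r = q * (p - 1) / ((r - 1) * p) := by rw [hs']; field_simp
  have hsr0 : 0 < s / r := by positivity
  have hqp : 0 ≤ q / p := by positivity
  have hβ : (r - 1) / (p - 1) * (s / r) = q / p := by rw [hsr]; field_simp
  have hα : (p - r) / (p - 1) * (s / r) + q / p = s / r := by
    rw [← hβ, ← add_mul]
    have : (p - r) / (p - 1) + (r - 1) / (p - 1) = 1 := by field_simp; ring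
    rw [this, one_mul]
  set K : ℝ≥0∞ := (C * 2 ^ r : ℝ≥0∞) ^ (s / r) * ((L : ℝ≥0∞) ^ p * C₀) ^ (q / p) with hK
  have hKt : K ≠ ⊤ := by
    refine ENNReal.mul_ne_top (ENNReal.rpow_ne_top_of_nonneg hsr0.le (ENNReal.mul_ne_top
      ENNReal.coe_ne_top (ENNReal.rpow_ne_top_of_nonneg (by linarith) ENNReal.ofNat_ne_top)))
      (ENNReal.rpow_ne_top_of_nonneg hqp (ENNReal.mul_ne_top ?_ ENNReal.coe_ne_top))
    exact ENNReal.rpow_ne_top_of_nonneg (by linarith) ENNReal.coe_ne_top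
  refine ⟨(K ^ (1 / s)).toNNReal, fun ι _ a b hab g hg => ?_⟩
  rw [ENNReal.coe_toNNReal (ENNReal.rpow_ne_top_of_nonneg (by positivity) hKt), ← ENNReal.rpow_mul,
    show 1 / s * s = 1 by field_simp, ENNReal.rpow_one]
  have h1 := weights (r := r) (by linarith) hpq h (fun j g => cutL j g) (fun j g hg => cutL_BM hg j)
    ι a b hab g hg ((hC₀ g hg).1 hrp)
  have hRt : Nn r g ≠ ⊤ := (Nn_lt_top (by linarith) hg).ne
  have hwt : ∀ i, (∑' j : ℤ, w2 j (r - p) * Nn p (Dab (a i) (b i) (cutL j g))) ≠ ⊤ := by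
    intro i
    have h2 : (∑' j : ℤ, w2 j (r - p) * Nn p (Dab (a i) (b i) (cutL j g)))
        ≤ (L : ℝ≥0∞) ^ p * (C₀ * Nn r g) := by
      refine le_trans ?_ (mul_le_mul_right ((hC₀ g hg).1 hrp) _)
      rw [← ENNReal.tsum_mul_left]
      refine ENNReal.tsum_le_tsum fun j => ?_
      calc w2 j (r - p) * Nn p (Dab (a i) (b i) (cutL j g))
          ≤ w2 j (r - p) * ((L : ℝ≥0∞) ^ p * Nn p (cutL j g)) :=
            mul_le_mul_right (BD_of_LowF (by linarith) hq h _ _ _ (cutL_BM hg j)) _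
        _ = _ := by ring
    refine ne_top_of_le_ne_top ?_ h2
    exact ENNReal.mul_ne_top (ENNReal.rpow_ne_top_of_nonneg (by linarith) ENNReal.coe_ne_top)
      (ENNReal.mul_ne_top ENNReal.coe_ne_top hRt)
  calc ∑ i, Nn r (Dab (a i) (b i) g) ^ (s / r)
      ≤ ∑ i, (C * 2 ^ r : ℝ≥0∞) ^ (s / r) * Nn r g ^ ((p - r) / (p - 1) * (s / r)) *
        (∑' j : ℤ, w2 j (r - p) * Nn p (Dab (a i) (b i) (cutL j g))) ^ (q / p) := by
        refine Finset.sum_le_sum fun i _ => ?_
        have h2 := optim hr hrp C _ _ _ hRt (hwt i) (hC (a i) (b i) g hg)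
        refine (ENNReal.rpow_le_rpow h2 hsr0.le).trans (le_of_eq ?_)
        rw [ENNReal.mul_rpow_of_nonneg (C * 2 ^ r : ℝ≥0∞) _ hsr0.le,
          ENNReal.mul_rpow_of_nonneg (Nn r g ^ ((p - r) / (p - 1))) _ hsr0.le,
          ← ENNReal.rpow_mul, ← ENNReal.rpow_mul _ ((r - 1) / (p - 1)), hβ, mul_assoc]
    _ ≤ (C * 2 ^ r : ℝ≥0∞) ^ (s / r) * Nn r g ^ ((p - r) / (p - 1) * (s / r)) *
        ((L : ℝ≥0∞) ^ p * C₀ * Nn r g) ^ (q / p) := by
        rw [← Finset.mul_sum]
        exact mul_le_mul_right h1 _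
    _ = K * Nn r g ^ (s / r) := by
        have e : Nn r g ^ (s / r) =
            Nn r g ^ ((p - r) / (p - 1) * (s / r)) * Nn r g ^ (q / p) := by
          rw [← ENNReal.rpow_add_of_nonneg _ _ (by
            apply mul_nonneg _ hsr0.le
            apply div_nonneg <;> linarith) hqp, hα]
        rw [hK, ENNReal.mul_rpow_of_nonneg _ _ hqp, e]
        ring

end Pool.Agent.Q82.LQ
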